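import Mathlib
import Pool.Agent.W437.HC.Act

/-!
# Hodge classes, Tate classes and motivated classes in the tensor powers of a motive

`M` is a motive of weight `w` and rank `N`. We fix a basis of the dual of the Betti realization `V`
of `M`, so that the dual of `V` is `ℚ ^ N`, and the dual of the `ℓ`-adic realization is `ℚ_ℓ ^ N`.
The classes in `M ^ {⊗ 2 m} (m w)` are the multilinear forms in `2 m` variables on `ℚ ^ N`; they are
given by their coefficients `c : (Fin (2 * m) → Fin N) → ℚ`, and
`evalF c x = ∑ I, c I * ∏ k, x k (I k)` is the value of the form at the vectors `x k`.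
-/

namespace Pool.Agent.Helper883_Four

open Matrix ComplexOrder Pool.Agent.W437.HC

/-- A polarized rational Hodge structure on `ℚ ^ N`: `H a` is the part of `ℂ ^ N` where
`p - q = a`, and `Q` is the matrix of the polarization. -/
structure PolHS (N : ℕ) where
  /-- the Hodge decomposition -/
  H : ℤ → Submodule ℂ (Fin N → ℂ)
  /-- the polarization -/
  Q : Matrix (Fin N) (Fin N) ℚ
  dec : DirectSum.IsInternal H
  conj : ∀ a, ∀ x ∈ H a, (fun i => starRingEnd ℂ (x i)) ∈ H (-a)
  orth : ∀ a b, a + b ≠ 0 → ∀ x ∈ H a, ∀ y ∈ H b, ∑ i, ∑ j, x i * (Q i j : ℂ) * y j = 0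
  pos : ∀ a, ∀ x ∈ H a, x ≠ 0 →
    0 < Complex.I ^ a * ∑ i, ∑ j, x i * (Q i j : ℂ) * starRingEnd ℂ (x j)

/-- A family of spaces of classes in `M ^ {⊗ 2 m} (m w)`, `m = 0, 1, …`, with coefficients in `K`. -/
abbrev Fam (K : Type) [Field K] (N : ℕ) : Type :=
  ∀ m : ℕ, Submodule K ((Fin (2 * m) → Fin N) → K)

/-- The Hodge classes: the form vanishes at all vectors `x k` of type `a k` with `∑ a k ≠ 0`. -/
def hodge {N : ℕ} (W : PolHS N) : Fam ℚ N := fun m =>
  { carrier := {c | ∀ (a : Fin (2 * m) → ℤ) (x : Fin (2 * m) → Fin N → ℂ),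
      (∀ k, x k ∈ W.H (a k)) → ∑ k, a k ≠ 0 → evalF (cst ℂ c) x = 0}
    zero_mem' := by
      intro a x _ _
      rw [cst_zero]
      exact evalF_zero x
    add_mem' := by
      intro c d hc hd a x hx ha
      have h1 := hc a x hx ha
      have h2 := hd a x hx ha
      rw [cst_add]
      have h3 : evalF (cst ℂ c + cst ℂ d) x = evalF (cst ℂ c) x + evalF (cst ℂ d) x := by
        simp only [evalF, Pi.add_apply, add_mul, Finset.sum_add_distrib]
      rw [h3, h1, h2, add_zero]
    smul_mem' := by
      intro r c hc a x hx ha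
      have h1 := hc a x hx ha
      have h3 : evalF (cst ℂ (r • c)) x = (r : ℂ) * evalF (cst ℂ c) x := by
        simp only [evalF, cst_apply, Pi.smul_apply, smul_eq_mul, Rat.cast_mul, Finset.mul_sum,
          mul_assoc]
      rw [h3, h1, mul_zero] }

/-- The Tate classes for the representation `ρ` of the topological group `Γ`: an open subgroup acts
on the form through the character `χ ^ m`. -/
def tate {N : ℕ} {K : Type} [Field K] {Γ : Type} [Group Γ] [TopologicalSpace Γ]
    (ρ : Γ →* Matrix (Fin N) (Fin N) K) (χ : Γ →* K) : Fam K N := fun m =>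
  { carrier := {c | ∃ Δ : Subgroup Γ, IsOpen (Δ : Set Γ) ∧
      ∀ s ∈ Δ, ∀ x, evalF c (fun k => ρ s *ᵥ x k) = χ s ^ m * evalF c x}
    zero_mem' := by
      refine ⟨⊤, isOpen_univ, fun s _ x => ?_⟩
      rw [evalF_zero, evalF_zero, mul_zero]
    add_mem' := by
      rintro c d ⟨Δ, hΔ, hc⟩ ⟨Δ', hΔ', hd⟩
      refine ⟨Δ ⊓ Δ', hΔ.inter hΔ', fun s hs x => ?_⟩
      have h3 : ∀ y, evalF (c + d) y = evalF c y + evalF d y := by
        intro y
        simp only [evalF, Pi.add_apply, add_mul, Finset.sum_add_distrib]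
      rw [h3, h3, hc s hs.1, hd s hs.2, mul_add]
    smul_mem' := by
      rintro r c ⟨Δ, hΔ, hc⟩
      refine ⟨Δ, hΔ, fun s hs x => ?_⟩
      have h3 : ∀ y, evalF (r • c) y = r * evalF c y := by
        intro y
        simp only [evalF, Pi.smul_apply, smul_eq_mul, Finset.mul_sum, mul_assoc]
      rw [h3, h3, hc s hs]
      ring }

/-- The combinations with coefficients in `K` of the classes of a family of rational classes. -/
def ext (K : Type) [Field K] {N : ℕ} (A : Fam ℚ N) : Fam K N := fun m =>
  Submodule.span K (cst K '' (A m : Set ((Fin (2 * m) → Fin N) → ℚ)))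

/-- The Lie algebra of a family of classes: all matrices which annihilate (as derivations) all the
classes of the family. This is the Lie algebra of the group which fixes all these classes. -/
def lie {K : Type} [Field K] {N : ℕ} (F : Fam K N) : Submodule K (Matrix (Fin N) (Fin N) K) where
  carrier := {X | ∀ (m : ℕ), ∀ c ∈ F m, act X c = 0}
  zero_mem' := fun _ c _ => act_zero_left c
  add_mem' := by
    intro X Y hX hY m c hc
    rw [act_add_left, hX m c hc, hY m c hc, add_zero]
  smul_mem' := by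
    intro r X hX m c hc
    rw [act_smul_left, hX m c hc, smul_zero]

/-- The class in `M ^ {⊗ 2} (w)` with the matrix `B` of coefficients. -/
def cls2 {K : Type} {N : ℕ} (B : Matrix (Fin N) (Fin N) K) : (Fin (2 * 1) → Fin N) → K :=
  fun I => B (I 0) (I 1)

/-- The polarization with coefficients in `K`. -/
def polar (K : Type) [Field K] {N : ℕ} (Q : Matrix (Fin N) (Fin N) ℚ) :
    Matrix (Fin N) (Fin N) K := Q.map (fun q : ℚ => (q : K))

/-- The endomorphism `P` belongs to the family `F`, that is, the class `Q (P x, y)` does. -/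
def IsEndo {K : Type} [Field K] {N : ℕ} (Q : Matrix (Fin N) (Fin N) ℚ) (F : Fam K N)
    (P : Matrix (Fin N) (Fin N) K) : Prop :=
  cls2 (Pᵀ * polar K Q) ∈ F 1

/-- The central part of type IV: the endomorphisms in `F` which commute with all endomorphisms in `F`
and are antisymmetric for the polarization `Q`. -/
def centre {K : Type} [Field K] {N : ℕ} (Q : Matrix (Fin N) (Fin N) ℚ) (F : Fam K N) :
    Submodule K (Matrix (Fin N) (Fin N) K) where
  carrier := {Z | IsEndo Q F Z ∧ (∀ P, IsEndo Q F P → Z * P = P * Z) ∧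
    Zᵀ * polar K Q + polar K Q * Z = 0}
  zero_mem' := by
    refine ⟨?_, fun P _ => by rw [zero_mul, mul_zero], by simp⟩
    have h1 : cls2 ((0 : Matrix (Fin N) (Fin N) K)ᵀ * polar K Q) = 0 := by
      funext I
      simp [cls2]
    unfold IsEndo
    rw [h1]
    exact Submodule.zero_mem _
  add_mem' := by
    rintro Z Z' ⟨h1, h2, h3⟩ ⟨h1', h2', h3'⟩
    refine ⟨?_, fun P hP => by rw [add_mul, mul_add, h2 P hP, h2' P hP], ?_⟩
    · have h4 : cls2 ((Z + Z')ᵀ * polar K Q) =
          cls2 (Zᵀ * polar K Q) + cls2 (Z'ᵀ * polar K Q) := by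
        funext I
        simp [cls2, add_mul]
      unfold IsEndo
      rw [h4]
      exact Submodule.add_mem _ h1 h1'
    · have h4 : (Z + Z')ᵀ * polar K Q + polar K Q * (Z + Z') =
          (Zᵀ * polar K Q + polar K Q * Z) + (Z'ᵀ * polar K Q + polar K Q * Z') := by
        rw [transpose_add, add_mul, mul_add]
        abel
      rw [h4, h3, h3', add_zero]
  smul_mem' := by
    rintro r Z ⟨h1, h2, h3⟩
    refine ⟨?_, fun P hP => by rw [smul_mul_assoc, mul_smul_comm, h2 P hP], ?_⟩
    · have h4 : cls2 ((r • Z)ᵀ * polar K Q) = r • cls2 (Zᵀ * polar K Q) := by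
        funext I
        simp [cls2]
      unfold IsEndo
      rw [h4]
      exact Submodule.smul_mem _ r h1
    · rw [transpose_smul, smul_mul_assoc, mul_smul_comm, ← smul_add, h3, smul_zero]

/-- The matrices which annihilate all classes in `M ^ {⊗ 2} (w)` that belong to the family `F`, and
the class `t` in `M ^ {⊗ 4} (2 w)`. -/
def annTwo {K : Type} [Field K] {N : ℕ} (F : Fam K N) (t : (Fin (2 * 2) → Fin N) → K) :
    Submodule K (Matrix (Fin N) (Fin N) K) where
  carrier := {X | (∀ c ∈ F 1, act X c = 0) ∧ act X t = 0}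
  zero_mem' := ⟨fun c _ => act_zero_left c, act_zero_left t⟩
  add_mem' := by
    rintro X Y ⟨hX, hX'⟩ ⟨hY, hY'⟩
    refine ⟨fun c hc => ?_, ?_⟩
    · rw [act_add_left, hX c hc, hY c hc, add_zero]
    · rw [act_add_left, hX', hY', add_zero]
  smul_mem' := by
    rintro r X ⟨hX, hX'⟩
    refine ⟨fun c hc => ?_, ?_⟩
    · rw [act_smul_left, hX c hc, smul_zero]
    · rw [act_smul_left, hX', smul_zero]

/-- The representation is semisimple: every stable subspace has a stable complement. -/
def Semisimple {K : Type} [Field K] {N : ℕ} {Γ : Type} [Group Γ]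
    (ρ : Γ →* Matrix (Fin N) (Fin N) K) : Prop :=
  ∀ U : Submodule K (Fin N → K), (∀ s, ∀ u ∈ U, ρ s *ᵥ u ∈ U) →
    ∃ U' : Submodule K (Fin N → K), (∀ s, ∀ u ∈ U', ρ s *ᵥ u ∈ U') ∧ IsCompl U U'

end Pool.Agent.Helper883_Four
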