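import Mathlib
import Pool.Agent.Helper883_Four.Defs

/-!
# The form given by the Casimir element of the Lie algebra
-/

set_option linter.unusedSectionVars false

namespace Pool.Agent.Helper883_Four

open Matrix Pool.Agent.W437.HC

variable {B : Type*} [Fintype B] [DecidableEq B] {K : Type*} [Field K]

/-- The form `Tr (p (e₀ e₁ᵀ Ω) e₂ e₃ᵀ Ω)`. -/
def theta (p : Matrix B B K →ₗ[K] Matrix B B K) (Om : Matrix B B K) : (Fin 4 → B) → K :=
  fun I => trace (p (single (I 0) (I 1) 1 * Om) * (single (I 2) (I 3) 1 * Om))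

theorem sum_left (X Om : Matrix B B K) (i k : B) :
    ∑ j, X j i • (single j k 1 * Om) = X * (single i k 1 * Om) := by
  rw [← mul_assoc, ← Finset.sum_congr rfl (fun j _ => smul_mul_assoc (X j i) (single j k 1) Om),
    ← Finset.sum_mul]
  congr 1
  ext a b
  rw [Matrix.sum_apply, Finset.sum_eq_single a]
  · by_cases hb : k = b
    · subst hb
      simp
    · simp [Matrix.mul_apply, hb]
  · intro j _ hj
    simp [hj]
  · intro h
    exact absurd (Finset.mem_univ _) h

theorem sum_right (X Om : Matrix B B K) (i k : B) :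
    ∑ j, X j k • (single i j 1 * Om) = single i k 1 * (Xᵀ * Om) := by
  rw [← mul_assoc, ← Finset.sum_congr rfl (fun j _ => smul_mul_assoc (X j k) (single i j 1) Om),
    ← Finset.sum_mul]
  congr 1
  ext a b
  rw [Matrix.sum_apply, Finset.sum_eq_single b]
  · by_cases ha : i = a
    · subst ha
      simp
    · simp [Matrix.mul_apply, ha]
  · intro j _ hj
    simp [hj]
  · intro h
    exact absurd (Finset.mem_univ _) h

theorem sum_both {Om X : Matrix B B K} (hX : Xᵀ * Om + Om * X = 0) (i k : B) :
    ∑ j, X j i • (single j k 1 * Om) + ∑ j, X j k • (single i j 1 * Om) =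
      X * (single i k 1 * Om) - (single i k 1 * Om) * X := by
  rw [sum_left, sum_right, eq_neg_of_add_eq_zero_left hX]
  noncomm_ring

theorem act_theta (p : Matrix B B K →ₗ[K] Matrix B B K) {Om X : Matrix B B K}
    (hX : Xᵀ * Om + Om * X = 0) (I : Fin 4 → B) :
    act X (theta p Om) I = trace ((p (X * (single (I 0) (I 1) 1 * Om) -
      (single (I 0) (I 1) 1 * Om) * X) - (X * p (single (I 0) (I 1) 1 * Om) -
        p (single (I 0) (I 1) 1 * Om) * X)) * (single (I 2) (I 3) 1 * Om)) := by
  set A := single (I 0) (I 1) (1 : K) * Om with hA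
  set C := single (I 2) (I 3) (1 : K) * Om with hC
  have h1 : act X (theta p Om) I = trace (p (∑ j, X j (I 0) • (single j (I 1) 1 * Om) +
      ∑ j, X j (I 1) • (single (I 0) j 1 * Om)) * C) +
      trace (p A * (∑ j, X j (I 2) • (single j (I 3) 1 * Om) +
      ∑ j, X j (I 3) • (single (I 2) j 1 * Om))) := by
    simp only [act, theta, Fin.sum_univ_four, map_add, map_sum, map_smul, add_mul, mul_add,
      trace_add, Finset.sum_mul, Finset.mul_sum, trace_sum, smul_mul_assoc, mul_smul_comm,
      trace_smul, smul_eq_mul, Function.update_self, hA, hC]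
    simp only [Function.update_of_ne (show (0 : Fin 4) ≠ 1 by decide),
      Function.update_of_ne (show (0 : Fin 4) ≠ 2 by decide),
      Function.update_of_ne (show (0 : Fin 4) ≠ 3 by decide),
      Function.update_of_ne (show (1 : Fin 4) ≠ 0 by decide),
      Function.update_of_ne (show (1 : Fin 4) ≠ 2 by decide),
      Function.update_of_ne (show (1 : Fin 4) ≠ 3 by decide),
      Function.update_of_ne (show (2 : Fin 4) ≠ 0 by decide),
      Function.update_of_ne (show (2 : Fin 4) ≠ 1 by decide),
      Function.update_of_ne (show (2 : Fin 4) ≠ 3 by decide),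
      Function.update_of_ne (show (3 : Fin 4) ≠ 0 by decide),
      Function.update_of_ne (show (3 : Fin 4) ≠ 1 by decide),
      Function.update_of_ne (show (3 : Fin 4) ≠ 2 by decide)]
    ring
  rw [h1, sum_both hX, sum_both hX, ← hA, ← hC]
  clear_value A C
  rw [sub_mul, trace_sub]
  have h2 : trace (p A * (X * C - C * X)) = -trace ((X * p A - p A * X) * C) := by
    rw [mul_sub, sub_mul, trace_sub, trace_sub, mul_assoc X (p A) C, trace_mul_comm X (p A * C),
      mul_assoc (p A) C X, mul_assoc (p A) X C]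
    ring
  rw [h2]
  ring

/-- The form is killed by the Lie algebra. -/
theorem act_theta_eq_zero {p : Matrix B B K →ₗ[K] Matrix B B K} {Om X : Matrix B B K}
    (hX : Xᵀ * Om + Om * X = 0) (hp : ∀ A, p (X * A - A * X) = X * p A - p A * X) :
    act X (theta p Om) = 0 := by
  funext I
  rw [act_theta p hX, hp, sub_self, zero_mul, trace_zero]
  rfl

theorem eq_zero_of_trace {Om : Matrix B B K} (hOm : IsUnit Om) {C : Matrix B B K}
    (h : ∀ i j, trace (C * (single i j 1 * Om)) = 0) : C = 0 := by
  have h1 : Om * C = 0 := by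
    ext j i
    have h2 := h i j
    rw [trace_mul_comm, mul_assoc] at h2
    have h3 : trace (single i j (1 : K) * (Om * C)) = (Om * C) j i := by
      rw [Matrix.trace]
      simp only [diag_apply]
      rw [Finset.sum_eq_single i]
      · simp
      · intro a _ ha
        simp [ha]
      · intro h
        exact absurd (Finset.mem_univ _) h
    rw [← h3, h2]
    rfl
  obtain ⟨u, rfl⟩ := hOm
  have h2 : ((u⁻¹ : (Matrix B B K)ˣ) : Matrix B B K) * ((u : Matrix B B K) * C) = C := by
    rw [← mul_assoc, Units.inv_mul, one_mul]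
  rw [← h2, h1, mul_zero]

/-- If the form is killed by `Y` then `p` commutes with the bracket with `Y`. -/
theorem comm_of_act {p : Matrix B B K →ₗ[K] Matrix B B K} {Om Y : Matrix B B K}
    (hOm : IsUnit Om) (hY : Yᵀ * Om + Om * Y = 0) (h : act Y (theta p Om) = 0)
    (A : Matrix B B K) : p (Y * A - A * Y) = Y * p A - p A * Y := by
  have h1 : ∀ i j, p (Y * (single i j 1 * Om) - (single i j 1 * Om) * Y) -
      (Y * p (single i j 1 * Om) - p (single i j 1 * Om) * Y) = 0 := by
    intro i j
    refine eq_zero_of_trace hOm fun k l => ?_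
    have h2 := congrFun h ![i, j, k, l]
    rw [act_theta p hY] at h2
    exact h2
  -- a linear map in `A`
  let F : Matrix B B K →ₗ[K] Matrix B B K :=
    { toFun := fun A => p (Y * (A * Om) - (A * Om) * Y) - (Y * p (A * Om) - p (A * Om) * Y)
      map_add' := by
        intro A A'
        simp only [add_mul, mul_add, map_sub, map_add]
        abel
      map_smul' := by
        intro a A
        simp only [smul_mul_assoc, mul_smul_comm, map_sub, map_smul, RingHom.id_apply, smul_sub] }
  have hF : F = 0 := by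
    apply LinearMap.ext
    intro A
    rw [matrix_eq_sum_single A, map_sum]
    refine Finset.sum_eq_zero fun i _ => ?_
    rw [map_sum]
    refine Finset.sum_eq_zero fun j _ => ?_
    have h3 : single i j (A i j) = A i j • single i j (1 : K) := by
      rw [smul_single, smul_eq_mul, mul_one]
    rw [h3, map_smul]
    have h4 : F (single i j 1) = 0 := h1 i j
    rw [h4, smul_zero]
  obtain ⟨u, hu⟩ := hOm
  have h2 : (A * ((u⁻¹ : (Matrix B B K)ˣ) : Matrix B B K)) * Om = A := by
    rw [← hu, mul_assoc, Units.inv_mul, mul_one]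
  have h3 : F (A * ((u⁻¹ : (Matrix B B K)ˣ) : Matrix B B K)) = 0 := by
    rw [hF]
    rfl
  change p (Y * (_ * Om) - (_ * Om) * Y) - (Y * p (_ * Om) - p (_ * Om) * Y) = 0 at h3
  rw [h2] at h3
  exact sub_eq_zero.1 h3

theorem trace_rank_one (x y : B → K) (M : Matrix B B K) :
    trace (M * vecMulVec x y) = y ⬝ᵥ (M *ᵥ x) := by
  rw [Matrix.mul_vecMulVec, trace_vecMulVec, dotProduct_comm]

/-- The value of the form. -/
theorem evalF_theta (p : Matrix B B K →ₗ[K] Matrix B B K) (Om : Matrix B B K) (x : Fin 4 → B → K) :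
    evalF (theta p Om) x =
      trace (p (vecMulVec (x 0) (x 1) * Om) * (vecMulVec (x 2) (x 3) * Om)) := by
  have hv : ∀ u v : B → K, vecMulVec u v * Om = ∑ i, ∑ j, (u i * v j) • (single i j 1 * Om) := by
    intro u v
    rw [matrix_eq_sum_single (vecMulVec u v), Finset.sum_mul]
    refine Finset.sum_congr rfl fun i _ => ?_
    rw [Finset.sum_mul]
    refine Finset.sum_congr rfl fun j _ => ?_
    rw [← smul_mul_assoc]
    congr 1
    rw [smul_single, smul_eq_mul, mul_one]
    rfl
  rw [hv (x 0) (x 1), hv (x 2) (x 3)]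
  simp only [map_sum, map_smul, Finset.sum_mul, Finset.mul_sum, smul_mul_assoc, mul_smul_comm,
    trace_sum, trace_smul, smul_eq_mul]
  unfold evalF theta
  -- sums over functions
  have h1 : ∀ F : (Fin 4 → B) → K, ∑ I, F I = ∑ a, ∑ b, ∑ c, ∑ d, F ![a, b, c, d] := by
    intro F
    rw [← (Fin.consEquiv (fun _ : Fin 4 => B)).sum_comp, Fintype.sum_prod_type]
    refine Finset.sum_congr rfl fun a _ => ?_
    rw [← (Fin.consEquiv (fun _ : Fin 3 => B)).sum_comp, Fintype.sum_prod_type]
    refine Finset.sum_congr rfl fun b _ => ?_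
    rw [← (Fin.consEquiv (fun _ : Fin 2 => B)).sum_comp, Fintype.sum_prod_type]
    refine Finset.sum_congr rfl fun c _ => ?_
    rw [← (Fin.consEquiv (fun _ : Fin 1 => B)).sum_comp, Fintype.sum_prod_type]
    refine Finset.sum_congr rfl fun d _ => ?_
    rw [Fintype.sum_unique]
    congr 1
  have h2 : ∀ F : (Fin 4 → B) → K, ∑ I, F I = ∑ c, ∑ d, ∑ a, ∑ b, F ![a, b, c, d] := by
    intro F
    rw [h1]
    calc ∑ a, ∑ b, ∑ c, ∑ d, F ![a, b, c, d] = ∑ a, ∑ c, ∑ b, ∑ d, F ![a, b, c, d] :=
          Finset.sum_congr rfl fun a _ => Finset.sum_comm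
      _ = ∑ c, ∑ a, ∑ b, ∑ d, F ![a, b, c, d] := Finset.sum_comm
      _ = ∑ c, ∑ a, ∑ d, ∑ b, F ![a, b, c, d] :=
          Finset.sum_congr rfl fun c _ => Finset.sum_congr rfl fun a _ => Finset.sum_comm
      _ = ∑ c, ∑ d, ∑ a, ∑ b, F ![a, b, c, d] :=
          Finset.sum_congr rfl fun c _ => Finset.sum_comm
  rw [h2]
  simp only [Fin.prod_univ_four, Matrix.cons_val_zero, Matrix.cons_val_one, Matrix.cons_val]
  refine Finset.sum_congr rfl fun a _ => Finset.sum_congr rfl fun b _ =>
    Finset.sum_congr rfl fun c _ => Finset.sum_congr rfl fun d _ => ?_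
  ring

end Pool.Agent.Helper883_Four
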