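import Mathlib
import Pool.Agent.Helper883_Four.Theta

/-!
# Linear algebra: projections to Lie algebras of matrices
-/

set_option linter.unusedSectionVars false

namespace Pool.Agent.Helper883_Four

open Matrix Pool.Agent.W437.HC

section

variable {B : Type*} [Fintype B] [DecidableEq B] {K : Type*} [Field K]

/-- The main linear algebra: if the projection `p` to the Lie algebra `L` commutes with the brackets
with the elements of `L` and with `X`, then `X - p X` commutes with `L`. -/
theorem core {L : Submodule K (Matrix B B K)} {p : Matrix B B K →ₗ[K] Matrix B B K}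
    (hpid : ∀ A ∈ L, p A = A)
    (hL : ∀ Y ∈ L, ∀ A, p (Y * A - A * Y) = Y * p A - p A * Y) {X : Matrix B B K}
    (hX : ∀ A, p (X * A - A * X) = X * p A - p A * X) (Y : Matrix B B K) (hY : Y ∈ L) :
    (X - p X) * Y = Y * (X - p X) := by
  have h1 := hL Y hY X
  have h2 := hX Y
  rw [hpid Y hY] at h2
  have h3 : p (Y * X - X * Y) = Y * X - X * Y := by
    rw [← neg_sub (X * Y), map_neg, h2]
  rw [h3] at h1
  rw [sub_mul, mul_sub]
  have h4 : X * Y - p X * Y - (Y * X - Y * p X) =
      -((Y * X - X * Y) - (Y * p X - p X * Y)) := by abel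
  rw [← sub_eq_zero, h4, h1, sub_self, neg_zero]

/-- The trace form. -/
def trK (K : Type*) [Field K] (B : Type*) [Fintype B] [DecidableEq B] :
    LinearMap.BilinForm K (Matrix B B K) :=
  LinearMap.mk₂ K (fun X Y => trace (X * Y))
    (fun X Y Z => by rw [add_mul, trace_add])
    (fun a X Y => by rw [smul_mul_assoc, trace_smul])
    (fun X Y Z => by rw [mul_add, trace_add])
    (fun a X Y => by rw [mul_smul_comm, trace_smul])

theorem trK_apply (X Y : Matrix B B K) : trK K B X Y = trace (X * Y) := rfl

theorem trK_refl : (trK K B).IsRefl := by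
  intro X Y h
  rw [trK_apply] at h ⊢
  rw [trace_mul_comm]
  exact h

/-- The projection to a subspace on which the trace form is nondegenerate. It commutes with all
brackets and conjugations which preserve the subspace. -/
theorem exists_proj (L : Submodule K (Matrix B B K))
    (hnd : ∀ X ∈ L, (∀ Y ∈ L, trace (X * Y) = 0) → X = 0) :
    ∃ p : Matrix B B K →ₗ[K] Matrix B B K, (∀ A, p A ∈ L) ∧ (∀ A ∈ L, p A = A) ∧
      (∀ X, (∀ Y ∈ L, X * Y - Y * X ∈ L) → ∀ A, p (X * A - A * X) = X * p A - p A * X) ∧
      ∀ g g' : Matrix B B K, g' * g = 1 → g * g' = 1 → (∀ Y ∈ L, g * Y * g' ∈ L) →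
        (∀ Y ∈ L, g' * Y * g ∈ L) → ∀ A, p (g * A * g') = g * p A * g' := by
  classical
  have hdisj : Disjoint L ((trK K B).orthogonal L) := by
    rw [Submodule.disjoint_def]
    intro X hX hX'
    refine hnd X hX fun Y hY => ?_
    have h1 := hX' Y hY
    change trK K B Y X = 0 at h1
    rw [trK_apply, trace_mul_comm] at h1
    exact h1
  have hc : IsCompl L ((trK K B).orthogonal L) :=
    (LinearMap.BilinForm.isCompl_orthogonal_iff_disjoint trK_refl).2 hdisj
  set p := L.projection _ hc with hp
  have hpm : ∀ A, p A ∈ L := fun A => Submodule.projection_apply_mem hc A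
  have hpi : ∀ A ∈ L, p A = A := fun A hA => Submodule.projection_apply_of_mem_left hc hA
  have hpo : ∀ A ∈ (trK K B).orthogonal L, p A = 0 := fun A hA =>
    (Submodule.projection_apply_eq_zero_iff hc).2 hA
  have h1 : ∀ A, A - p A ∈ (trK K B).orthogonal L := by
    intro A
    rw [← Submodule.projection_apply_eq_zero_iff hc, map_sub, ← hp, hpi _ (hpm A), sub_self]
  refine ⟨p, hpm, hpi, fun X hX A => ?_, fun g g' h g'g hg hg' A => ?_⟩
  · have h2 : X * (A - p A) - (A - p A) * X ∈ (trK K B).orthogonal L := by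
      intro Y hY
      change trK K B Y _ = 0
      rw [trK_apply]
      have h3 := h1 A (X * Y - Y * X) (hX Y hY)
      change trK K B _ _ = 0 at h3
      rw [trK_apply] at h3
      generalize A - p A = C at h3 ⊢
      have h4 : trace (Y * (X * C - C * X)) = -trace ((X * Y - Y * X) * C) := by
        rw [mul_sub, sub_mul, trace_sub, trace_sub, ← mul_assoc Y C X, trace_mul_comm (Y * C) X,
          mul_assoc X Y C, mul_assoc Y X C]
        ring
      rw [h4, h3, neg_zero]
    have h4 : X * A - A * X = (X * p A - p A * X) + (X * (A - p A) - (A - p A) * X) := by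
      noncomm_ring
    rw [h4, map_add, hpo _ h2, add_zero, hpi _ (hX _ (hpm A))]
  · have h2 : g * (A - p A) * g' ∈ (trK K B).orthogonal L := by
      intro Y hY
      change trK K B Y _ = 0
      rw [trK_apply]
      have h3 := h1 A (g' * Y * g) (hg' Y hY)
      change trK K B _ _ = 0 at h3
      rw [trK_apply] at h3
      rw [← h3]
      generalize A - p A = C
      rw [← mul_assoc Y, trace_mul_comm _ g', ← mul_assoc, ← mul_assoc, mul_assoc _ g C]
    have h4 : g * A * g' = g * p A * g' + g * (A - p A) * g' := by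
      noncomm_ring
    rw [h4, map_add, hpo _ h2, add_zero, hpi _ (hg _ (hpm A))]

end

section

variable {K : Type} [Field K]

theorem act_cls {N : ℕ} (X M : Matrix (Fin N) (Fin N) K) (I : Fin (2 * 1) → Fin N) :
    act X (cls2 M) I = (Xᵀ * M + M * X) (I 0) (I 1) := by
  have h1 : act X (cls2 M) I = ∑ k : Fin 2, ∑ j, X j (I k) * cls2 M (Function.update I k j) := rfl
  rw [h1]
  simp only [cls2, Fin.sum_univ_two, Matrix.add_apply, Matrix.mul_apply, Matrix.transpose_apply]
  refine congrArg₂ (fun x y : K => x + y) ?_ ?_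
  · refine Finset.sum_congr rfl fun j _ => ?_
    rw [show Function.update I 0 j 0 = j from Function.update_self _ _ _,
      show Function.update I 0 j 1 = I 1 from Function.update_of_ne (by decide) _ _]
  · refine Finset.sum_congr rfl fun j _ => ?_
    rw [show Function.update I 1 j 1 = j from Function.update_self _ _ _,
      show Function.update I 1 j 0 = I 0 from Function.update_of_ne (by decide) _ _, mul_comm]

theorem act_cls_iff {N : ℕ} (X M : Matrix (Fin N) (Fin N) K) :
    act X (cls2 M) = 0 ↔ Xᵀ * M + M * X = 0 := by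
  constructor
  · intro h
    ext i j
    have h2 := congrFun h ![i, j]
    rw [act_cls] at h2
    exact h2
  · intro h
    funext I
    rw [act_cls, h]
    rfl

theorem evalF_cls {N : ℕ} (M : Matrix (Fin N) (Fin N) K) (x : Fin (2 * 1) → Fin N → K) :
    evalF (cls2 M) x = x 0 ⬝ᵥ (M *ᵥ x 1) := by
  have h1 : evalF (cls2 M) x = ∑ I : Fin 2 → Fin N, M (I 0) (I 1) * (x 0 (I 0) * x 1 (I 1)) := by
    unfold evalF cls2
    refine Finset.sum_congr rfl fun I _ => ?_
    congr 1
    exact Fin.prod_univ_two _
  rw [h1, ← (finTwoArrowEquiv (Fin N)).symm.sum_comp, Fintype.sum_prod_type]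
  simp only [dotProduct, mulVec, Finset.mul_sum]
  refine Finset.sum_congr rfl fun i _ => Finset.sum_congr rfl fun j _ => ?_
  have h2 : (finTwoArrowEquiv (Fin N)).symm (i, j) 0 = i := rfl
  have h3 : (finTwoArrowEquiv (Fin N)).symm (i, j) 1 = j := rfl
  rw [h2, h3]
  ring

end

section

variable {K : Type} [Field K] {N : ℕ}

theorem lie_bracket {F : Fam K N} {X Y : Matrix (Fin N) (Fin N) K} (hX : X ∈ lie F)
    (hY : Y ∈ lie F) : X * Y - Y * X ∈ lie F :=
  fun m c hc => act_bracket (hX m c hc) (hY m c hc)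

/-- Elements of the Lie algebra are antisymmetric for the polarization. -/
theorem lie_skew {F : Fam K N} {Q : Matrix (Fin N) (Fin N) ℚ} (hQ : cls2 (polar K Q) ∈ F 1)
    {X : Matrix (Fin N) (Fin N) K} (hX : X ∈ lie F) :
    Xᵀ * polar K Q + polar K Q * X = 0 := (act_cls_iff X _).1 (hX 1 _ hQ)

theorem eq_of_mul_left {Om A B : Matrix (Fin N) (Fin N) K} (hu : IsUnit Om)
    (h : A * Om = B * Om) : A = B := hu.mul_right_cancel h

/-- Elements of the Lie algebra commute with the endomorphisms. -/
theorem lie_comm {F : Fam K N} {Q : Matrix (Fin N) (Fin N) ℚ} (hu : IsUnit (polar K Q))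
    {X : Matrix (Fin N) (Fin N) K} (hs : Xᵀ * polar K Q + polar K Q * X = 0)
    {P : Matrix (Fin N) (Fin N) K} (hX : act X (cls2 (Pᵀ * polar K Q)) = 0) : X * P = P * X := by
  have h1 := (act_cls_iff X _).1 hX
  have h2 : polar K Q * X = -(Xᵀ * polar K Q) := (neg_eq_of_add_eq_zero_right hs).symm
  rw [mul_assoc Pᵀ, h2] at h1
  have h3 : Xᵀ * Pᵀ * polar K Q = Pᵀ * Xᵀ * polar K Q := by
    have h4 : Xᵀ * (Pᵀ * polar K Q) + Pᵀ * -(Xᵀ * polar K Q) =
      Xᵀ * Pᵀ * polar K Q - Pᵀ * Xᵀ * polar K Q := by
      rw [mul_neg, mul_assoc, mul_assoc, sub_eq_add_neg]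
    rw [h4] at h1
    exact sub_eq_zero.1 h1
  have h4 := eq_of_mul_left hu h3
  have h5 := congrArg transpose h4
  rw [transpose_mul, transpose_mul, transpose_transpose, transpose_transpose] at h5
  exact h5.symm

end

end Pool.Agent.Helper883_Four
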