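import Mathlib
import Pool.Agent.Helper883_Four.Lin

/-!
# Forms and their invariance
-/

set_option linter.unusedSectionVars false

namespace Pool.Agent.Helper883_Four

open Matrix Pool.Agent.W437.HC

section

variable {B κ K : Type*} [Fintype B] [DecidableEq B] [Fintype κ] [DecidableEq κ] [Field K]

/-- The form with given multilinear map. -/
theorem evalF_coef (F : MultilinearMap K (fun _ : κ => B → K) K) (x : κ → B → K) :
    evalF (fun I : κ → B => F (fun k => Pi.single (I k) 1)) x = F x := by
  have h1 : evalM (fun I : κ → B => F (fun k => Pi.single (I k) 1)) = F := by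
    refine Module.Basis.ext_multilinear (fun _ => Pi.basisFun K B) fun v => ?_
    rw [evalM_apply]
    have h2 : (fun i => (Pi.basisFun K B) (v i)) = fun i => Pi.single (v i) (1 : K) := by
      funext i
      rw [Pi.basisFun_apply]
    rw [h2, evalF_single]
  rw [← evalM_apply, h1]

/-- The form `c (g x)`. -/
def pull (g : Matrix B B K) (c : (κ → B) → K) : (κ → B) → K :=
  fun I => evalF c (fun k => g *ᵥ Pi.single (I k) 1)

theorem evalF_pull (g : Matrix B B K) (c : (κ → B) → K) (x : κ → B → K) :
    evalF (pull g c) x = evalF c (fun k => g *ᵥ x k) := by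
  exact evalF_coef ((evalM c).compLinearMap (fun _ => toLin' g)) x

theorem pull_update (g : Matrix B B K) (x : κ → B → K) (k : κ) (y : B → K) :
    (fun l => g *ᵥ Function.update x k y l) = Function.update (fun l => g *ᵥ x l) k (g *ᵥ y) := by
  funext l
  by_cases h : l = k
  · subst h
    rw [Function.update_self, Function.update_self]
  · rw [Function.update_of_ne h, Function.update_of_ne h]

/-- If `X` kills the form `c (g x)` then `g X g'` kills `c`, where `g'` is the inverse of `g`. -/
theorem kills_conj {g g' X : Matrix B B K} (h : g * g' = 1) {c : (κ → B) → K}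
    (hX : act X (pull g c) = 0) : act (g * X * g') c = 0 := by
  apply eq_zero_of_evalF
  intro y
  have h1 : evalF (act X (pull g c)) (fun k => g' *ᵥ y k) = 0 := by
    rw [hX, evalF_zero]
  rw [evalF_act] at h1 ⊢
  rw [← h1]
  refine Finset.sum_congr rfl fun k _ => ?_
  rw [evalF_pull, pull_update]
  congr 1
  have h2 : (fun l => g *ᵥ g' *ᵥ y l) = y := by
    funext l
    rw [mulVec_mulVec, h, one_mulVec]
  rw [h2, mulVec_mulVec, mulVec_mulVec]

theorem eq_of_evalF {c d : (κ → B) → K} (h : ∀ x, evalF c x = evalF d x) : c = d := by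
  funext I
  rw [← evalF_single c I, h, evalF_single]

theorem evalF_smul (r : K) (c : (κ → B) → K) (x : κ → B → K) :
    evalF (r • c) x = r * evalF c x := by
  simp only [evalF, Pi.smul_apply, smul_eq_mul, Finset.mul_sum, mul_assoc]

end

section

variable {K : Type} [Field K] [CharZero K] {N : ℕ}

theorem lam_cst (lam : K →ₗ[ℚ] ℚ) (r : K) (q : ℚ) : lam (r * (q : K)) = lam r * q := by
  have h1 : r * (q : K) = q • r := by rw [Rat.smul_def, mul_comm]
  rw [h1, map_smul, smul_eq_mul, mul_comm]

/-- Rational linear maps take the combinations of rational classes to rational classes. -/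
theorem lam_ext {A : Fam ℚ N} {m : ℕ} {c : (Fin (2 * m) → Fin N) → K} (hc : c ∈ ext K A m)
    (lam : K →ₗ[ℚ] ℚ) : (fun I => lam (c I)) ∈ A m := by
  revert lam
  refine Submodule.span_induction (p := fun c _ => ∀ lam : K →ₗ[ℚ] ℚ, (fun I => lam (c I)) ∈ A m)
    ?_ ?_ ?_ ?_ hc
  · rintro _ ⟨a, ha, rfl⟩ lam
    have h1 : (fun I => lam (cst K a I)) = lam 1 • a := by
      funext I
      have h2 : cst K a I = 1 * ((a I : ℚ) : K) := by rw [one_mul]; rfl
      rw [h2, lam_cst]
      rfl
    rw [h1]
    exact Submodule.smul_mem _ _ ha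
  · intro lam
    have h1 : (fun I : Fin (2 * m) → Fin N => lam ((0 : (Fin (2 * m) → Fin N) → K) I)) = 0 := by
      funext I
      simp
    rw [h1]
    exact Submodule.zero_mem _
  · intro a b _ _ ha hb lam
    have h1 : (fun I => lam ((a + b) I)) = (fun I => lam (a I)) + fun I => lam (b I) := by
      funext I
      simp
    rw [h1]
    exact Submodule.add_mem _ (ha lam) (hb lam)
  · intro r a _ ha lam
    have h1 := ha (lam.comp (LinearMap.mulLeft ℚ r))
    exact h1

/-- A form all of whose images under rational linear maps are rational classes is a combination of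
rational classes. -/
theorem mem_ext_of_lam {A : Fam ℚ N} {m : ℕ} {c : (Fin (2 * m) → Fin N) → K}
    (h : ∀ lam : K →ₗ[ℚ] ℚ, (fun I => lam (c I)) ∈ A m) : c ∈ ext K A m := by
  classical
  -- the rational span of the coefficients
  let S : Submodule ℚ K := Submodule.span ℚ (Set.range c)
  have hfin : Module.Finite ℚ S := Module.Finite.span_of_finite ℚ (Set.finite_range c)
  let b := Module.finBasis ℚ S
  -- extend the coordinates
  have hex : ∀ i, ∃ lam : K →ₗ[ℚ] ℚ, ∀ x : S, lam x = b.coord i x := by
    intro i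
    obtain ⟨lam, hlam⟩ := (b.coord i).exists_extend
    exact ⟨lam, fun x => by rw [← hlam]; rfl⟩
  choose lam hlam using hex
  have h1 : c = ∑ i, (b i : K) • cst K (fun I => lam i (c I)) := by
    funext I
    have h2 : c I ∈ S := Submodule.subset_span ⟨I, rfl⟩
    have h3 := b.sum_repr ⟨c I, h2⟩
    have h4 := congrArg (fun x : S => (x : K)) h3
    simp only [AddSubmonoidClass.coe_finsetSum, SetLike.val_smul] at h4
    rw [← h4, Finset.sum_apply]
    refine Finset.sum_congr rfl fun i _ => ?_
    rw [Pi.smul_apply, cst_apply, smul_eq_mul]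
    have h5 := hlam i ⟨c I, h2⟩
    rw [Module.Basis.coord_apply] at h5
    change lam i (c I) = _ at h5
    rw [h5, Rat.smul_def, mul_comm]
  rw [h1]
  refine Submodule.sum_mem _ fun i _ => Submodule.smul_mem _ _ (Submodule.subset_span ?_)
  exact ⟨_, h (lam i), rfl⟩

/-- Rational linear maps take the Lie algebra to the rational Lie algebra. -/
theorem lie_lam {A : Fam ℚ N} {X : Matrix (Fin N) (Fin N) K}
    (hX : ∀ m, ∀ c ∈ A m, act X (cst K c) = 0) (lam : K →ₗ[ℚ] ℚ) : X.map lam ∈ lie A := by
  intro m c hc
  funext I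
  have h1 : lam (act X (cst K c) I) = act (X.map lam) c I := by
    simp only [act, map_sum, cst]
    refine Finset.sum_congr rfl fun k _ => Finset.sum_congr rfl fun j _ => ?_
    rw [lam_cst]
    rfl
  rw [← h1, hX m c hc]
  simp

theorem lie_ext_iff {A : Fam ℚ N} {X : Matrix (Fin N) (Fin N) K} :
    X ∈ lie (ext K A) ↔ ∀ m, ∀ c ∈ A m, act X (cst K c) = 0 := by
  constructor
  · intro h m c hc
    exact h m _ (Submodule.subset_span ⟨c, hc, rfl⟩)
  · intro h m c hc
    refine Submodule.span_induction (p := fun c _ => act X c = 0) ?_ ?_ ?_ ?_ hc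
    · rintro _ ⟨a, ha, rfl⟩
      exact h m a ha
    · exact act_zero_right X
    · intro a b _ _ ha hb
      rw [act_add_right, ha, hb, add_zero]
    · intro r a _ ha
      rw [act_smul_right, ha, smul_zero]

theorem cst_rat {κ : Type*} (c : (κ → Fin N) → ℚ) : cst ℚ c = c := by
  funext J
  simp [cst]

theorem cast_mem_lie {A : Fam ℚ N} {X : Matrix (Fin N) (Fin N) ℚ} (hX : X ∈ lie A) :
    X.map (fun q : ℚ => (q : K)) ∈ lie (ext K A) := by
  rw [lie_ext_iff]
  intro m c hc
  rw [act_cst, hX m c hc, cst_zero]

theorem eq_zero_of_lams {y : K} (h : ∀ lam : K →ₗ[ℚ] ℚ, lam y = 0) : y = 0 := by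
  rw [← Module.forall_dual_apply_eq_zero_iff ℚ y]
  exact h

end

end Pool.Agent.Helper883_Four
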