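import Mathlib
import Pool.Agent.Helper883_Four.Forms

/-!
# The trace form on the Lie algebra of the Hodge group
-/

set_option linter.unusedSectionVars false

namespace Pool.Agent.Helper883_Four

open Matrix ComplexOrder Pool.Agent.W437.HC

noncomputable section

variable {N : ℕ} (W : PolHS N)

/-- The decomposition. -/
@[reducible] def PolHS.dcp : DirectSum.Decomposition W.H := W.dec.chooseDecomposition

/-- The projection to a summand. -/
def PolHS.pl (a : ℤ) : (Fin N → ℂ) →ₗ[ℂ] (Fin N → ℂ) :=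
  letI := W.dcp
  (W.H a).subtype ∘ₗ (DirectSum.component ℂ ℤ (fun a => W.H a) a) ∘ₗ
    (DirectSum.decomposeLinearEquiv W.H).toLinearMap

theorem PolHS.pl_mem (a : ℤ) (x : Fin N → ℂ) : W.pl a x ∈ W.H a := by
  unfold PolHS.pl
  exact Submodule.coe_mem _

theorem PolHS.pl_same {a : ℤ} {x : Fin N → ℂ} (hx : x ∈ W.H a) : W.pl a x = x := by
  let _ := W.dcp
  exact DirectSum.decompose_of_mem_same W.H hx

theorem PolHS.pl_ne {a b : ℤ} {x : Fin N → ℂ} (hx : x ∈ W.H a) (hab : a ≠ b) :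
    W.pl b x = 0 := by
  let _ := W.dcp
  exact DirectSum.decompose_of_mem_ne W.H hx hab

/-- A homogeneous basis. -/
theorem PolHS.exists_basis : ∃ (b : Module.Basis (Fin N) ℂ (Fin N → ℂ)) (α : Fin N → ℤ),
    ∀ i, b i ∈ W.H (α i) := by
  classical
  let b₀ := W.dec.collectedBasis (fun a => Module.Basis.ofVectorSpace ℂ (W.H a))
  have : Fintype (Σ a, Module.Basis.ofVectorSpaceIndex ℂ (W.H a)) :=
    FiniteDimensional.fintypeBasisIndex b₀
  have hc : Fintype.card (Σ a, Module.Basis.ofVectorSpaceIndex ℂ (W.H a)) = N := by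
    have h1 := Module.finrank_eq_card_basis b₀
    rw [Module.finrank_fin_fun] at h1
    exact h1.symm
  let e : (Σ a, Module.Basis.ofVectorSpaceIndex ℂ (W.H a)) ≃ Fin N := Fintype.equivFinOfCardEq hc
  refine ⟨b₀.reindex e, fun i => (e.symm i).1, fun i => ?_⟩
  rw [Module.Basis.reindex_apply]
  exact W.dec.collectedBasis_mem _ _

/-- The chosen homogeneous basis. -/
def PolHS.bas : Module.Basis (Fin N) ℂ (Fin N → ℂ) := W.exists_basis.choose

/-- The degrees of the homogeneous basis. -/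
def PolHS.deg : Fin N → ℤ := W.exists_basis.choose_spec.choose

theorem PolHS.bas_mem (i : Fin N) : W.bas i ∈ W.H (W.deg i) :=
  W.exists_basis.choose_spec.choose_spec i

/-- The operator which is `f a` on `H a`. -/
def PolHS.op (f : ℤ → ℂ) : Matrix (Fin N) (Fin N) ℂ :=
  LinearMap.toMatrix' (W.bas.constr ℂ (fun i => f (W.deg i) • W.bas i))

theorem PolHS.op_bas (f : ℤ → ℂ) (i : Fin N) : W.op f *ᵥ W.bas i = f (W.deg i) • W.bas i := by
  unfold PolHS.op
  rw [LinearMap.toMatrix'_mulVec, Module.Basis.constr_basis]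

theorem PolHS.op_vec (f : ℤ → ℂ) {a : ℤ} {x : Fin N → ℂ} (hx : x ∈ W.H a) :
    W.op f *ᵥ x = f a • x := by
  have h1 : x = ∑ i, W.bas.repr x i • W.pl a (W.bas i) := by
    conv_lhs => rw [← W.pl_same hx, ← W.bas.sum_repr x]
    simp only [map_sum, map_smul]
  rw [h1, mulVec_sum, Finset.smul_sum]
  refine Finset.sum_congr rfl fun i _ => ?_
  rw [mulVec_smul, smul_comm (f a)]
  congr 1
  by_cases h : W.deg i = a
  · subst h
    rw [W.pl_same (W.bas_mem i), W.op_bas]
  · rw [W.pl_ne (W.bas_mem i) h, mulVec_zero, smul_zero]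

/-- Two matrices which agree on all the summands are equal. -/
theorem PolHS.ext_mat {M M' : Matrix (Fin N) (Fin N) ℂ}
    (h : ∀ a, ∀ x ∈ W.H a, M *ᵥ x = M' *ᵥ x) : M = M' := by
  apply toLin'.injective
  refine W.bas.ext fun i => ?_
  rw [toLin'_apply, toLin'_apply]
  exact h _ _ (W.bas_mem i)

/-- Two matrices which define the same form on all the summands are equal. -/
theorem PolHS.ext_bil {M M' : Matrix (Fin N) (Fin N) ℂ}
    (h : ∀ a b, ∀ x ∈ W.H a, ∀ y ∈ W.H b, x ⬝ᵥ (M *ᵥ y) = x ⬝ᵥ (M' *ᵥ y)) : M = M' := by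
  refine W.ext_mat fun b y hy => ?_
  have h1 : ∀ z : Fin N → ℂ, z ⬝ᵥ (M *ᵥ y) = z ⬝ᵥ (M' *ᵥ y) := by
    intro z
    rw [← W.bas.sum_repr z, sum_dotProduct, sum_dotProduct]
    refine Finset.sum_congr rfl fun i _ => ?_
    rw [smul_dotProduct, smul_dotProduct, h _ _ _ (W.bas_mem i) y hy]
  funext i
  have h2 := h1 (Pi.single i 1)
  simpa using h2

theorem PolHS.op_mul (f g : ℤ → ℂ) : W.op f * W.op g = W.op (fun a => f a * g a) := by
  refine W.ext_mat fun a x hx => ?_
  rw [← mulVec_mulVec, W.op_vec g hx, mulVec_smul, W.op_vec f hx, W.op_vec _ hx, smul_smul,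
    mul_comm]

theorem PolHS.op_one : W.op (fun _ => 1) = 1 := by
  refine W.ext_mat fun a x hx => ?_
  rw [W.op_vec _ hx, one_smul, one_mulVec]

/-- The complex conjugate vector. -/
def cj (x : Fin N → ℂ) : Fin N → ℂ := fun i => starRingEnd ℂ (x i)

omit W in
theorem cj_cj (x : Fin N → ℂ) : cj (cj x) = x := by
  funext i
  simp [cj]

omit W in
theorem cj_smul (a : ℂ) (x : Fin N → ℂ) : cj (a • x) = starRingEnd ℂ a • cj x := by
  funext i
  simp [cj]

omit W in
theorem cj_mulVec (M : Matrix (Fin N) (Fin N) ℂ) (x : Fin N → ℂ) :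
    cj (M *ᵥ x) = M.map (starRingEnd ℂ) *ᵥ cj x := by
  funext i
  simp [cj, mulVec, dotProduct]

theorem PolHS.op_conj (f : ℤ → ℂ) :
    (W.op f).map (starRingEnd ℂ) = W.op (fun a => starRingEnd ℂ (f (-a))) := by
  refine W.ext_mat fun a x hx => ?_
  have h1 : (W.op f).map (starRingEnd ℂ) *ᵥ x = cj (W.op f *ᵥ cj x) := by
    rw [cj_mulVec, cj_cj]
  have h2 : cj x ∈ W.H (-a) := W.conj a x hx
  rw [h1, W.op_vec f h2, cj_smul, cj_cj, W.op_vec _ hx]

/-- The polarization with complex coefficients. -/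
abbrev PolHS.QC : Matrix (Fin N) (Fin N) ℂ := polar ℂ W.Q

theorem PolHS.QC_eq (x y : Fin N → ℂ) :
    x ⬝ᵥ (W.QC *ᵥ y) = ∑ i, ∑ j, x i * (W.Q i j : ℂ) * y j := by
  simp only [dotProduct, mulVec, polar, Matrix.map_apply, Finset.mul_sum]
  refine Finset.sum_congr rfl fun i _ => Finset.sum_congr rfl fun j _ => ?_
  ring

theorem PolHS.QC_orth {a b : ℤ} (hab : a + b ≠ 0) {x y : Fin N → ℂ} (hx : x ∈ W.H a)
    (hy : y ∈ W.H b) : x ⬝ᵥ (W.QC *ᵥ y) = 0 := by
  rw [W.QC_eq]
  exact W.orth a b hab x hx y hy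

theorem PolHS.op_adj (f : ℤ → ℂ) : (W.op f)ᵀ * W.QC = W.QC * W.op (fun a => f (-a)) := by
  refine W.ext_bil fun a b x hx y hy => ?_
  have h1 : x ⬝ᵥ (((W.op f)ᵀ * W.QC) *ᵥ y) = (W.op f *ᵥ x) ⬝ᵥ (W.QC *ᵥ y) := by
    rw [← mulVec_mulVec, dotProduct_mulVec, vecMul_transpose]
  rw [h1, W.op_vec f hx, ← mulVec_mulVec, W.op_vec _ hy, mulVec_smul, smul_dotProduct,
    dotProduct_smul]
  by_cases hab : a + b = 0
  · have h2 : -b = a := by omega
    rw [h2]
  · rw [W.QC_orth hab hx hy, smul_zero, smul_zero]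

/-- The Weil operator. -/
def PolHS.C : Matrix (Fin N) (Fin N) ℂ := W.op (fun a => Complex.I ^ a)

/-- The inverse of the Weil operator. -/
def PolHS.C' : Matrix (Fin N) (Fin N) ℂ := W.op (fun a => Complex.I ^ (-a))

theorem PolHS.C_mul : W.C * W.C' = 1 := by
  unfold PolHS.C PolHS.C'
  rw [W.op_mul, ← W.op_one]
  congr 1
  funext a
  rw [← zpow_add₀ Complex.I_ne_zero, add_neg_cancel, zpow_zero]

theorem PolHS.C_mul' : W.C' * W.C = 1 := mul_eq_one_comm.1 W.C_mul

theorem PolHS.C_conj : W.C.map (starRingEnd ℂ) = W.C := by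
  unfold PolHS.C
  rw [W.op_conj]
  congr 1
  funext a
  rw [map_zpow₀, Complex.conj_I, ← Complex.inv_I, _root_.inv_zpow, _root_.zpow_neg, inv_inv]

/-- The real matrix of the hermitian form. -/
def PolHS.G : Matrix (Fin N) (Fin N) ℂ := W.QCᵀ * W.C

theorem PolHS.G_conj : W.G.map (starRingEnd ℂ) = W.G := by
  unfold PolHS.G
  rw [Matrix.map_mul, W.C_conj]
  congr 1
  ext i j
  simp [polar]

theorem PolHS.G_form (x : Fin N → ℂ) :
    star x ⬝ᵥ (W.G *ᵥ x) = (W.C *ᵥ x) ⬝ᵥ (W.QC *ᵥ cj x) := by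
  unfold PolHS.G
  rw [← mulVec_mulVec, dotProduct_mulVec, vecMul_transpose, dotProduct_comm]
  rfl

/-- The sum of the components. -/
theorem PolHS.pl_sum (x : Fin N → ℂ) : ∑ a ∈ Finset.univ.image W.deg, W.pl a x = x := by
  classical
  have h1 : ∑ a ∈ Finset.univ.image W.deg, W.pl a = LinearMap.id := by
    refine W.bas.ext fun i => ?_
    rw [LinearMap.sum_apply, Finset.sum_eq_single (W.deg i)]
    · exact W.pl_same (W.bas_mem i)
    · intro b _ hb
      exact W.pl_ne (W.bas_mem i) (Ne.symm hb)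
    · intro h
      exact absurd (Finset.mem_image_of_mem _ (Finset.mem_univ i)) h
  have h2 := LinearMap.congr_fun h1 x
  rw [LinearMap.sum_apply] at h2
  exact h2

theorem PolHS.G_pos {x : Fin N → ℂ} (hx : x ≠ 0) : 0 < star x ⬝ᵥ (W.G *ᵥ x) := by
  classical
  set S := Finset.univ.image W.deg with hS
  have h1 : star x ⬝ᵥ (W.G *ᵥ x) = ∑ a ∈ S, Complex.I ^ a *
      (W.pl a x ⬝ᵥ (W.QC *ᵥ cj (W.pl a x))) := by
    rw [W.G_form]
    have h2 : W.C *ᵥ x = ∑ a ∈ S, Complex.I ^ a • W.pl a x := by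
      conv_lhs => rw [← W.pl_sum x]
      rw [mulVec_sum]
      refine Finset.sum_congr rfl fun a _ => ?_
      exact W.op_vec _ (W.pl_mem a x)
    have h3 : cj x = ∑ a ∈ S, cj (W.pl a x) := by
      conv_lhs => rw [← W.pl_sum x]
      funext i
      simp [cj, Finset.sum_apply, map_sum, hS]
    rw [h2, sum_dotProduct]
    refine Finset.sum_congr rfl fun a ha => ?_
    rw [smul_dotProduct, smul_eq_mul, h3, mulVec_sum, dotProduct_sum, Finset.sum_eq_single a]
    · intro b _ hb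
      refine W.QC_orth ?_ (W.pl_mem a x) (W.conj b _ (W.pl_mem b x))
      intro h
      apply hb
      omega
    · intro h
      exact absurd ha h
  rw [h1]
  have h2 : ∀ a, W.pl a x ≠ 0 →
      0 < Complex.I ^ a * (W.pl a x ⬝ᵥ (W.QC *ᵥ cj (W.pl a x))) := by
    intro a ha
    rw [W.QC_eq]
    exact W.pos a _ (W.pl_mem a x) ha
  have h4 : ∃ a ∈ S, W.pl a x ≠ 0 := by
    by_contra h
    push Not at h
    apply hx
    rw [← W.pl_sum x]
    exact Finset.sum_eq_zero h
  obtain ⟨a, ha, hax⟩ := h4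
  refine Finset.sum_pos' (fun b _ => ?_) ⟨a, ha, h2 a hax⟩
  by_cases hb : W.pl b x = 0
  · rw [hb, zero_dotProduct, mul_zero]
  · exact (h2 b hb).le

/-- The matrix is symmetric. -/
theorem PolHS.G_symm : W.Gᵀ = W.G := by
  have hreal : ∀ i j, starRingEnd ℂ (W.G i j) = W.G i j := by
    intro i j
    have h1 := congrFun (congrFun W.G_conj i) j
    exact h1
  have hd : ∀ x : Fin N → ℂ, starRingEnd ℂ (star x ⬝ᵥ (W.G *ᵥ x)) = star x ⬝ᵥ (W.G *ᵥ x) := by
    intro x
    by_cases hx : x = 0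
    · subst hx
      simp
    · have h1 := W.G_pos hx
      exact Complex.conj_eq_iff_im.2 (Complex.pos_iff.1 h1).2.symm
  ext i j
  rw [transpose_apply]
  have h1 := hd (Pi.single i 1 + Complex.I • Pi.single j 1)
  have h2 : star (Pi.single i 1 + Complex.I • Pi.single j 1 : Fin N → ℂ) =
      Pi.single i 1 - Complex.I • Pi.single j 1 := by
    funext k
    by_cases hi : k = i <;> by_cases hj : k = j <;>
      simp [Pi.single_apply, hi, hj, sub_eq_add_neg] <;> split_ifs <;> simp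
  have h3 : ∀ a b : Fin N, (Pi.single a 1 : Fin N → ℂ) ⬝ᵥ (W.G *ᵥ Pi.single b 1) = W.G a b := by
    intro a b
    simp
  have h4 : star (Pi.single i 1 + Complex.I • Pi.single j 1 : Fin N → ℂ) ⬝ᵥ
      (W.G *ᵥ (Pi.single i 1 + Complex.I • Pi.single j 1)) =
      W.G i i + W.G j j + Complex.I * (W.G i j - W.G j i) := by
    rw [h2, mulVec_add, mulVec_smul, sub_dotProduct, dotProduct_add, dotProduct_add,
      smul_dotProduct, smul_dotProduct, dotProduct_smul, dotProduct_smul, h3, h3, h3, h3]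
    simp only [smul_eq_mul]
    have h5 : Complex.I * (Complex.I * W.G j j) = -W.G j j := by
      rw [← mul_assoc, Complex.I_mul_I, neg_one_mul]
    rw [h5]
    ring
  rw [h4] at h1
  simp only [map_add, map_mul, map_sub, hreal, Complex.conj_I] at h1
  have h5 : Complex.I * (W.G i j - W.G j i) = 0 := by linear_combination -(1 / 2 : ℂ) * h1
  have h6 := (mul_eq_zero.1 h5).resolve_left Complex.I_ne_zero
  exact (sub_eq_zero.1 h6).symm

theorem PolHS.G_posDef : W.G.PosDef := by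
  refine PosDef.of_dotProduct_mulVec_pos ?_ fun x hx => W.G_pos hx
  have h1 : W.Gᴴ = (W.G.map (starRingEnd ℂ))ᵀ := rfl
  rw [Matrix.IsHermitian, h1, W.G_conj, W.G_symm]

/-- The polarization is nondegenerate. -/
theorem PolHS.QC_unit : IsUnit W.QC := by
  have h1 : IsUnit W.G := W.G_posDef.isUnit
  have h2 : W.G * W.C' = W.QCᵀ := by
    unfold PolHS.G
    rw [mul_assoc, W.C_mul, mul_one]
  have h3 : IsUnit W.QCᵀ := by
    rw [← h2]
    exact h1.mul (IsUnit.of_mul_eq_one _ W.C_mul')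
  exact (Matrix.isUnit_transpose _).1 h3

omit W in
theorem polar_det {K : Type} [Field K] [CharZero K] (Q : Matrix (Fin N) (Fin N) ℚ) :
    (polar K Q).det = ((Q.det : ℚ) : K) := ((RingHom.map_det (Rat.castHom K) Q).symm)

theorem PolHS.Q_det : W.Q.det ≠ 0 := by
  have h1 := W.QC_unit
  rw [Matrix.isUnit_iff_isUnit_det, isUnit_iff_ne_zero, PolHS.QC, polar_det] at h1
  intro h
  apply h1
  rw [h, Rat.cast_zero]

theorem PolHS.polar_unit (K : Type) [Field K] [CharZero K] : IsUnit (polar K W.Q) := by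
  rw [Matrix.isUnit_iff_isUnit_det, isUnit_iff_ne_zero, polar_det]
  exact_mod_cast W.Q_det

open scoped MatrixOrder in
omit W in
theorem exists_sqrt {H : Matrix (Fin N) (Fin N) ℂ} (hH : H.PosDef) :
    ∃ y : Matrix (Fin N) (Fin N) ℂ, IsUnit y ∧ H = star y * y :=
  CStarAlgebra.isStrictlyPositive_iff_eq_star_mul_self.mp hH.isStrictlyPositive

omit W in
/-- A matrix which is orthogonal to its adjoint is zero. -/
theorem zero_of_adj {G X Y : Matrix (Fin N) (Fin N) ℂ} (hG : G.PosDef) (hY : G * Y = Xᴴ * G)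
    (h0 : trace (X * Y) = 0) : X = 0 := by
  obtain ⟨y, ⟨u, rfl⟩, hy⟩ := exists_sqrt hG
  obtain ⟨yi, hyi⟩ : ∃ yi, yi = ((u⁻¹ : (Matrix (Fin N) (Fin N) ℂ)ˣ) : Matrix (Fin N) (Fin N) ℂ) :=
    ⟨_, rfl⟩
  obtain ⟨y, hyy⟩ : ∃ y, y = (u : Matrix (Fin N) (Fin N) ℂ) := ⟨_, rfl⟩
  rw [← hyy] at hy
  have hy1 : yi * y = 1 := by rw [hyi, hyy, Units.inv_mul]
  have hy2 : y * yi = 1 := by rw [hyi, hyy, Units.mul_inv]
  have hy3 : yiᴴ * yᴴ = 1 := by rw [← conjTranspose_mul, hy2, conjTranspose_one]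
  have h2 : Y = yi * yiᴴ * Xᴴ * yᴴ * y := by
    have h3 : yi * yiᴴ * (G * Y) = Y := by
      rw [hy, star_eq_conjTranspose]
      have h4 : yi * yiᴴ * (yᴴ * y * Y) = yi * (yiᴴ * yᴴ) * y * Y := by noncomm_ring
      rw [h4, hy3, mul_one, hy1, one_mul]
    rw [← h3, hY, hy, star_eq_conjTranspose]
    noncomm_ring
  have h3 : trace ((y * X * yi) * (y * X * yi)ᴴ) = 0 := by
    rw [conjTranspose_mul, conjTranspose_mul]
    have h4 : y * X * yi * (yiᴴ * (Xᴴ * yᴴ)) = y * (X * yi * yiᴴ * Xᴴ * yᴴ) := by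
      noncomm_ring
    rw [h4, trace_mul_comm]
    have h5 : X * yi * yiᴴ * Xᴴ * yᴴ * y = X * (yi * yiᴴ * Xᴴ * yᴴ * y) := by noncomm_ring
    rw [h5, ← h2, h0]
  rw [trace_mul_conjTranspose_self_eq_zero_iff] at h3
  have h7 : yi * (y * X * yi) * y = X := by
    have : yi * (y * X * yi) * y = (yi * y) * X * (yi * y) := by noncomm_ring
    rw [this, hy1, one_mul, mul_one]
  rw [← h7, h3, mul_zero, zero_mul]

omit W in
theorem prod_I_zpow {ι : Type*} (s : Finset ι) (d : ι → ℤ) :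
    ∏ i ∈ s, Complex.I ^ d i = Complex.I ^ ∑ i ∈ s, d i := by
  classical
  induction s using Finset.induction_on with
  | empty => simp
  | insert a s ha ih =>
    rw [Finset.prod_insert ha, Finset.sum_insert ha, ih, zpow_add₀ Complex.I_ne_zero]

/-- The Weil operator fixes the Hodge classes. -/
theorem PolHS.C_fix {m : ℕ} {c : (Fin (2 * m) → Fin N) → ℚ} (hc : c ∈ hodge W m)
    (x : Fin (2 * m) → Fin N → ℂ) :
    evalF (cst ℂ c) (fun k => W.C *ᵥ x k) = evalF (cst ℂ c) x := by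
  have h1 : (evalM (cst ℂ c)).compLinearMap (fun _ => toLin' W.C) = evalM (cst ℂ c) := by
    refine Module.Basis.ext_multilinear (fun _ => W.bas) fun v => ?_
    rw [MultilinearMap.compLinearMap_apply, evalM_apply, evalM_apply]
    have h2 : (fun i => toLin' W.C (W.bas (v i))) =
        fun i => (Complex.I ^ W.deg (v i)) • W.bas (v i) := by
      funext i
      rw [toLin'_apply]
      exact W.op_bas _ _
    rw [h2]
    have h3 := (evalM (cst ℂ c)).map_smul_univ (fun i => Complex.I ^ W.deg (v i))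
      (fun i => W.bas (v i))
    rw [evalM_apply, evalM_apply, smul_eq_mul] at h3
    rw [h3]
    by_cases hd : ∑ i, W.deg (v i) = 0
    · have h4 : ∏ i, Complex.I ^ W.deg (v i) = 1 := by
        rw [prod_I_zpow, hd, zpow_zero]
      rw [h4, one_mul]
    · have h4 := hc (fun i => W.deg (v i)) (fun i => W.bas (v i)) (fun i => W.bas_mem _) hd
      rw [h4, mul_zero]
  have h2 := congrArg (fun F : MultilinearMap ℂ (fun _ : Fin (2 * m) => Fin N → ℂ) ℂ => F x) h1
  exact h2

theorem PolHS.QC_skew {K : Type} [Field K] [CharZero K] {X : Matrix (Fin N) (Fin N) ℚ}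
    (hX : Xᵀ * polar ℚ W.Q + polar ℚ W.Q * X = 0) :
    (X.map (fun q : ℚ => (q : K)))ᵀ * polar K W.Q + polar K W.Q * X.map (fun q : ℚ => (q : K)) =
      0 := by
  have h1 : ∀ M M' : Matrix (Fin N) (Fin N) ℚ,
      (M * M').map (fun q : ℚ => (q : K)) = M.map (fun q : ℚ => (q : K)) *
        M'.map (fun q : ℚ => (q : K)) := fun M M' => Matrix.map_mul (f := Rat.castHom K)
  have h2 := congrArg (fun M : Matrix (Fin N) (Fin N) ℚ => M.map (fun q : ℚ => (q : K))) hX
  have h3 : ((Xᵀ * polar ℚ W.Q + polar ℚ W.Q * X).map (fun q : ℚ => (q : K))) =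
      (Xᵀ * polar ℚ W.Q).map (fun q : ℚ => (q : K)) +
        (polar ℚ W.Q * X).map (fun q : ℚ => (q : K)) := by
    ext i j
    simp
  have h4 : (polar ℚ W.Q).map (fun q : ℚ => (q : K)) = polar K W.Q := by
    ext i j
    simp [polar]
  simp only [h3, h1, h4] at h2
  rw [transpose_map] at h2
  rw [h2]
  ext i j
  simp

/-- The polarization is a Hodge class. -/
theorem PolHS.polar_mem : cls2 (polar ℚ W.Q) ∈ hodge W 1 := by
  intro a x hx ha
  have h1 : cst ℂ (cls2 (polar ℚ W.Q)) = cls2 W.QC := by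
    funext I
    simp [cst, cls2, polar]
  rw [h1, evalF_cls]
  refine W.QC_orth ?_ (hx 0) (hx 1)
  have h2 : ∑ k : Fin (2 * 1), a k = a 0 + a 1 := Fin.sum_univ_two a
  rwa [h2] at ha

/-- The trace form is nondegenerate on the Lie algebra of the Hodge group. -/
theorem PolHS.nondeg {X : Matrix (Fin N) (Fin N) ℚ} (hX : X ∈ lie (hodge W))
    (h0 : ∀ Y ∈ lie (hodge W), trace (X * Y) = 0) : X = 0 := by
  set Xc : Matrix (Fin N) (Fin N) ℂ := X.map (fun q : ℚ => (q : ℂ)) with hXc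
  set Y : Matrix (Fin N) (Fin N) ℂ := W.C' * Xc * W.C with hY
  have hsk : Xcᵀ * W.QC + W.QC * Xc = 0 := W.QC_skew (lie_skew W.polar_mem hX)
  -- `Y` kills the Hodge classes
  have hYk : ∀ m, ∀ c ∈ hodge W m, act Y (cst ℂ c) = 0 := by
    intro m c hc
    refine kills_conj W.C_mul' ?_
    have h1 : pull W.C' (cst ℂ c) = cst ℂ c := by
      refine eq_of_evalF fun x => ?_
      rw [evalF_pull, ← W.C_fix hc]
      congr 1
      funext k
      rw [mulVec_mulVec, W.C_mul, one_mulVec]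
    rw [h1, hXc, act_cst, hX m c hc, cst_zero]
  -- the trace
  have htr : trace (Xc * Y) = 0 := by
    refine eq_zero_of_lams fun lam => ?_
    have h1 : lam (trace (Xc * Y)) = trace (X * Y.map lam) := by
      simp only [trace, diag_apply, mul_apply, map_sum, hXc, Matrix.map_apply]
      refine Finset.sum_congr rfl fun i _ => Finset.sum_congr rfl fun j _ => ?_
      rw [mul_comm, lam_cst, mul_comm]
    rw [h1]
    exact h0 _ (lie_lam hYk lam)
  have hadj : W.G * (-Y) = Xcᴴ * W.G := by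
    have hXH : Xcᴴ = Xcᵀ := by
      ext i j
      simp [hXc]
    have h1 : Xcᵀ * W.QCᵀ = -(W.QCᵀ * Xc) := by
      have h2 : (W.QC * Xc)ᵀ = -(Xcᵀ * W.QC)ᵀ := by
        rw [← transpose_neg]
        congr 1
        exact (neg_eq_of_add_eq_zero_right hsk).symm
      rw [transpose_mul, transpose_mul, transpose_transpose] at h2
      exact h2
    rw [hXH]
    unfold PolHS.G
    rw [← mul_assoc, h1, hY]
    have h3 : W.QCᵀ * W.C * -(W.C' * Xc * W.C) = -(W.QCᵀ * (W.C * W.C') * Xc * W.C) := by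
      noncomm_ring
    rw [h3, W.C_mul, mul_one, neg_mul]
  have h1 : Xc = 0 := by
    refine zero_of_adj W.G_posDef hadj ?_
    rw [mul_neg, trace_neg, htr, neg_zero]
  ext i j
  have h2 := congrFun (congrFun h1 i) j
  simpa [hXc] using h2

end

end Pool.Agent.Helper883_Four
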