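import Mathlib
import Pool.Agent.Helper883_Four.Hodge

/-!
# The Hodge side
-/

set_option linter.unusedSectionVars false

namespace Pool.Agent.Helper883_Four

open Matrix ComplexOrder Pool.Agent.W437.HC

noncomputable section

variable {N : ℕ} (W : PolHS N)

/-- The operator `p - q`. -/
def PolHS.Th : Matrix (Fin N) (Fin N) ℂ := W.op (fun a => (a : ℂ))

theorem PolHS.Th_vec {m : ℕ} (c : (Fin (2 * m) → Fin N) → ℂ) (a : Fin (2 * m) → ℤ)
    (x : Fin (2 * m) → Fin N → ℂ) (hx : ∀ k, x k ∈ W.H (a k)) :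
    evalF (act W.Th c) x = ((∑ k, a k : ℤ) : ℂ) * evalF c x := by
  rw [evalF_act]
  have h1 : ∀ k, evalF c (Function.update x k (W.Th *ᵥ x k)) = (a k : ℂ) * evalF c x := by
    intro k
    unfold PolHS.Th
    rw [W.op_vec _ (hx k), evalF_update_smul, Function.update_eq_self]
  rw [Finset.sum_congr rfl (fun k _ => h1 k), ← Finset.sum_mul]
  push_cast
  rfl

theorem PolHS.Th_kills {m : ℕ} {c : (Fin (2 * m) → Fin N) → ℚ} (hc : c ∈ hodge W m) :
    act W.Th (cst ℂ c) = 0 := by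
  have h1 : evalM (act W.Th (cst ℂ c)) = 0 := by
    refine Module.Basis.ext_multilinear (fun _ => W.bas) fun v => ?_
    rw [evalM_apply, W.Th_vec _ (fun i => W.deg (v i)) _ (fun i => W.bas_mem _),
      MultilinearMap.zero_apply]
    by_cases hd : ∑ i, W.deg (v i) = 0
    · rw [hd, Int.cast_zero, zero_mul]
    · rw [hc _ _ (fun i => W.bas_mem _) hd, mul_zero]
  apply eq_zero_of_evalF
  intro x
  rw [← evalM_apply, h1, MultilinearMap.zero_apply]

theorem PolHS.hodge_of_Th {m : ℕ} {c : (Fin (2 * m) → Fin N) → ℚ}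
    (hc : act W.Th (cst ℂ c) = 0) : c ∈ hodge W m := by
  intro a x hx ha
  have h1 := W.Th_vec (cst ℂ c) a x hx
  rw [hc, evalF_zero] at h1
  have h2 : ((∑ k, a k : ℤ) : ℂ) ≠ 0 := by exact_mod_cast ha
  exact (mul_eq_zero.1 h1.symm).resolve_left h2

theorem PolHS.Th_lam (lam : ℂ →ₗ[ℚ] ℚ) : W.Th.map lam ∈ lie (hodge W) :=
  lie_lam (fun _ _ hc => W.Th_kills hc) lam

/-- A rational form killed by the Lie algebra of the Hodge group is a Hodge class. -/
theorem PolHS.mem_hodge {m : ℕ} {c : (Fin (2 * m) → Fin N) → ℚ}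
    (hc : ∀ X ∈ lie (hodge W), act X c = 0) : c ∈ hodge W m := by
  refine W.hodge_of_Th ?_
  funext I
  refine eq_zero_of_lams fun lam => ?_
  have h1 : lam (act W.Th (cst ℂ c) I) = act (W.Th.map lam) c I := by
    simp only [act, map_sum, cst]
    refine Finset.sum_congr rfl fun k _ => Finset.sum_congr rfl fun j _ => ?_
    rw [lam_cst]
    rfl
  rw [h1, hc _ (W.Th_lam lam)]
  rfl

theorem PolHS.Th_skew : W.Thᵀ * W.QC + W.QC * W.Th = 0 := by
  unfold PolHS.Th
  rw [W.op_adj, ← mul_add]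
  have h1 : W.op (fun a => ((-a : ℤ) : ℂ)) + W.op (fun a => (a : ℂ)) = 0 := by
    refine W.ext_mat fun a x hx => ?_
    rw [add_mulVec, W.op_vec _ hx, W.op_vec _ hx, zero_mulVec, ← add_smul]
    push_cast
    rw [neg_add_cancel, zero_smul]
  rw [h1, mul_zero]

/-- A rational matrix which commutes with the Lie algebra of the Hodge group is an endomorphism of
the Hodge structure. -/
theorem PolHS.endo_of_comm {Z : Matrix (Fin N) (Fin N) ℚ}
    (hZ : ∀ Y ∈ lie (hodge W), Z * Y = Y * Z) : IsEndo W.Q (hodge W) Z := by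
  refine W.hodge_of_Th ?_
  set Zc : Matrix (Fin N) (Fin N) ℂ := Z.map (fun q : ℚ => (q : ℂ)) with hZc
  have hcomm : Zc * W.Th = W.Th * Zc := by
    ext i j
    rw [← sub_eq_zero]
    refine eq_zero_of_lams fun lam => ?_
    have h1 := congrFun (congrFun (hZ _ (W.Th_lam lam)) i) j
    rw [map_sub, sub_eq_zero]
    have h2 : lam ((Zc * W.Th) i j) = (Z * W.Th.map lam) i j := by
      simp only [mul_apply, map_sum, hZc, Matrix.map_apply]
      refine Finset.sum_congr rfl fun k _ => ?_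
      rw [mul_comm, lam_cst, mul_comm]
    have h3 : lam ((W.Th * Zc) i j) = (W.Th.map lam * Z) i j := by
      simp only [mul_apply, map_sum, hZc, Matrix.map_apply]
      refine Finset.sum_congr rfl fun k _ => ?_
      rw [lam_cst]
    rw [h2, h3, h1]
  have h1 : cst ℂ (cls2 (Zᵀ * polar ℚ W.Q)) = cls2 (Zcᵀ * W.QC) := by
    funext I
    simp [cst, cls2, mul_apply, polar, hZc]
  rw [h1, act_cls_iff]
  have h2 : W.QC * W.Th = -(W.Thᵀ * W.QC) := (neg_eq_of_add_eq_zero_right W.Th_skew).symm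
  rw [mul_assoc Zcᵀ, h2, mul_neg, ← mul_assoc, ← mul_assoc, ← transpose_mul, ← transpose_mul,
    hcomm, add_neg_cancel]

/-- **The Hodge side.** One Hodge class in `M ^ {⊗ 4}` decides. -/
theorem PolHS.hodge_side : ∃ h ∈ hodge W 2, ∀ A : Fam ℚ N, (∀ m, A m ≤ hodge W m) →
    cls2 (polar ℚ W.Q) ∈ A 1 → hodge W 1 ≤ A 1 → h ∈ A 2 →
    lie A ≤ lie (hodge W) ⊔ centre W.Q (hodge W) := by
  obtain ⟨p, hp1, hp2, hp3, _⟩ := exists_proj (lie (hodge W)) (fun X hX h => W.nondeg hX h)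
  have hu : IsUnit (polar ℚ W.Q) := W.polar_unit ℚ
  have hcomm : ∀ Y ∈ lie (hodge W), ∀ A, p (Y * A - A * Y) = Y * p A - p A * Y := fun Y hY =>
    hp3 Y fun Y' hY' => lie_bracket hY hY'
  have hsk : ∀ Y ∈ lie (hodge W), Yᵀ * polar ℚ W.Q + polar ℚ W.Q * Y = 0 := fun Y hY =>
    lie_skew W.polar_mem hY
  refine ⟨(theta p (polar ℚ W.Q) : (Fin 4 → Fin N) → ℚ), ?_, ?_⟩
  · exact W.mem_hodge (m := 2) fun Y hY => act_theta_eq_zero (hsk Y hY) (hcomm Y hY)
  · intro A _ hAQ hA1 hA2 X hX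
    have hXs : Xᵀ * polar ℚ W.Q + polar ℚ W.Q * X = 0 := lie_skew hAQ hX
    have hXk : act X (theta p (polar ℚ W.Q)) = 0 := hX 2 _ hA2
    have hXc := comm_of_act hu hXs hXk
    have hZ := core hp2 hcomm hXc
    have hE := hp1 X
    have hdec : X = p X + (X - p X) := by abel
    rw [hdec]
    refine Submodule.add_mem_sup hE ⟨W.endo_of_comm hZ, fun P hP => ?_, ?_⟩
    · have h1 := lie_comm (F := A) hu hXs (hX 1 _ (hA1 hP))
      have h2 := lie_comm (F := hodge W) hu (hsk _ hE) (hE 1 _ hP)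
      rw [sub_mul, mul_sub, h1, h2]
    · have h1 := hsk _ hE
      rw [transpose_sub, sub_mul, mul_sub]
      have h2 : Xᵀ * polar ℚ W.Q - (p X)ᵀ * polar ℚ W.Q +
          (polar ℚ W.Q * X - polar ℚ W.Q * p X) =
          (Xᵀ * polar ℚ W.Q + polar ℚ W.Q * X) -
            ((p X)ᵀ * polar ℚ W.Q + polar ℚ W.Q * p X) := by abel
      rw [h2, hXs, h1, sub_zero]

end

end Pool.Agent.Helper883_Four
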