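import Mathlib

/-!
# The logarithm of an element near one of an ultrametric algebra over the `p`-adic numbers
-/

set_option linter.unusedSectionVars false

namespace Pool.Agent.Helper883_Four

open Filter Topology

noncomputable section

variable {p : ℕ} [hp : Fact p.Prime] {R : Type*} [NormedRing R] [NormedAlgebra ℚ_[p] R]

/-- The norm is ultrametric and the norm of one is at most one. -/
structure Ultra (R : Type*) [NormedRing R] : Prop where
  add : ∀ x y : R, ‖x + y‖ ≤ max ‖x‖ ‖y‖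
  one : ‖(1 : R)‖ ≤ 1

variable (hu : Ultra R)

include hu

theorem Ultra.sub (x y : R) : ‖x - y‖ ≤ max ‖x‖ ‖y‖ := by
  rw [sub_eq_add_neg, ← norm_neg y]
  exact hu.add x (-y)

theorem Ultra.nsmul (n : ℕ) (x : R) : ‖(n : R) * x‖ ≤ ‖x‖ := by
  induction n with
  | zero => simp
  | succ n ih =>
    rw [Nat.cast_succ, add_mul, one_mul]
    exact (hu.add _ _).trans (max_le ih le_rfl)

theorem Ultra.pow_le {x : R} (hx : ‖x‖ ≤ 1) (n : ℕ) : ‖(1 + x) ^ n‖ ≤ 1 := by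
  induction n with
  | zero => simpa using hu.one
  | succ n ih =>
    rw [pow_succ]
    refine (norm_mul_le _ _).trans ?_
    have h1 : ‖1 + x‖ ≤ 1 := (hu.add _ _).trans (max_le hu.one hx)
    calc ‖(1 + x) ^ n‖ * ‖1 + x‖ ≤ 1 * 1 :=
          mul_le_mul ih h1 (norm_nonneg _) zero_le_one
      _ = 1 := one_mul 1

theorem Ultra.pow_sub_one_le {x : R} (hx : ‖x‖ ≤ 1) (n : ℕ) : ‖(1 + x) ^ n - 1‖ ≤ ‖x‖ := by
  induction n with
  | zero => simp
  | succ n ih =>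
    have h1 : (1 + x) ^ (n + 1) - 1 = ((1 + x) ^ n - 1) + (1 + x) ^ n * x := by
      rw [pow_succ]
      noncomm_ring
    rw [h1]
    refine (hu.add _ _).trans (max_le ih ?_)
    refine (norm_mul_le _ _).trans ?_
    calc ‖(1 + x) ^ n‖ * ‖x‖ ≤ 1 * ‖x‖ :=
          mul_le_mul_of_nonneg_right (hu.pow_le hx n) (norm_nonneg _)
      _ = ‖x‖ := one_mul _

theorem Ultra.pow_bound {x : R} (hx : ‖x‖ ≤ 1) (n : ℕ) :
    ‖(1 + x) ^ n - 1 - (n : R) * x‖ ≤ ‖x‖ ^ 2 := by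
  induction n with
  | zero => simp
  | succ n ih =>
    have h1 : (1 + x) ^ (n + 1) - 1 - ((n + 1 : ℕ) : R) * x =
        ((1 + x) ^ n - 1 - (n : R) * x) + ((1 + x) ^ n - 1) * x := by
      rw [pow_succ, Nat.cast_succ]
      noncomm_ring
    rw [h1]
    refine (hu.add _ _).trans (max_le ih ?_)
    refine (norm_mul_le _ _).trans ?_
    rw [sq]
    exact mul_le_mul_of_nonneg_right (hu.pow_sub_one_le hx n) (norm_nonneg _)

/-- Commutators with powers. -/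
theorem Ultra.comm_bound {x : R} (hx : ‖x‖ ≤ 1) (z : R) (n : ℕ) :
    ‖((1 + x) ^ n * z - z * (1 + x) ^ n) - (n : R) * (x * z - z * x)‖ ≤
      ‖x‖ * ‖x * z - z * x‖ := by
  have h0 : ∀ y : R, ‖y‖ ≤ ‖x‖ → ‖y * (x * z - z * x)‖ ≤ ‖x‖ * ‖x * z - z * x‖ := fun y hy =>
    (norm_mul_le _ _).trans (mul_le_mul_of_nonneg_right hy (norm_nonneg _))
  induction n with
  | zero =>
    simp only [pow_zero, one_mul, mul_one, sub_self, Nat.cast_zero, zero_mul, norm_zero]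
    positivity
  | succ n ih =>
    have hc : ∀ y : R, (n : R) * y = y * (n : R) := fun y => Nat.cast_commute n y
    have h1 : ((1 + x) ^ (n + 1) * z - z * (1 + x) ^ (n + 1)) -
        ((n + 1 : ℕ) : R) * (x * z - z * x) =
        ((1 + x) ^ n - 1) * (x * z - z * x) +
        ((((1 + x) ^ n * z - z * (1 + x) ^ n) - (n : R) * (x * z - z * x)) * (1 + x) +
        ((n : R) * (x * z - z * x)) * x) := by
      rw [pow_succ, Nat.cast_succ]
      noncomm_ring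
    rw [h1]
    refine (hu.add _ _).trans (max_le (h0 _ (hu.pow_sub_one_le hx n)) ?_)
    refine (hu.add _ _).trans (max_le ?_ ?_)
    · refine (norm_mul_le _ _).trans ?_
      calc _ ≤ (‖x‖ * ‖x * z - z * x‖) * 1 :=
            mul_le_mul ih ((hu.add _ _).trans (max_le hu.one hx)) (norm_nonneg _) (by positivity)
        _ = _ := mul_one _
    · refine (norm_mul_le _ _).trans ?_
      rw [mul_comm]
      exact mul_le_mul_of_nonneg_left (hu.nsmul n _) (norm_nonneg _)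

omit hu in
variable (p) in
theorem norm_natp_mul (x : R) : ‖((p : ℕ) : R) * x‖ = (p : ℝ)⁻¹ * ‖x‖ := by
  have h1 : ((p : ℕ) : R) * x = ((p : ℕ) : ℚ_[p]) • x := by
    rw [Algebra.smul_def, map_natCast]
  rw [h1, norm_smul, Padic.norm_p]

omit hu [NormedAlgebra ℚ_[p] R] in
variable (p) in
/-- The difference of a power and one. -/
def xs (x : R) (j : ℕ) : R := (1 + x) ^ (p ^ j) - 1

omit hu [NormedAlgebra ℚ_[p] R] hp in
theorem one_add_xs (x : R) (j : ℕ) : 1 + xs p x j = (1 + x) ^ (p ^ j) := by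
  unfold xs
  abel

omit hu [NormedAlgebra ℚ_[p] R] hp in
theorem xs_succ (x : R) (j : ℕ) : xs p x (j + 1) = (1 + xs p x j) ^ p - 1 := by
  rw [one_add_xs, ← pow_mul, ← pow_succ]
  rfl

theorem Ultra.xs_norm {x : R} (hx : ‖x‖ ≤ (p : ℝ)⁻¹) (j : ℕ) :
    ‖xs p x j‖ ≤ ((p : ℝ)⁻¹) ^ j * ‖x‖ := by
  have hp1 : (1 : ℝ) < p := by exact_mod_cast hp.out.one_lt
  have hpi : (p : ℝ)⁻¹ ≤ 1 := inv_le_one_of_one_le₀ hp1.le
  have hpi0 : 0 ≤ (p : ℝ)⁻¹ := by positivity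
  induction j with
  | zero => simp [xs]
  | succ j ih =>
    have hj : ‖xs p x j‖ ≤ (p : ℝ)⁻¹ := by
      refine ih.trans ?_
      calc ((p : ℝ)⁻¹) ^ j * ‖x‖ ≤ 1 * (p : ℝ)⁻¹ :=
            mul_le_mul (pow_le_one₀ hpi0 hpi) hx (norm_nonneg _) zero_le_one
        _ = _ := one_mul _
    have h1 : xs p x (j + 1) = ((1 + xs p x j) ^ p - 1 - (p : R) * xs p x j) +
        (p : R) * xs p x j := by
      rw [xs_succ]
      abel
    rw [h1]
    refine (hu.add _ _).trans (max_le ?_ ?_)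
    · refine (hu.pow_bound (hj.trans hpi) p).trans ?_
      rw [sq, pow_succ', mul_assoc]
      exact mul_le_mul hj ih (norm_nonneg _) hpi0
    · rw [norm_natp_mul, pow_succ', mul_assoc]
      exact mul_le_mul_of_nonneg_left ih hpi0

theorem Ultra.xs_le {x : R} (hx : ‖x‖ ≤ (p : ℝ)⁻¹) (j : ℕ) : ‖xs p x j‖ ≤ 1 := by
  have hp1 : (1 : ℝ) < p := by exact_mod_cast hp.out.one_lt
  have hpi : (p : ℝ)⁻¹ ≤ 1 := inv_le_one_of_one_le₀ hp1.le
  have hpi0 : 0 ≤ (p : ℝ)⁻¹ := by positivity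
  refine (hu.xs_norm hx j).trans ?_
  calc ((p : ℝ)⁻¹) ^ j * ‖x‖ ≤ 1 * 1 :=
        mul_le_mul (pow_le_one₀ hpi0 hpi) (hx.trans hpi) (norm_nonneg _) zero_le_one
    _ = _ := one_mul _

omit hu in
variable (p) in
/-- The approximations of the logarithm. -/
def bs (x : R) (j : ℕ) : R := (((p : ℚ_[p]) ^ j)⁻¹) • xs p x j

omit hu in
theorem norm_ppow (j : ℕ) : ‖(((p : ℚ_[p]) ^ j)⁻¹)‖ = (p : ℝ) ^ j := by
  rw [norm_inv, norm_pow, Padic.norm_p, inv_pow, inv_inv]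

theorem Ultra.bs_diff {x : R} (hx : ‖x‖ ≤ (p : ℝ)⁻¹) (j : ℕ) :
    ‖bs p x (j + 1) - bs p x j‖ ≤ ((p : ℝ) * ‖x‖ ^ 2) * ((p : ℝ)⁻¹) ^ j := by
  have hp0 : (p : ℚ_[p]) ≠ 0 := by exact_mod_cast hp.out.ne_zero
  have hpr : (0 : ℝ) < p := by exact_mod_cast hp.out.pos
  have h1 : bs p x (j + 1) - bs p x j =
      (((p : ℚ_[p]) ^ (j + 1))⁻¹) • ((1 + xs p x j) ^ p - 1 - (p : R) * xs p x j) := by
    unfold bs
    rw [xs_succ, smul_sub _ ((1 + xs p x j) ^ p - 1)]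
    congr 1
    have h2 : (p : R) * xs p x j = ((p : ℕ) : ℚ_[p]) • xs p x j := by
      rw [Algebra.smul_def, map_natCast]
    rw [h2, smul_smul, pow_succ]
    congr 1
    field_simp
  rw [h1, norm_smul, norm_ppow]
  have h3 := hu.pow_bound (hu.xs_le hx j) p
  have h4 := hu.xs_norm hx j
  calc (p : ℝ) ^ (j + 1) * ‖(1 + xs p x j) ^ p - 1 - (p : R) * xs p x j‖
      ≤ (p : ℝ) ^ (j + 1) * (((p : ℝ)⁻¹) ^ j * ‖x‖) ^ 2 :=
        mul_le_mul_of_nonneg_left (h3.trans (pow_le_pow_left₀ (norm_nonneg _) h4 2))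
          (by positivity)
    _ = ((p : ℝ) * ‖x‖ ^ 2) * ((p : ℝ)⁻¹) ^ j := by
        rw [inv_pow, pow_succ]
        field_simp

theorem Ultra.exists_lim [CompleteSpace R] {x : R} (hx : ‖x‖ ≤ (p : ℝ)⁻¹) :
    ∃ L : R, Tendsto (bs p x) atTop (𝓝 L) := by
  have hp1 : (1 : ℝ) < p := by exact_mod_cast hp.out.one_lt
  refine cauchySeq_tendsto_of_complete
    (cauchySeq_of_le_geometric (p : ℝ)⁻¹ ((p : ℝ) * ‖x‖ ^ 2) (inv_lt_one_of_one_lt₀ hp1)
      fun j => ?_)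
  rw [dist_comm, dist_eq_norm]
  exact hu.bs_diff hx j

/-- The powers with exponents `n p ^ j`. -/
theorem Ultra.lim_mul {x L : R} (hx : ‖x‖ ≤ (p : ℝ)⁻¹) (hL : Tendsto (bs p x) atTop (𝓝 L))
    {n : ℕ} (hn : n ≠ 0) :
    Tendsto (fun j : ℕ => (((n : ℚ_[p]) * (p : ℚ_[p]) ^ j)⁻¹) • ((1 + x) ^ (n * p ^ j) - 1)) atTop
      (𝓝 L) := by
  have hn0 : (n : ℚ_[p]) ≠ 0 := by exact_mod_cast hn
  have hp0 : (p : ℚ_[p]) ≠ 0 := by exact_mod_cast hp.out.ne_zero
  have hp1 : (1 : ℝ) < p := by exact_mod_cast hp.out.one_lt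
  have h1 : ∀ j : ℕ, (((n : ℚ_[p]) * (p : ℚ_[p]) ^ j)⁻¹) • ((1 + x) ^ (n * p ^ j) - 1) =
      bs p x j + (((n : ℚ_[p]) * (p : ℚ_[p]) ^ j)⁻¹) •
        ((1 + xs p x j) ^ n - 1 - (n : R) * xs p x j) := by
    intro j
    rw [one_add_xs, ← pow_mul, mul_comm (p ^ j) n, smul_sub _ ((1 + x) ^ (n * p ^ j) - 1)]
    have h2 : (n : R) * xs p x j = ((n : ℕ) : ℚ_[p]) • xs p x j := by
      rw [Algebra.smul_def, map_natCast]
    rw [h2, smul_smul]
    have h3 : ((n : ℚ_[p]) * (p : ℚ_[p]) ^ j)⁻¹ * (n : ℚ_[p]) = ((p : ℚ_[p]) ^ j)⁻¹ := by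
      field_simp
    rw [h3]
    unfold bs
    abel
  simp only [h1]
  have h4 : Tendsto (fun j : ℕ => (((n : ℚ_[p]) * (p : ℚ_[p]) ^ j)⁻¹) •
        ((1 + xs p x j) ^ n - 1 - (n : R) * xs p x j)) atTop (𝓝 0) := by
    refine squeeze_zero_norm (a := fun j : ℕ => (‖(n : ℚ_[p])‖⁻¹ * ‖x‖ ^ 2) * ((p : ℝ)⁻¹) ^ j)
      (fun j => ?_) ?_
    · rw [norm_smul, mul_inv, norm_mul, norm_ppow, norm_inv]
      have h3 := hu.pow_bound (hu.xs_le hx j) n
      have h4 := hu.xs_norm hx j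
      calc ‖(n : ℚ_[p])‖⁻¹ * (p : ℝ) ^ j * ‖(1 + xs p x j) ^ n - 1 - (n : R) * xs p x j‖
          ≤ ‖(n : ℚ_[p])‖⁻¹ * (p : ℝ) ^ j * (((p : ℝ)⁻¹) ^ j * ‖x‖) ^ 2 :=
            mul_le_mul_of_nonneg_left (h3.trans (pow_le_pow_left₀ (norm_nonneg _) h4 2))
              (by positivity)
        _ = (‖(n : ℚ_[p])‖⁻¹ * ‖x‖ ^ 2) * ((p : ℝ)⁻¹) ^ j := by
            have hpr : (p : ℝ) ≠ 0 := by positivity
            rw [inv_pow]
            field_simp
    · have h5 := (tendsto_pow_atTop_nhds_zero_of_lt_one (r := (p : ℝ)⁻¹) (by positivity)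
        (inv_lt_one_of_one_lt₀ hp1)).const_mul (‖(n : ℚ_[p])‖⁻¹ * ‖x‖ ^ 2)
      rwa [mul_zero] at h5
  have h6 := hL.add h4
  rwa [add_zero] at h6

/-- Commutators of the approximations. -/
theorem Ultra.comm_bs {x : R} (hx : ‖x‖ < (p : ℝ)⁻¹) (z : R) (j : ℕ) :
    ‖xs p x j * z - z * xs p x j‖ = ((p : ℝ)⁻¹) ^ j * ‖x * z - z * x‖ := by
  have hp1 : (1 : ℝ) < p := by exact_mod_cast hp.out.one_lt
  have hpi : (p : ℝ)⁻¹ ≤ 1 := inv_le_one_of_one_le₀ hp1.le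
  have hpi0 : 0 < (p : ℝ)⁻¹ := by positivity
  induction j with
  | zero => simp [xs]
  | succ j ih =>
    set y := xs p x j with hy
    have hyx : ‖y‖ ≤ ‖x‖ := by
      refine (hu.xs_norm hx.le j).trans ?_
      calc ((p : ℝ)⁻¹) ^ j * ‖x‖ ≤ 1 * ‖x‖ :=
            mul_le_mul_of_nonneg_right (pow_le_one₀ hpi0.le hpi) (norm_nonneg _)
        _ = _ := one_mul _
    have hy1 : ‖y‖ < (p : ℝ)⁻¹ := hyx.trans_lt hx
    have h1 := hu.comm_bound (hy1.le.trans hpi) z p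
    have h2 : xs p x (j + 1) * z - z * xs p x (j + 1) = (1 + y) ^ p * z - z * (1 + y) ^ p := by
      rw [xs_succ, ← hy]
      noncomm_ring
    have h3 : ‖(p : R) * (y * z - z * y)‖ = (p : ℝ)⁻¹ * ‖y * z - z * y‖ := norm_natp_mul p _
    rw [h2, pow_succ', mul_assoc, ← ih]
    by_cases h0 : ‖y * z - z * y‖ = 0
    · rw [h0, mul_zero] at h1 h3
      rw [h0, mul_zero]
      have h4 : (1 + y) ^ p * z - z * (1 + y) ^ p =
          ((1 + y) ^ p * z - z * (1 + y) ^ p - (p : R) * (y * z - z * y)) +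
            (p : R) * (y * z - z * y) := by abel
      have h5 := hu.add ((1 + y) ^ p * z - z * (1 + y) ^ p - (p : R) * (y * z - z * y))
        ((p : R) * (y * z - z * y))
      rw [← h4, h3] at h5
      exact le_antisymm (h5.trans (max_le h1 le_rfl)) (norm_nonneg _)
    · have h0' : 0 < ‖y * z - z * y‖ := lt_of_le_of_ne (norm_nonneg _) (Ne.symm h0)
      have h6 : ‖(1 + y) ^ p * z - z * (1 + y) ^ p - (p : R) * (y * z - z * y)‖ <
          (p : ℝ)⁻¹ * ‖y * z - z * y‖ := h1.trans_lt (mul_lt_mul_of_pos_right hy1 h0')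
      apply le_antisymm
      · have h4 : (1 + y) ^ p * z - z * (1 + y) ^ p =
            ((1 + y) ^ p * z - z * (1 + y) ^ p - (p : R) * (y * z - z * y)) +
              (p : R) * (y * z - z * y) := by abel
        rw [h4]
        exact (hu.add _ _).trans (max_le h6.le h3.le)
      · by_contra h7
        push Not at h7
        have h4 : (p : R) * (y * z - z * y) =
            ((1 + y) ^ p * z - z * (1 + y) ^ p) -
            ((1 + y) ^ p * z - z * (1 + y) ^ p - (p : R) * (y * z - z * y)) := by abel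
        have h8 := hu.sub ((1 + y) ^ p * z - z * (1 + y) ^ p)
          ((1 + y) ^ p * z - z * (1 + y) ^ p - (p : R) * (y * z - z * y))
        rw [← h4, h3] at h8
        exact absurd h8 (not_le.2 (max_lt h7 h6))

/-- **The logarithm**: for `x` of norm less than `1 / p` there is an element `L` which is the limit of
the `((1 + x) ^ (n p ^ j) - 1) / (n p ^ j)` for all `n > 0`, and every element commuting with `L`
commutes with `x`. -/
theorem Ultra.exists_log [CompleteSpace R] {x : R} (hx : ‖x‖ < (p : ℝ)⁻¹) :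
    ∃ L : R, (∀ n : ℕ, n ≠ 0 → Tendsto (fun j : ℕ =>
      (((n : ℚ_[p]) * (p : ℚ_[p]) ^ j)⁻¹) • ((1 + x) ^ (n * p ^ j) - 1)) atTop (𝓝 L)) ∧
      ∀ z, L * z = z * L → x * z = z * x := by
  obtain ⟨L, hL⟩ := hu.exists_lim hx.le
  refine ⟨L, fun n hn => hu.lim_mul hx.le hL hn, fun z hz => ?_⟩
  have h1 : ∀ j, ‖bs p x j * z - z * bs p x j‖ = ‖x * z - z * x‖ := by
    intro j
    have h2 : bs p x j * z - z * bs p x j = (((p : ℚ_[p]) ^ j)⁻¹) • (xs p x j * z - z * xs p x j) := by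
      unfold bs
      rw [smul_sub, smul_mul_assoc, mul_smul_comm]
    have hpr : (p : ℝ) ≠ 0 := by exact_mod_cast hp.out.ne_zero
    rw [h2, norm_smul, norm_ppow, hu.comm_bs hx, ← mul_assoc, ← mul_pow, mul_inv_cancel₀ hpr,
      one_pow, one_mul]
  have h3 : Tendsto (fun j => ‖bs p x j * z - z * bs p x j‖) atTop (𝓝 ‖L * z - z * L‖) :=
    ((hL.mul_const z).sub (hL.const_mul z)).norm
  simp only [h1] at h3
  have h4 := tendsto_nhds_unique h3 tendsto_const_nhds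
  rw [hz, sub_self, norm_zero] at h4
  exact sub_eq_zero.1 (norm_eq_zero.1 h4.symm)

end

end Pool.Agent.Helper883_Four
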