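import Mathlib
import Pool.Agent.Helper883_Four.Forms
import Pool.Agent.Helper883_Four.Log

/-!
# Logarithms annihilate the Tate classes
-/

set_option linter.unusedSectionVars false

namespace Pool.Agent.Helper883_Four

open Matrix Filter Topology Pool.Agent.W437.HC

noncomputable section

variable {p N : ℕ} [hp : Fact p.Prime]

/-- Vectors. -/
abbrev Vc (p N : ℕ) [Fact p.Prime] : Type := Fin N → ℚ_[p]

/-- Operators. -/
abbrev Op (p N : ℕ) [Fact p.Prime] : Type := Vc p N →L[ℚ_[p]] Vc p N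

theorem vc_ultra (x y : Vc p N) : ‖x + y‖ ≤ max ‖x‖ ‖y‖ := by
  refine (pi_norm_le_iff_of_nonneg (le_max_of_le_left (norm_nonneg _))).2 fun i => ?_
  rw [Pi.add_apply]
  refine (Padic.nonarchimedean _ _).trans ?_
  exact max_le_max (norm_le_pi_norm x i) (norm_le_pi_norm y i)

theorem op_ultra : Ultra (Op p N) where
  add := by
    intro f g
    refine ContinuousLinearMap.opNorm_le_bound _ (le_max_of_le_left (norm_nonneg _)) fun x => ?_
    rw [ContinuousLinearMap.add_apply]
    refine (vc_ultra _ _).trans ?_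
    rw [max_mul_of_nonneg _ _ (norm_nonneg x)]
    exact max_le_max (f.le_opNorm x) (g.le_opNorm x)
  one := ContinuousLinearMap.norm_id_le

theorem padic_ultra : Ultra ℚ_[p] where
  add := Padic.nonarchimedean
  one := by rw [norm_one]

/-- Matrices as operators. -/
def mop : Matrix (Fin N) (Fin N) ℚ_[p] ≃ₐ[ℚ_[p]] Op p N :=
  (toLinAlgEquiv' (R := ℚ_[p]) (n := Fin N)).trans (Module.End.toContinuousLinearMap (Vc p N))

theorem mop_apply (M : Matrix (Fin N) (Fin N) ℚ_[p]) (x : Vc p N) : mop M x = M *ᵥ x := rfl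

theorem continuous_mop : Continuous (mop : Matrix (Fin N) (Fin N) ℚ_[p] → Op p N) :=
  LinearMap.continuous_of_finiteDimensional
    (mop : Matrix (Fin N) (Fin N) ℚ_[p] ≃ₐ[ℚ_[p]] Op p N).toLinearMap

theorem continuous_mop_symm : Continuous (mop.symm : Op p N → Matrix (Fin N) (Fin N) ℚ_[p]) :=
  LinearMap.continuous_of_finiteDimensional
    (mop : Matrix (Fin N) (Fin N) ℚ_[p] ≃ₐ[ℚ_[p]] Op p N).symm.toLinearMap

/-- The logarithm of a matrix near one. -/
theorem exists_log_matrix {g : Matrix (Fin N) (Fin N) ℚ_[p]}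
    (hg : ‖mop g - 1‖ < (p : ℝ)⁻¹) :
    ∃ L : Matrix (Fin N) (Fin N) ℚ_[p], (∀ n : ℕ, n ≠ 0 → Tendsto (fun j : ℕ =>
      (((n : ℚ_[p]) * (p : ℚ_[p]) ^ j)⁻¹) • (g ^ (n * p ^ j) - 1)) atTop (𝓝 L)) ∧
      ∀ Z, L * Z = Z * L → g * Z = Z * g := by
  obtain ⟨L, hL, hZ⟩ := op_ultra.exists_log hg
  refine ⟨mop.symm L, fun n hn => ?_, fun Z hZL => ?_⟩
  · have h1 := (continuous_mop_symm.tendsto L).comp (hL n hn)
    refine h1.congr fun j => ?_
    rw [Function.comp_apply, map_smul, map_sub, map_pow, map_add, map_sub, map_one,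
      AlgEquiv.symm_apply_apply, add_sub_cancel]
  · have h1 : L * mop Z = mop Z * L := by
      have h2 := congrArg mop hZL
      rwa [map_mul, map_mul, AlgEquiv.apply_symm_apply] at h2
    have h2 := hZ _ h1
    have h3 : mop (g * Z) = mop (Z * g) := by
      rw [map_mul, map_mul]
      have h4 : mop g * mop Z = (mop g - 1) * mop Z + mop Z := by
        rw [sub_mul, one_mul, sub_add_cancel]
      have h5 : mop Z * mop g = mop Z * (mop g - 1) + mop Z := by
        rw [mul_sub, mul_one, sub_add_cancel]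
      rw [h4, h5, h2]
    exact mop.injective h3

/-- The form as a continuous multilinear map. -/
def evalC {κ : Type} [Fintype κ] [DecidableEq κ] (c : (κ → Fin N) → ℚ_[p]) :
    ContinuousMultilinearMap ℚ_[p] (fun _ : κ => Vc p N) ℚ_[p] :=
  { evalM c with
    cont := by
      change Continuous (fun x : κ → Vc p N => evalF c x)
      unfold evalF
      fun_prop }

theorem evalC_apply {κ : Type} [Fintype κ] [DecidableEq κ] (c : (κ → Fin N) → ℚ_[p])
    (x : κ → Vc p N) : evalC c x = evalF c x := rfl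

theorem tendsto_ppow {n : ℕ} (hn : n ≠ 0) :
    Tendsto (fun j : ℕ => (n : ℚ_[p]) * (p : ℚ_[p]) ^ j) atTop (𝓝 0) := by
  have h1 : Tendsto (fun j : ℕ => (p : ℚ_[p]) ^ j) atTop (𝓝 0) := by
    rw [tendsto_zero_iff_norm_tendsto_zero]
    have hp1 : (1 : ℝ) < p := by exact_mod_cast hp.out.one_lt
    have h2 := tendsto_pow_atTop_nhds_zero_of_lt_one (r := (p : ℝ)⁻¹) (by positivity)
      (inv_lt_one_of_one_lt₀ hp1)
    refine h2.congr fun j => ?_
    rw [norm_pow, Padic.norm_p]
  have h2 := h1.const_mul (n : ℚ_[p])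
  rwa [mul_zero] at h2

theorem act_one {κ K : Type*} [Fintype κ] [DecidableEq κ] [Field K] (c : (κ → Fin N) → K) :
    act (1 : Matrix (Fin N) (Fin N) K) c = (Fintype.card κ : K) • c := by
  refine eq_of_evalF fun x => ?_
  rw [evalF_act, evalF_smul]
  have h1 : ∀ k, evalF c (Function.update x k ((1 : Matrix (Fin N) (Fin N) K) *ᵥ x k)) =
      evalF c x := by
    intro k
    rw [one_mulVec, Function.update_eq_self]
  rw [Finset.sum_congr rfl (fun k _ => h1 k), Finset.sum_const, Finset.card_univ, nsmul_eq_mul]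

/-- The derivative: if `(1 + t_j y_j)` multiplies the form by `u_j`, with `t_j → 0` and `y_j → L`, and
`(u_j - 1) / t_j → a` then `L` multiplies the form by `a`. -/
theorem act_of_lim {κ : Type} [Fintype κ] [DecidableEq κ] {c : (κ → Fin N) → ℚ_[p]}
    {t u : ℕ → ℚ_[p]} {y : ℕ → Matrix (Fin N) (Fin N) ℚ_[p]}
    {L : Matrix (Fin N) (Fin N) ℚ_[p]} {a : ℚ_[p]} (ht : ∀ j, t j ≠ 0)
    (ht0 : Tendsto t atTop (𝓝 0)) (hy : Tendsto (fun j => (t j)⁻¹ • (y j - 1)) atTop (𝓝 L))
    (hu : Tendsto (fun j => (t j)⁻¹ * (u j - 1)) atTop (𝓝 a))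
    (h : ∀ j x, evalF c (fun k => y j *ᵥ x k) = u j * evalF c x) : act L c = a • c := by
  refine eq_of_evalF fun x => ?_
  rw [evalF_act, evalF_smul]
  -- the increments
  set d : ℕ → (κ → Vc p N) := fun j k => (y j - 1) *ᵥ x k with hd
  have hcd : Tendsto (fun j => (t j)⁻¹ • d j) atTop (𝓝 (fun k => L *ᵥ x k)) := by
    rw [tendsto_pi_nhds]
    intro k
    have h1 : ∀ j, ((t j)⁻¹ • d j) k = ((t j)⁻¹ • (y j - 1)) *ᵥ x k := by
      intro j
      rw [smul_mulVec]
      rfl
    have h2 : Continuous (fun M : Matrix (Fin N) (Fin N) ℚ_[p] => M *ᵥ x k) := by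
      exact Continuous.matrix_mulVec continuous_id continuous_const
    have h3 := (h2.tendsto L).comp hy
    exact h3.congr fun j => (h1 j).symm
  have hd0 : Tendsto d atTop (𝓝 0) := by
    have h1 := ht0.smul hcd
    rw [zero_smul] at h1
    refine h1.congr fun j => ?_
    rw [smul_smul, mul_inv_cancel₀ (ht j), one_smul]
  have hder := (evalC c).hasFDerivAt (x := x)
  have hlim := (hasFDerivWithinAt_univ.2 hder).lim hd0
    (Eventually.of_forall fun _ => Set.mem_univ _) hcd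
  have hval : ∀ j, (t j)⁻¹ • ((evalC c) (x + d j) - (evalC c) x) =
      ((t j)⁻¹ * (u j - 1)) * evalF c x := by
    intro j
    have h1 : x + d j = fun k => y j *ᵥ x k := by
      funext k
      change x k + (y j - 1) *ᵥ x k = y j *ᵥ x k
      rw [sub_mulVec, one_mulVec, add_sub_cancel]
    rw [evalC_apply, evalC_apply, h1, h j x, smul_eq_mul]
    ring
  simp only [hval] at hlim
  have h2 := tendsto_nhds_unique hlim (hu.mul_const (evalF c x))
  rw [ContinuousMultilinearMap.linearDeriv_apply] at h2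
  rw [← h2]
  rfl

section

variable {Γ : Type} [Group Γ] [TopologicalSpace Γ] [IsTopologicalGroup Γ] [CompactSpace Γ]
  {ρ : Γ →* Matrix (Fin N) (Fin N) ℚ_[p]} {χ : Γ →* ℚ_[p]}

/-- Some multiple of the logarithm of the character can be subtracted from the logarithm of an
element near one, and the result annihilates all Tate classes. -/
theorem exists_log_mem {s : Γ} (hs : ‖mop (ρ s) - 1‖ < (p : ℝ)⁻¹) (hs' : ‖χ s - 1‖ < (p : ℝ)⁻¹) :
    ∃ L ∈ lie (tate ρ χ), ∀ Z, L * Z = Z * L → ρ s * Z = Z * ρ s := by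
  have hp0 : (p : ℚ_[p]) ≠ 0 := by exact_mod_cast hp.out.ne_zero
  obtain ⟨L, hL, hZ⟩ := exists_log_matrix hs
  obtain ⟨b, hb, _⟩ := padic_ultra.exists_log hs'
  refine ⟨L - (b / 2) • (1 : Matrix (Fin N) (Fin N) ℚ_[p]), ?_, fun Z hZL => hZ Z ?_⟩
  · intro m c hc
    obtain ⟨Δ, hΔ, hc⟩ := hc
    have hfin : Finite (Γ ⧸ Δ) := Δ.quotient_finite_of_isOpen hΔ
    have hfi : Δ.FiniteIndex := Subgroup.finiteIndex_of_finite_quotient
    obtain ⟨n, hn0, _, hn⟩ := Subgroup.exists_pow_mem_of_index_ne_zero hfi.index_ne_zero s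
    have hn1 : n ≠ 0 := hn0.ne'
    have hnp : (n : ℚ_[p]) ≠ 0 := by exact_mod_cast hn1
    -- the character
    have hu : Tendsto (fun j : ℕ => ((n : ℚ_[p]) * (p : ℚ_[p]) ^ j)⁻¹ *
        ((χ s ^ (n * p ^ j)) ^ m - 1)) atTop (𝓝 ((m : ℚ_[p]) * b)) := by
      by_cases hm : m = 0
      · subst hm
        simp
      · have hmp : (m : ℚ_[p]) ≠ 0 := by exact_mod_cast hm
        have h1 := (hb (n * m) (mul_ne_zero hn1 hm)).const_mul (m : ℚ_[p])
        refine h1.congr fun j => ?_
        rw [add_sub_cancel, smul_eq_mul, ← pow_mul]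
        have h2 : n * m * p ^ j = n * p ^ j * m := by ring
        rw [h2]
        push_cast
        field_simp
    have h1 := act_of_lim (c := c) (t := fun j : ℕ => (n : ℚ_[p]) * (p : ℚ_[p]) ^ j)
      (u := fun j => (χ s ^ (n * p ^ j)) ^ m) (y := fun j => ρ s ^ (n * p ^ j))
      (fun j => mul_ne_zero hnp (pow_ne_zero _ hp0)) (tendsto_ppow hn1) (hL n hn1) hu ?_
    · rw [act_sub_left, act_smul_left, h1, act_one, Fintype.card_fin, smul_smul]
      push_cast
      have h2 : b / 2 * (2 * (m : ℚ_[p])) = (m : ℚ_[p]) * b := by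
        field_simp
      rw [h2, sub_self]
    · intro j x
      have h2 : s ^ (n * p ^ j) ∈ Δ := by
        rw [pow_mul]
        exact Δ.pow_mem hn _
      have h3 := hc _ h2 x
      rwa [map_pow, map_pow] at h3
  · rw [sub_mul, mul_sub, smul_mul_assoc, mul_smul_comm, one_mul, mul_one] at hZL
    exact sub_left_injective hZL

/-- A matrix which commutes with the Lie algebra of the Tate classes commutes with an open
subgroup. -/
theorem comm_open (hρ : Continuous ρ) (hχ : Continuous χ) {Z : Matrix (Fin N) (Fin N) ℚ_[p]}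
    (hZ : ∀ Y ∈ lie (tate ρ χ), Z * Y = Y * Z) :
    ∃ Δ : Subgroup Γ, IsOpen (Δ : Set Γ) ∧ ∀ s ∈ Δ, ρ s * Z = Z * ρ s := by
  let Δ : Subgroup Γ :=
    { carrier := {s | ρ s * Z = Z * ρ s}
      one_mem' := by
        change ρ 1 * Z = Z * ρ 1
        rw [map_one, one_mul, mul_one]
      mul_mem' := by
        intro s t hs ht
        change ρ (s * t) * Z = Z * ρ (s * t)
        change ρ s * Z = Z * ρ s at hs
        change ρ t * Z = Z * ρ t at ht
        rw [map_mul, mul_assoc, ht, ← mul_assoc, hs, mul_assoc]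
      inv_mem' := by
        intro s hs
        change ρ s⁻¹ * Z = Z * ρ s⁻¹
        change ρ s * Z = Z * ρ s at hs
        have h1 : ρ s⁻¹ * ρ s = 1 := by rw [← map_mul, inv_mul_cancel, map_one]
        have h2 : ρ s * ρ s⁻¹ = 1 := by rw [← map_mul, mul_inv_cancel, map_one]
        calc ρ s⁻¹ * Z = ρ s⁻¹ * Z * (ρ s * ρ s⁻¹) := by rw [h2, mul_one]
          _ = ρ s⁻¹ * (Z * ρ s) * ρ s⁻¹ := by simp only [mul_assoc]
          _ = ρ s⁻¹ * (ρ s * Z) * ρ s⁻¹ := by rw [hs]
          _ = (ρ s⁻¹ * ρ s) * Z * ρ s⁻¹ := by simp only [mul_assoc]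
          _ = Z * ρ s⁻¹ := by rw [h1, one_mul] }
  refine ⟨Δ, ?_, fun s hs => hs⟩
  have hpr : (0 : ℝ) < (p : ℝ)⁻¹ := by
    have := hp.out.pos
    positivity
  have h1 : {s : Γ | ‖mop (ρ s) - 1‖ < (p : ℝ)⁻¹} ∩ {s : Γ | ‖χ s - 1‖ < (p : ℝ)⁻¹} ∈
      𝓝 (1 : Γ) := by
    refine Filter.inter_mem ?_ ?_
    · refine IsOpen.mem_nhds ?_ ?_
      · exact isOpen_lt (((continuous_mop.comp hρ).sub continuous_const).norm) continuous_const
      · change ‖mop (ρ 1) - 1‖ < (p : ℝ)⁻¹
        rw [map_one, map_one, sub_self, norm_zero]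
        exact hpr
    · refine IsOpen.mem_nhds ?_ ?_
      · exact isOpen_lt ((hχ.sub continuous_const).norm) continuous_const
      · change ‖χ 1 - 1‖ < (p : ℝ)⁻¹
        rw [map_one, sub_self, norm_zero]
        exact hpr
  refine Subgroup.isOpen_of_mem_nhds Δ (g := 1) (Filter.mem_of_superset h1 ?_)
  rintro s ⟨hs, hs'⟩
  obtain ⟨L, hL, hLZ⟩ := exists_log_mem hs hs'
  exact hLZ Z (hZ L hL).symm

end

end

end Pool.Agent.Helper883_Four
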