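import Mathlib
import Pool.Agent.Helper883_Four.LogTate

/-!
# Replicas: the semisimple part of a matrix which annihilates a form
-/

set_option linter.unusedSectionVars false

namespace Pool.Agent.Helper883_Four

open Matrix Module Pool.Agent.W437.HC

noncomputable section

section

variable {B κ Ω : Type*} [Fintype B] [DecidableEq B] [Fintype κ] [DecidableEq κ] [Field Ω]

/-- The action in one variable as a linear map. -/
def actkE (X : Matrix B B Ω) (k : κ) : Module.End Ω ((κ → B) → Ω) where
  toFun c := actk X k c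
  map_add' := actk_add X k
  map_smul' := by
    intro r c
    funext I
    simp only [actk, Pi.smul_apply, smul_eq_mul, Finset.mul_sum, RingHom.id_apply]
    refine Finset.sum_congr rfl fun j _ => by ring

/-- The action as a linear map. -/
def actE (X : Matrix B B Ω) : Module.End Ω ((κ → B) → Ω) := ∑ k, actkE X k

theorem actE_apply (X : Matrix B B Ω) (c : (κ → B) → Ω) : actE X c = act X c := by
  rw [act_eq_sum, actE, LinearMap.sum_apply]
  rfl

theorem actkE_pow (X : Matrix B B Ω) (k : κ) (r : ℕ) :
    (actkE X k : Module.End Ω ((κ → B) → Ω)) ^ r = actkE (X ^ r) k := by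
  induction r with
  | zero =>
    refine LinearMap.ext fun c => ?_
    funext I
    have h1 : (actkE ((X : Matrix B B Ω) ^ 0) k) c I = ∑ j, (1 : Matrix B B Ω) j (I k) *
        c (Function.update I k j) := by
      rw [pow_zero]
      rfl
    rw [h1, pow_zero, Module.End.one_apply, Finset.sum_eq_single (I k)]
    · rw [one_apply_eq, one_mul, Function.update_eq_self]
    · intro j _ hj
      rw [one_apply_ne hj, zero_mul]
    · intro h
      exact absurd (Finset.mem_univ _) h
  | succ r ih =>
    rw [pow_succ, ih]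
    refine LinearMap.ext fun c => ?_
    rw [Module.End.mul_apply]
    change actk (X ^ r) k (actk X k c) = actk (X ^ (r + 1)) k c
    rw [actk_same, pow_succ' X]

theorem actE_nilpotent {X : Matrix B B Ω} (hX : IsNilpotent X) :
    IsNilpotent (actE X : Module.End Ω ((κ → B) → Ω)) := by
  refine Commute.isNilpotent_sum (fun k _ => ?_) fun k l _ _ => ?_
  · obtain ⟨r, hr⟩ := hX
    refine ⟨r, ?_⟩
    rw [actkE_pow, hr]
    refine LinearMap.ext fun c => ?_
    funext I
    change ∑ j, (0 : Matrix B B Ω) j (I k) * c (Function.update I k j) = 0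
    simp
  · by_cases h : k = l
    · subst h
      exact Commute.refl _
    · refine LinearMap.ext fun c => ?_
      exact actk_comm X X h c

theorem actE_comm {X Y : Matrix B B Ω} (h : X * Y = Y * X) :
    Commute (actE X : Module.End Ω ((κ → B) → Ω)) (actE Y) := by
  refine LinearMap.ext fun c => ?_
  rw [Module.End.mul_apply, Module.End.mul_apply, actE_apply, actE_apply, actE_apply, actE_apply,
    ← sub_eq_zero, act_comm, h, sub_self, act_zero_left]

/-- The values of `act s c` at eigenvectors. -/
theorem evalF_act_eig {s : Matrix B B Ω} {ι : Type*} {v : ι → B → Ω} {μ : ι → Ω}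
    (hs : ∀ i, s *ᵥ v i = μ i • v i) (c : (κ → B) → Ω) (J : κ → ι) :
    evalF (act s c) (fun k => v (J k)) = (∑ k, μ (J k)) * evalF c (fun k => v (J k)) := by
  rw [evalF_act, Finset.sum_mul]
  refine Finset.sum_congr rfl fun k _ => ?_
  rw [hs, evalF_update_smul, Function.update_eq_self]

/-- If `n + s` kills the form `c`, `n` is nilpotent, commutes with `s`, and `s` is diagonal in the
basis `v`, then the weights of `c` are zero. -/
theorem weights_zero {n s : Matrix B B Ω} (hn : IsNilpotent n) (hns : n * s = s * n) {ι : Type*}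
    {v : ι → B → Ω} {μ : ι → Ω} (hs : ∀ i, s *ᵥ v i = μ i • v i) {c : (κ → B) → Ω}
    (hc : act (n + s) c = 0) (J : κ → ι) :
    ∑ k, μ (J k) = 0 ∨ evalF c (fun k => v (J k)) = 0 := by
  obtain ⟨r, hr⟩ := actE_nilpotent (κ := κ) hn
  have h0 : actE s c = -actE n c := by
    rw [actE_apply, actE_apply, ← add_eq_zero_iff_eq_neg, ← act_add_left, add_comm s n]
    exact hc
  have h1 : ∀ j : ℕ, ((actE s) ^ j) c = (-1 : Ω) ^ j • ((actE n) ^ j) c := by
    intro j
    induction j with
    | zero => simp
    | succ j ih =>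
      rw [pow_succ, Module.End.mul_apply, h0, map_neg, ← Module.End.mul_apply]
      have h2 : Commute ((actE s : Module.End Ω ((κ → B) → Ω)) ^ j) (actE n) :=
        (actE_comm hns.symm).pow_left j
      rw [h2.eq, Module.End.mul_apply, ih, map_smul, ← Module.End.mul_apply, ← pow_succ']
      rw [pow_succ (-1 : Ω), mul_neg_one, neg_smul]
  have h2 : ((actE s) ^ r) c = 0 := by
    rw [h1, hr, LinearMap.zero_apply, smul_zero]
  have h3 : ∀ (j : ℕ), evalF (((actE s) ^ j) c) (fun k => v (J k)) =
      (∑ k, μ (J k)) ^ j * evalF c (fun k => v (J k)) := by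
    intro j
    induction j with
    | zero => simp
    | succ j ih =>
      rw [pow_succ', Module.End.mul_apply, actE_apply, evalF_act_eig hs, ih, pow_succ']
      ring
  have h4 := h3 r
  rw [h2, evalF_zero] at h4
  rcases mul_eq_zero.1 h4.symm with h5 | h5
  · exact Or.inl (eq_zero_of_pow_eq_zero h5)
  · exact Or.inr h5

/-- The replica kills the form. -/
theorem replica_kills {n s y : Matrix B B Ω} (hn : IsNilpotent n) (hns : n * s = s * n)
    {ι : Type*} (v : Basis ι Ω (B → Ω)) {μ ν : ι → Ω} (hs : ∀ i, s *ᵥ v i = μ i • v i)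
    (hy : ∀ i, y *ᵥ v i = ν i • v i)
    (hμν : ∀ (J : κ → ι), ∑ k, μ (J k) = 0 → ∑ k, ν (J k) = 0) {c : (κ → B) → Ω}
    (hc : act (n + s) c = 0) : act y c = 0 := by
  have h1 : evalM (act y c) = 0 := by
    refine Basis.ext_multilinear (fun _ => v) fun J => ?_
    rw [evalM_apply, evalF_act_eig (v := fun i => v i) hy]
    rcases weights_zero hn hns hs hc J with h | h
    · rw [hμν J h, zero_mul]
      rfl
    · rw [h, mul_zero]
      rfl
  apply eq_zero_of_evalF
  intro x
  rw [← evalM_apply, h1]
  rfl

end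

/-- The Jordan decomposition of a matrix over an algebraically closed field. -/
theorem jordan {Ω : Type*} [Field Ω] [IsAlgClosed Ω] [CharZero Ω] {N : ℕ}
    (X : Matrix (Fin N) (Fin N) Ω) :
    ∃ (n s : Matrix (Fin N) (Fin N) Ω) (v : Basis (Fin N) Ω (Fin N → Ω)) (μ : Fin N → Ω),
      X = n + s ∧ n * s = s * n ∧ IsNilpotent n ∧ (∀ i, s *ᵥ v i = μ i • v i) ∧
      ∀ (g : Ω → Ω) (y : Matrix (Fin N) (Fin N) Ω), (∀ i, y *ᵥ v i = g (μ i) • v i) →
        n * y = y * n := by
  classical
  obtain ⟨n, hn_adj, s, hs_adj, hn_nil, hs_ss, hX⟩ := Module.End.exists_isNilpotent_isSemisimple (f := toLin' X)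
  have hns : Commute n s :=
    Algebra.commute_of_mem_adjoin_singleton_of_commute hs_adj
      (Algebra.commute_of_mem_adjoin_self hn_adj).symm
  let eigenDecomp := DirectSum.isInternal_submodule_of_iSupIndep_of_iSup_eq_top
    s.eigenspaces_iSupIndep hs_ss.iSup_eigenspace_eq_top
  let v₀ := eigenDecomp.collectedBasis fun μ ↦ finBasis Ω (s.eigenspace μ)
  have hft : Fintype ((ν : Ω) × Fin (finrank Ω (s.eigenspace ν))) :=
    FiniteDimensional.fintypeBasisIndex v₀
  have hc : Fintype.card ((ν : Ω) × Fin (finrank Ω (s.eigenspace ν))) = N := by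
    have h1 := Module.finrank_eq_card_basis v₀
    rw [Module.finrank_fin_fun] at h1
    exact h1.symm
  let e : ((ν : Ω) × Fin (finrank Ω (s.eigenspace ν))) ≃ Fin N := Fintype.equivFinOfCardEq hc
  let v : Basis (Fin N) Ω (Fin N → Ω) := v₀.reindex e
  let μ : Fin N → Ω := fun i => (e.symm i).1
  have hsv : ∀ i, s (v i) = μ i • v i := by
    intro i
    have h1 : v i = v₀ (e.symm i) := Basis.reindex_apply _ _ _
    rw [h1]
    exact Module.End.mem_eigenspace_iff.mp (eigenDecomp.collectedBasis_mem _ (e.symm i))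
  refine ⟨LinearMap.toMatrix' n, LinearMap.toMatrix' s, v, μ, ?_, ?_, ?_, ?_, ?_⟩
  · have h1 := congrArg LinearMap.toMatrix' hX
    rw [LinearMap.toMatrix'_toLin', map_add] at h1
    exact h1
  · rw [← LinearMap.toMatrix'_mul, ← LinearMap.toMatrix'_mul, hns.eq]
  · obtain ⟨r, hr⟩ := hn_nil
    refine ⟨r, ?_⟩
    have h1 : (LinearMap.toMatrixAlgEquiv' n) ^ r = 0 := by
      rw [← map_pow, hr, map_zero]
    exact h1
  · intro i
    rw [LinearMap.toMatrix'_mulVec]
    exact hsv i
  · intro g y hy
    have hcomm : Commute n (toLin' y) := by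
      suffices toLin' y ∈ Algebra.adjoin Ω {s} from
        Algebra.commute_of_mem_adjoin_singleton_of_commute this hns
      rw [Algebra.adjoin_singleton_eq_range_aeval]
      obtain ⟨q, hq⟩ : ∃ q : Polynomial Ω, ∀ i, q.eval (μ i) = g (μ i) :=
        (Polynomial.exists_eval_eq_iff μ (fun i => g (μ i))).mpr <| by
          intro i j hij
          exact congrArg g hij
      refine ⟨q, v.ext fun i ↦ ?_⟩
      have h1 : (toLin' y) (v i) = g (μ i) • v i := by
        rw [toLin'_apply]
        exact hy i
      rw [AlgHom.toRingHom_eq_coe, RingHom.coe_coe, Module.End.aeval_apply_of_mem_apply_eq_smul (hsv i), hq, h1]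
    have h1 := congrArg LinearMap.toMatrix' hcomm.eq
    rw [LinearMap.toMatrix'_mul, LinearMap.toMatrix'_mul, LinearMap.toMatrix'_toLin'] at h1
    exact h1

end

end Pool.Agent.Helper883_Four
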