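import Mathlib
import Pool.Agent.Helper883_Four.LogTate

/-!
# The Tate side
-/

set_option linter.unusedSectionVars false

namespace Pool.Agent.Helper883_Four

open Matrix Pool.Agent.W437.HC

noncomputable section

variable {p N : ℕ} [hp : Fact p.Prime] {Γ : Type} [Group Γ] [TopologicalSpace Γ]
  [IsTopologicalGroup Γ] [CompactSpace Γ] {ρ : Γ →* Matrix (Fin N) (Fin N) ℚ_[p]}
  {χ : Γ →* ℚ_[p]} {Q : Matrix (Fin N) (Fin N) ℚ}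

theorem rho_inv (ρ : Γ →* Matrix (Fin N) (Fin N) ℚ_[p]) (s : Γ) : ρ s⁻¹ * ρ s = 1 := by
  rw [← map_mul, inv_mul_cancel, map_one]

theorem rho_inv' (ρ : Γ →* Matrix (Fin N) (Fin N) ℚ_[p]) (s : Γ) : ρ s * ρ s⁻¹ = 1 := by
  rw [← map_mul, mul_inv_cancel, map_one]

/-- A matrix defines a Tate class if an open subgroup multiplies it by the character. -/
theorem cls2_tate {M : Matrix (Fin N) (Fin N) ℚ_[p]} {Δ : Subgroup Γ} (hΔ : IsOpen (Δ : Set Γ))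
    (h : ∀ s ∈ Δ, (ρ s)ᵀ * M * ρ s = χ s • M) : cls2 M ∈ tate ρ χ 1 := by
  refine ⟨Δ, hΔ, fun s hs x => ?_⟩
  rw [evalF_cls, evalF_cls, pow_one]
  have h1 : (ρ s *ᵥ x 0) ⬝ᵥ (M *ᵥ (ρ s *ᵥ x 1)) = x 0 ⬝ᵥ (((ρ s)ᵀ * M * ρ s) *ᵥ x 1) := by
    rw [← mulVec_mulVec, ← mulVec_mulVec, dotProduct_mulVec (x 0), vecMul_transpose]
  have h2 := h s hs
  change (ρ s *ᵥ x 0) ⬝ᵥ (M *ᵥ (ρ s *ᵥ x 1)) = _
  rw [h1, h2, smul_mulVec, dotProduct_smul, smul_eq_mul]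

/-- The Lie algebra of the Tate classes is stable under conjugation. -/
theorem lie_tate_conj (s : Γ) {Y : Matrix (Fin N) (Fin N) ℚ_[p]} (hY : Y ∈ lie (tate ρ χ)) :
    ρ s * Y * ρ s⁻¹ ∈ lie (tate ρ χ) := by
  intro m c hc
  refine kills_conj (rho_inv' ρ s) (hY m _ ?_)
  obtain ⟨Δ, hΔ, hc⟩ := hc
  refine ⟨Δ.comap (MulAut.conj s).toMonoidHom, ?_, fun u hu x => ?_⟩
  · have h1 : Continuous (fun u : Γ => s * u * s⁻¹) := by fun_prop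
    exact hΔ.preimage h1
  · have hu' : s * u * s⁻¹ ∈ Δ := hu
    rw [evalF_pull, evalF_pull]
    have h1 := hc _ hu' (fun k => ρ s *ᵥ x k)
    have h2 : (fun k => ρ (s * u * s⁻¹) *ᵥ (ρ s *ᵥ x k)) = fun k => ρ s *ᵥ (ρ u *ᵥ x k) := by
      funext k
      rw [mulVec_mulVec, mulVec_mulVec, ← map_mul, ← map_mul, inv_mul_cancel_right]
    have h3 : χ (s * u * s⁻¹) = χ u := by
      rw [map_mul, map_mul, mul_comm (χ s), mul_assoc, ← map_mul, mul_inv_cancel, map_one, mul_one]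
    rw [h2, h3] at h1
    exact h1

variable (hQ : ∀ s, (ρ s)ᵀ * polar ℚ_[p] Q * ρ s = χ s • polar ℚ_[p] Q)
  (hu : IsUnit (polar ℚ_[p] Q)) (hρ : Continuous ρ) (hχ : Continuous χ)

include hQ in
theorem polar_tate : cls2 (polar ℚ_[p] Q) ∈ tate ρ χ 1 :=
  cls2_tate (Δ := ⊤) isOpen_univ fun s _ => hQ s

include hQ in
theorem QT_eq (s : Γ) : (ρ s)ᵀ * polar ℚ_[p] Q = χ s • (polar ℚ_[p] Q * ρ s⁻¹) := by
  have h1 : (ρ s)ᵀ * polar ℚ_[p] Q * ρ s * ρ s⁻¹ = χ s • (polar ℚ_[p] Q * ρ s⁻¹) := by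
    rw [hQ, smul_mul_assoc]
  rw [mul_assoc ((ρ s)ᵀ * polar ℚ_[p] Q), rho_inv', mul_one] at h1
  exact h1

include hQ in
/-- The Casimir class is a Tate class. -/
theorem theta_tate {P : Matrix (Fin N) (Fin N) ℚ_[p] →ₗ[ℚ_[p]] Matrix (Fin N) (Fin N) ℚ_[p]}
    (hP : ∀ s A, P (ρ s * A * ρ s⁻¹) = ρ s * P A * ρ s⁻¹) :
    (theta P (polar ℚ_[p] Q) : (Fin 4 → Fin N) → ℚ_[p]) ∈ tate ρ χ 2 := by
  refine ⟨⊤, isOpen_univ, fun s _ x => ?_⟩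
  have h1 : ∀ u v : Fin N → ℚ_[p], vecMulVec (ρ s *ᵥ u) (ρ s *ᵥ v) * polar ℚ_[p] Q =
      χ s • (ρ s * (vecMulVec u v * polar ℚ_[p] Q) * ρ s⁻¹) := by
    intro u v
    have h2 : vecMulVec (ρ s *ᵥ u) (ρ s *ᵥ v) = ρ s * vecMulVec u v * (ρ s)ᵀ := by
      rw [mul_vecMulVec, vecMulVec_mul, vecMul_transpose]
    rw [h2, mul_assoc, QT_eq hQ, mul_smul_comm]
    congr 1
    simp only [mul_assoc]
  have h3 : evalF (theta P (polar ℚ_[p] Q)) (fun k : Fin 4 => ρ s *ᵥ x k) =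
      χ s ^ 2 * evalF (theta P (polar ℚ_[p] Q)) (fun k : Fin 4 => x k) := by
    rw [evalF_theta, evalF_theta, h1, h1, map_smul, hP, smul_mul_assoc, mul_smul_comm, smul_smul,
      trace_smul, smul_eq_mul, ← sq]
    congr 1
    generalize P (vecMulVec (x 0) (x 1) * polar ℚ_[p] Q) = A
    generalize vecMulVec (x 2) (x 3) * polar ℚ_[p] Q = B
    have h4 : ρ s * A * ρ s⁻¹ * (ρ s * B * ρ s⁻¹) = ρ s * (A * (ρ s⁻¹ * ρ s) * B * ρ s⁻¹) := by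
      simp only [mul_assoc]
    rw [h4, rho_inv, mul_one, trace_mul_comm, mul_assoc, mul_assoc, rho_inv, mul_one]
  exact h3

include hQ in
/-- A matrix commuting with an open subgroup is a Tate endomorphism. -/
theorem endo_of_open {Z : Matrix (Fin N) (Fin N) ℚ_[p]} {Δ : Subgroup Γ}
    (hΔ : IsOpen (Δ : Set Γ)) (h : ∀ s ∈ Δ, ρ s * Z = Z * ρ s) : IsEndo Q (tate ρ χ) Z := by
  refine cls2_tate hΔ fun s hs => ?_
  have h1 : (ρ s)ᵀ * Zᵀ = Zᵀ * (ρ s)ᵀ := by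
    rw [← transpose_mul, ← transpose_mul, h s hs]
  rw [← mul_assoc, h1, mul_assoc, mul_assoc, ← mul_assoc (ρ s)ᵀ, hQ, mul_smul_comm]

include hQ hu hρ hχ in
/-- **The Tate side**, given an equivariant projection to the Lie algebra. -/
theorem tate_side_of {P : Matrix (Fin N) (Fin N) ℚ_[p] →ₗ[ℚ_[p]] Matrix (Fin N) (Fin N) ℚ_[p]}
    (hP1 : ∀ A, P A ∈ lie (tate ρ χ)) (hP2 : ∀ A ∈ lie (tate ρ χ), P A = A)
    (hP3 : ∀ s A, P (ρ s * A * ρ s⁻¹) = ρ s * P A * ρ s⁻¹) {F : Fam ℚ_[p] N}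
    (hFQ : cls2 (polar ℚ_[p] Q) ∈ F 1) (hF1 : tate ρ χ 1 ≤ F 1)
    (hF2 : (theta P (polar ℚ_[p] Q) : (Fin 4 → Fin N) → ℚ_[p]) ∈ F 2) :
    lie F ≤ lie (tate ρ χ) ⊔ centre Q (tate ρ χ) := by
  intro X hX
  have hth := theta_tate hQ hP3
  have hsk : ∀ Y ∈ lie (tate ρ χ), Yᵀ * polar ℚ_[p] Q + polar ℚ_[p] Q * Y = 0 := fun Y hY =>
    lie_skew (polar_tate hQ) hY
  have hcomm : ∀ Y ∈ lie (tate ρ χ), ∀ A, P (Y * A - A * Y) = Y * P A - P A * Y := by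
    intro Y hY
    have h1 : act Y (theta P (polar ℚ_[p] Q)) = 0 := hY 2 _ hth
    exact comm_of_act hu (hsk Y hY) h1
  have hXs : Xᵀ * polar ℚ_[p] Q + polar ℚ_[p] Q * X = 0 := lie_skew hFQ hX
  have hXk : act X (theta P (polar ℚ_[p] Q)) = 0 := hX 2 _ hF2
  have hXc := comm_of_act hu hXs hXk
  have hZ := core hP2 hcomm hXc
  have hE := hP1 X
  have hdec : X = P X + (X - P X) := by abel
  rw [hdec]
  obtain ⟨Δ, hΔ, hΔZ⟩ := comm_open hρ hχ hZ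
  refine Submodule.add_mem_sup hE ⟨endo_of_open hQ hΔ hΔZ, fun R hR => ?_, ?_⟩
  · have h1 := lie_comm (F := F) hu hXs (hX 1 _ (hF1 hR))
    have h2 := lie_comm (F := F) hu (hsk _ hE) (hE 1 _ hR)
    rw [sub_mul, mul_sub, h1, h2]
  · have h1 := hsk _ hE
    rw [transpose_sub, sub_mul, mul_sub]
    have h2 : Xᵀ * polar ℚ_[p] Q - (P X)ᵀ * polar ℚ_[p] Q +
        (polar ℚ_[p] Q * X - polar ℚ_[p] Q * P X) =
        (Xᵀ * polar ℚ_[p] Q + polar ℚ_[p] Q * X) -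
          ((P X)ᵀ * polar ℚ_[p] Q + polar ℚ_[p] Q * P X) := by abel
    rw [h2, hXs, h1, sub_zero]

end

end Pool.Agent.Helper883_Four
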