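import Mathlib
import Pool.Agent.Helper883_Four.Replica
import Pool.Agent.Helper883_Four.TMain

/-!
# The trace form on the Lie algebra of the Tate classes of a semisimple representation
-/

set_option linter.unusedSectionVars false

namespace Pool.Agent.Helper883_Four

open Matrix Module Pool.Agent.W437.HC

noncomputable section

section

variable {K : Type} [Field K] [CharZero K] {N : ℕ}

/-- An element of the radical of the trace form of the annihilator of a family of forms is
nilpotent. -/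
theorem nilpotent_of_trace {F : Fam K N} {X : Matrix (Fin N) (Fin N) K} (hX : X ∈ lie F)
    (htr : ∀ Y ∈ lie F, trace (X * Y) = 0) : IsNilpotent X := by
  classical
  let Ω := AlgebraicClosure K
  have hΩ : CharZero Ω := charZero_of_injective_algebraMap (algebraMap K Ω).injective
  let XΩ : Matrix (Fin N) (Fin N) Ω := X.map (algebraMap K Ω)
  obtain ⟨n, s, v, μ, hXns, hns, hn, hs, hcom⟩ := jordan XΩ
  -- all eigenvalues are zero
  have hμ : ∀ i, μ i = 0 := by
    have hf0 : ∀ (f : Ω →ₗ[ℚ] ℚ) (i : Fin N), f (μ i) = 0 := by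
      intro f
      let y : Matrix (Fin N) (Fin N) Ω :=
        LinearMap.toMatrix' (v.constr Ω (fun i => ((f (μ i) : ℚ) : Ω) • v i))
      have hy : ∀ i, y *ᵥ v i = ((f (μ i) : ℚ) : Ω) • v i := by
        intro i
        change LinearMap.toMatrix' (v.constr Ω (fun i => ((f (μ i) : ℚ) : Ω) • v i)) *ᵥ v i = _
        rw [LinearMap.toMatrix'_mulVec, Basis.constr_basis]
      -- the replica kills the forms
      have hkill : ∀ m, ∀ c ∈ F m, act y (fun I => algebraMap K Ω (c I)) = 0 := by
        intro m c hc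
        refine replica_kills hn hns v (μ := μ) (ν := fun i => ((f (μ i) : ℚ) : Ω)) hs hy ?_ ?_
        · intro J hJ
          have h1 := congrArg f hJ
          rw [map_sum, map_zero] at h1
          rw [← Rat.cast_sum, h1, Rat.cast_zero]
        · rw [← hXns]
          have h1 : act XΩ (fun I => algebraMap K Ω (c I)) =
              fun I => algebraMap K Ω (act X c I) := by
            funext I
            simp only [act, map_sum, map_mul]
            rfl
          rw [h1, hX m c hc]
          funext I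
          simp
      have hmem : ∀ lam : Ω →ₗ[K] K, y.map lam ∈ lie F := by
        intro lam m c hc
        funext I
        have h1 : act (y.map lam) c I = lam (act y (fun I => algebraMap K Ω (c I)) I) := by
          simp only [act, map_sum]
          refine Finset.sum_congr rfl fun k _ => Finset.sum_congr rfl fun j _ => ?_
          rw [mul_comm (y j (I k)), ← Algebra.smul_def, map_smul, smul_eq_mul, mul_comm]
          rfl
        rw [h1, hkill m c hc]
        simp
      have htr0 : trace (XΩ * y) = 0 := by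
        rw [← Module.forall_dual_apply_eq_zero_iff K]
        intro lam
        have h1 : lam (trace (XΩ * y)) = trace (X * y.map lam) := by
          simp only [trace, diag_apply, mul_apply, map_sum]
          refine Finset.sum_congr rfl fun i _ => Finset.sum_congr rfl fun j _ => ?_
          have h2 : XΩ i j * y j i = X i j • y j i := by
            rw [Algebra.smul_def]
            rfl
          rw [h2, map_smul, smul_eq_mul]
          rfl
        rw [h1]
        exact htr _ (hmem lam)
      have hny : n * y = y * n := hcom (fun z => ((f z : ℚ) : Ω)) y hy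
      have h1 : trace (n * y) = 0 := by
        have h2 : IsNilpotent (n * y) := Commute.isNilpotent_mul_right hny hn
        exact (Matrix.isNilpotent_trace_of_isNilpotent h2).eq_zero
      have h2 : trace (s * y) = ∑ i, ((f (μ i) : ℚ) : Ω) * μ i := by
        have h3 : trace (s * y) = LinearMap.trace Ω (Fin N → Ω) (toLin' (s * y)) := by
          rw [trace_toLin'_eq]
        rw [h3, LinearMap.trace_eq_matrix_trace Ω v, Matrix.trace]
        refine Finset.sum_congr rfl fun i _ => ?_
        rw [diag_apply, LinearMap.toMatrix_apply, toLin'_apply, ← mulVec_mulVec, hy, mulVec_smul,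
          hs, map_smul, map_smul, Basis.repr_self]
        simp
      have h3 : ∑ i, ((f (μ i) : ℚ) : Ω) * μ i = 0 := by
        rw [← h2]
        have h4 : trace (XΩ * y) = trace (n * y) + trace (s * y) := by
          rw [hXns, add_mul, trace_add]
        rw [htr0, h1, zero_add] at h4
        exact h4.symm
      have h4 : ∑ i, f (μ i) * f (μ i) = 0 := by
        have h5 := congrArg f h3
        rw [map_sum, map_zero] at h5
        rw [← h5]
        refine Finset.sum_congr rfl fun i _ => ?_
        have h6 : ((f (μ i) : ℚ) : Ω) * μ i = (f (μ i)) • μ i := by rw [Rat.smul_def]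
        rw [h6, map_smul, smul_eq_mul]
      intro i
      have h5 := (Finset.sum_eq_zero_iff_of_nonneg (fun i _ => mul_self_nonneg (f (μ i)))).1 h4 i
        (Finset.mem_univ i)
      exact mul_self_eq_zero.1 h5
    intro i
    rw [← Module.forall_dual_apply_eq_zero_iff ℚ (μ i)]
    intro f
    exact hf0 f i
  have hs0 : s = 0 := by
    apply toLin'.injective
    refine v.ext fun i => ?_
    rw [toLin'_apply, hs, hμ, zero_smul, map_zero]
    rfl
  have h1 : IsNilpotent XΩ := by
    rw [hXns, hs0, add_zero]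
    exact hn
  obtain ⟨r, hr⟩ := h1
  refine ⟨r, ?_⟩
  have h2 : (X ^ r).map (algebraMap K Ω) = 0 := by
    rw [← hr]
    exact (map_pow (RingHom.mapMatrix (algebraMap K Ω)) X r)
  ext i j
  have h3 := congrFun (congrFun h2 i) j
  rw [Matrix.map_apply, Matrix.zero_apply] at h3
  exact (map_eq_zero_iff _ (algebraMap K Ω).injective).1 h3

attribute [local instance 100] LieRing.ofAssociativeRing

/-- Engel's theorem: if a Lie algebra of nilpotent endomorphisms preserves a complement of its
common kernel then it is zero. -/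
theorem zero_of_engel (𝔰 : Submodule K (Module.End K (Fin N → K)))
    (hbr : ∀ X ∈ 𝔰, ∀ Y ∈ 𝔰, X * Y - Y * X ∈ 𝔰) (hnil : ∀ X ∈ 𝔰, IsNilpotent X)
    (U : Submodule K (Fin N → K)) (hU : ∀ X ∈ 𝔰, ∀ u ∈ U, X u ∈ U)
    (hinf : ∀ u ∈ U, (∀ X ∈ 𝔰, X u = 0) → u = 0)
    (hsup : ∀ w, ∃ a, (∀ X ∈ 𝔰, X a = 0) ∧ ∃ b ∈ U, w = a + b) : ∀ X ∈ 𝔰, X = 0 := by
  by_cases hbot : U = ⊥
  · intro X hX
    refine LinearMap.ext fun w => ?_
    obtain ⟨a, ha, b, hb, hw⟩ := hsup w
    rw [hbot, Submodule.mem_bot] at hb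
    rw [hw, hb, add_zero, ha X hX, LinearMap.zero_apply]
  · exfalso
    let L : LieSubalgebra K (Module.End K (Fin N → K)) :=
      { 𝔰 with
        lie_mem' := by
          intro X Y hX hY
          exact hbr X hX Y hY }
    let M : LieSubmodule K L (Fin N → K) :=
      { U with
        lie_mem := by
          intro X u hu
          exact hU X.1 X.2 u hu }
    have hM : Nontrivial M := by
      obtain ⟨u, hu, hu0⟩ := Submodule.exists_mem_ne_zero_of_ne_bot hbot
      exact ⟨⟨⟨u, hu⟩, 0, fun h => hu0 (congrArg (fun x : M => (x : Fin N → K)) h)⟩⟩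
    have hnilp : LieModule.IsNilpotent L M := by
      rw [LieModule.isNilpotent_iff_forall (R := K)]
      intro X
      obtain ⟨n, hn⟩ := hnil X.1 X.2
      refine ⟨n, ?_⟩
      have h1 : ∀ (j : ℕ) (u : M),
          (((LieModule.toEnd K L M X) ^ j) u : Fin N → K) = (X.1 ^ j) (u : Fin N → K) := by
        intro j
        induction j with
        | zero => intro u; simp
        | succ j ih =>
          intro u
          rw [pow_succ, pow_succ, Module.End.mul_apply, Module.End.mul_apply, ih]
          rfl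
      ext1 u
      apply Subtype.ext
      rw [h1, hn]
      rfl
    have _ := LieModule.nontrivial_max_triv_of_isNilpotent K L M
    obtain ⟨x, hx⟩ := exists_ne (0 : LieModule.maxTrivSubmodule K L M)
    apply hx
    have h1 : (x.1 : Fin N → K) = 0 := by
      refine hinf _ x.1.2 fun X hX => ?_
      have h2 := x.2
      rw [LieModule.mem_maxTrivSubmodule] at h2
      have h3 := h2 ⟨X, hX⟩
      exact congrArg (fun u : M => (u : Fin N → K)) h3
    exact Subtype.ext (Subtype.ext h1)

end

section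

variable {p N : ℕ} [hp : Fact p.Prime] {Γ : Type} [Group Γ] [TopologicalSpace Γ]
  [IsTopologicalGroup Γ] [CompactSpace Γ] {ρ : Γ →* Matrix (Fin N) (Fin N) ℚ_[p]}
  {χ : Γ →* ℚ_[p]} {Q : Matrix (Fin N) (Fin N) ℚ}

/-- The trace form is nondegenerate on the Lie algebra of the Tate classes. -/
theorem nondeg_tate (hQ : ∀ s, (ρ s)ᵀ * polar ℚ_[p] Q * ρ s = χ s • polar ℚ_[p] Q)
    (hu : IsUnit (polar ℚ_[p] Q)) (hss : Semisimple ρ) {X : Matrix (Fin N) (Fin N) ℚ_[p]}
    (hX : X ∈ lie (tate ρ χ)) (htr : ∀ Y ∈ lie (tate ρ χ), trace (X * Y) = 0) : X = 0 := by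
  classical
  -- the radical
  let I : Submodule ℚ_[p] (Matrix (Fin N) (Fin N) ℚ_[p]) :=
    { carrier := {X | X ∈ lie (tate ρ χ) ∧ ∀ Y ∈ lie (tate ρ χ), trace (X * Y) = 0}
      zero_mem' := ⟨Submodule.zero_mem _, fun Y _ => by rw [zero_mul, trace_zero]⟩
      add_mem' := by
        rintro A B ⟨hA, hA'⟩ ⟨hB, hB'⟩
        refine ⟨Submodule.add_mem _ hA hB, fun Y hY => ?_⟩
        rw [add_mul, trace_add, hA' Y hY, hB' Y hY, add_zero]
      smul_mem' := by
        rintro c A ⟨hA, hA'⟩
        refine ⟨Submodule.smul_mem _ c hA, fun Y hY => ?_⟩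
        rw [smul_mul_assoc, trace_smul, hA' Y hY, smul_zero] }
  have hIbr : ∀ A ∈ I, ∀ B ∈ I, A * B - B * A ∈ I := by
    rintro A ⟨hA, hA'⟩ B ⟨hB, _⟩
    refine ⟨lie_bracket hA hB, fun Y hY => ?_⟩
    have h1 := hA' _ (lie_bracket hB hY)
    rw [mul_sub, trace_sub] at h1
    rw [sub_mul, trace_sub, mul_assoc, mul_assoc, trace_mul_comm B (A * Y), mul_assoc]
    exact h1
  have hIconj : ∀ s : Γ, ∀ A ∈ I, ρ s * A * ρ s⁻¹ ∈ I := by
    rintro s A ⟨hA, hA'⟩
    refine ⟨lie_tate_conj s hA, fun Y hY => ?_⟩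
    have h1 := lie_tate_conj s⁻¹ hY
    rw [inv_inv] at h1
    have h2 := hA' _ h1
    rw [← h2]
    have h3 : ρ s * A * ρ s⁻¹ * Y = ρ s * (A * ρ s⁻¹ * Y) := by simp only [mul_assoc]
    have h4 : A * (ρ s⁻¹ * Y * ρ s) = (A * ρ s⁻¹ * Y) * ρ s := by simp only [mul_assoc]
    rw [h3, h4, trace_mul_comm]
  have hInil : ∀ A ∈ I, IsNilpotent A := fun A hA => nilpotent_of_trace hA.1 hA.2
  -- the common kernel
  let W₀ : Submodule ℚ_[p] (Fin N → ℚ_[p]) :=
    { carrier := {w | ∀ A ∈ I, A *ᵥ w = 0}
      zero_mem' := fun A _ => mulVec_zero A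
      add_mem' := by
        intro a b ha hb A hA
        rw [mulVec_add, ha A hA, hb A hA, add_zero]
      smul_mem' := by
        intro c a ha A hA
        rw [mulVec_smul, ha A hA, smul_zero] }
  have hW₀ : ∀ s, ∀ w ∈ W₀, ρ s *ᵥ w ∈ W₀ := by
    intro s w hw A hA
    have h1 := hw _ (hIconj s⁻¹ A hA)
    rw [inv_inv] at h1
    have h2 : A *ᵥ (ρ s *ᵥ w) = ρ s *ᵥ ((ρ s⁻¹ * A * ρ s) *ᵥ w) := by
      rw [mulVec_mulVec, mulVec_mulVec]
      congr 1
      rw [← mul_assoc, ← mul_assoc, rho_inv', one_mul]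
    rw [h2, h1, mulVec_zero]
  obtain ⟨U, hU, hc⟩ := hss W₀ hW₀
  -- the projection
  let q := W₀.projection U hc
  have hqmem : ∀ w, q w ∈ W₀ := fun w => Submodule.projection_apply_mem hc w
  have hqid : ∀ w ∈ W₀, q w = w := fun w hw => Submodule.projection_apply_of_mem_left hc hw
  have hqU : ∀ w, q w = 0 ↔ w ∈ U := fun w => Submodule.projection_apply_eq_zero_iff hc
  have hqU' : ∀ w, w - q w ∈ U := by
    intro w
    rw [← hqU, map_sub, hqid _ (hqmem w), sub_self]
  have hqρ : ∀ s w, q (ρ s *ᵥ w) = ρ s *ᵥ q w := by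
    intro s w
    have h1 : ρ s *ᵥ w = ρ s *ᵥ q w + ρ s *ᵥ (w - q w) := by
      rw [← mulVec_add, add_sub_cancel]
    rw [h1, map_add, (hqU _).2 (hU s _ (hqU' w)), add_zero, hqid _ (hW₀ s _ (hqmem w))]
  let qM := LinearMap.toMatrix' q
  have hqM : ∀ w, qM *ᵥ w = q w := fun w => LinearMap.toMatrix'_mulVec q w
  have hend : IsEndo Q (tate ρ χ) qM := by
    refine endo_of_open hQ (Δ := ⊤) isOpen_univ fun s _ => ?_
    apply toLin'.injective
    refine LinearMap.ext fun w => ?_
    rw [toLin'_apply, toLin'_apply, ← mulVec_mulVec, ← mulVec_mulVec, hqM, hqM, hqρ]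
  have hcomm : ∀ A ∈ I, A * qM = qM * A := by
    intro A hA
    exact lie_comm (F := tate ρ χ) hu (lie_skew (polar_tate hQ) hA.1) (hA.1 1 _ hend)
  have hIU : ∀ A ∈ I, ∀ u ∈ U, A *ᵥ u ∈ U := by
    intro A hA u hu'
    rw [← hqU, ← hqM, mulVec_mulVec, ← hcomm A hA, ← mulVec_mulVec, hqM, (hqU u).2 hu',
      mulVec_zero]
  -- Engel
  have hfin := zero_of_engel (I.map (toLinAlgEquiv' (R := ℚ_[p]) (n := Fin N)).toLinearMap) ?_ ?_ U
    ?_ ?_ ?_
  · have h1 := hfin (toLinAlgEquiv' X) ⟨X, ⟨hX, htr⟩, rfl⟩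
    exact (toLinAlgEquiv' (R := ℚ_[p]) (n := Fin N)).injective (h1.trans (map_zero _).symm)
  · rintro _ ⟨A, hA, rfl⟩ _ ⟨B, hB, rfl⟩
    refine ⟨A * B - B * A, hIbr A hA B hB, ?_⟩
    change toLinAlgEquiv' (A * B - B * A) = _
    rw [map_sub, map_mul, map_mul]
    rfl
  · rintro _ ⟨A, hA, rfl⟩
    exact (hInil A hA).map (toLinAlgEquiv' (R := ℚ_[p]) (n := Fin N))
  · rintro _ ⟨A, hA, rfl⟩ u hu'
    exact hIU A hA u hu'
  · intro u hu' h
    have h1 : u ∈ W₀ := fun A hA => h _ ⟨A, hA, rfl⟩
    have h2 : u ∈ W₀ ⊓ U := ⟨h1, hu'⟩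
    rwa [hc.inf_eq_bot, Submodule.mem_bot] at h2
  · intro w
    refine ⟨q w, ?_, w - q w, hqU' w, by abel⟩
    rintro _ ⟨A, hA, rfl⟩
    exact hqmem w A hA

end

end

end Pool.Agent.Helper883_Four
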