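import Mathlib
import Pool.Agent.Helper883_Four.HMain
import Pool.Agent.Helper883_Four.Nondeg

/-!
# The main theorem
-/

set_option linter.unusedSectionVars false

namespace Pool.Agent.Helper883_Four

open Matrix Module Pool.Agent.W437.HC

noncomputable section

section

variable {K : Type} [Field K] [CharZero K] {N : ℕ}

theorem cls2_surj (c : (Fin (2 * 1) → Fin N) → K) :
    c = cls2 (Matrix.of fun i j => c ![i, j]) := by
  funext I
  have h1 : (![I 0, I 1] : Fin 2 → Fin N) = I := by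
    funext k
    fin_cases k <;> rfl
  change c I = c ![I 0, I 1]
  rw [h1]

/-- Every class of degree two is given by an endomorphism. -/
theorem exists_endo {Q : Matrix (Fin N) (Fin N) ℚ} (hu : IsUnit (polar K Q)) {F : Fam K N}
    {c : (Fin (2 * 1) → Fin N) → K} (hc : c ∈ F 1) :
    ∃ P, IsEndo Q F P ∧ c = cls2 (Pᵀ * polar K Q) := by
  set M : Matrix (Fin N) (Fin N) K := Matrix.of fun i j => c ![i, j] with hM
  have h1 : c = cls2 M := cls2_surj c
  have hdet : IsUnit (polar K Q).det := (Matrix.isUnit_iff_isUnit_det _).1 hu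
  have h2 : ((M * (polar K Q)⁻¹)ᵀ)ᵀ * polar K Q = M := by
    rw [transpose_transpose, mul_assoc, nonsing_inv_mul _ hdet, mul_one]
  refine ⟨(M * (polar K Q)⁻¹)ᵀ, ?_, ?_⟩
  · unfold IsEndo
    rw [h2, ← h1]
    exact hc
  · rw [h2]
    exact h1

/-- Central antisymmetric endomorphisms annihilate the classes of degree two. -/
theorem centre_kills {Q : Matrix (Fin N) (Fin N) ℚ} (hu : IsUnit (polar K Q)) {F : Fam K N}
    {Z : Matrix (Fin N) (Fin N) K} (hZ : Z ∈ centre Q F) {c : (Fin (2 * 1) → Fin N) → K}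
    (hc : c ∈ F 1) : act Z c = 0 := by
  obtain ⟨P, hP, rfl⟩ := exists_endo hu hc
  obtain ⟨_, h2, h3⟩ := hZ
  rw [act_cls_iff]
  have h4 : polar K Q * Z = -(Zᵀ * polar K Q) := (neg_eq_of_add_eq_zero_right h3).symm
  rw [mul_assoc Pᵀ, h4, mul_neg, ← mul_assoc, ← mul_assoc, ← transpose_mul, ← transpose_mul,
    h2 P hP, add_neg_cancel]

/-- The annihilator of the classes of degree two and of the Casimir class. -/
theorem ann_eq {Q : Matrix (Fin N) (Fin N) ℚ} (hu : IsUnit (polar K Q)) {F : Fam K N}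
    (hQF : cls2 (polar K Q) ∈ F 1)
    {P : Matrix (Fin N) (Fin N) K →ₗ[K] Matrix (Fin N) (Fin N) K} (hP1 : ∀ A, P A ∈ lie F)
    (hP2 : ∀ A ∈ lie F, P A = A)
    (hP3 : ∀ X, (∀ Y ∈ lie F, X * Y - Y * X ∈ lie F) →
      ∀ A, P (X * A - A * X) = X * P A - P A * X)
    (hθ : (theta P (polar K Q) : (Fin 4 → Fin N) → K) ∈ F 2)
    (hZ : ∀ Z, (∀ Y ∈ lie F, Z * Y = Y * Z) → IsEndo Q F Z) :
    annTwo F (theta P (polar K Q) : (Fin 4 → Fin N) → K) = lie F ⊔ centre Q F := by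
  have hsk : ∀ Y ∈ lie F, Yᵀ * polar K Q + polar K Q * Y = 0 := fun Y hY => lie_skew hQF hY
  apply le_antisymm
  · rintro X ⟨hX1, hX2⟩
    have hXs : Xᵀ * polar K Q + polar K Q * X = 0 := (act_cls_iff X _).1 (hX1 _ hQF)
    have hXc := comm_of_act hu hXs hX2
    have hcomm : ∀ Y ∈ lie F, ∀ A, P (Y * A - A * Y) = Y * P A - P A * Y := fun Y hY =>
      hP3 Y fun Y' hY' => lie_bracket hY hY'
    have hZc := core hP2 hcomm hXc
    have hE := hP1 X
    have hdec : X = P X + (X - P X) := by abel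
    rw [hdec]
    refine Submodule.add_mem_sup hE ⟨hZ _ hZc, fun R hR => ?_, ?_⟩
    · have h1 := lie_comm (F := F) hu hXs (hX1 _ hR)
      have h2 := lie_comm (F := F) hu (hsk _ hE) (hE 1 _ hR)
      rw [sub_mul, mul_sub, h1, h2]
    · have h1 := hsk _ hE
      rw [transpose_sub, sub_mul, mul_sub]
      have h2 : Xᵀ * polar K Q - (P X)ᵀ * polar K Q + (polar K Q * X - polar K Q * P X) =
          (Xᵀ * polar K Q + polar K Q * X) -
            ((P X)ᵀ * polar K Q + polar K Q * P X) := by abel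
      rw [h2, hXs, h1, sub_zero]
  · rw [sup_le_iff]
    refine ⟨fun X hX => ⟨fun c hc => hX 1 c hc, hX 2 _ hθ⟩, fun Z hZc => ⟨fun c hc =>
      centre_kills hu hZc hc, ?_⟩⟩
    refine act_theta_eq_zero hZc.2.2 (hP3 Z fun Y hY => ?_)
    have h1 : Y * Z = Z * Y := lie_comm (F := F) hu (hsk Y hY) (hY 1 _ hZc.1)
    rw [h1, sub_self]
    exact Submodule.zero_mem _

/-- The central part depends only on the classes of degree two. -/
theorem centre_congr {Q : Matrix (Fin N) (Fin N) ℚ} {F F' : Fam K N} (h : F 1 = F' 1) :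
    centre Q F = centre Q F' := by
  have h1 : ∀ P, IsEndo Q F P ↔ IsEndo Q F' P := by
    intro P
    unfold IsEndo
    rw [h]
  ext Z
  constructor
  · rintro ⟨h2, h3, h4⟩
    exact ⟨(h1 Z).1 h2, fun P hP => h3 P ((h1 P).2 hP), h4⟩
  · rintro ⟨h2, h3, h4⟩
    exact ⟨(h1 Z).2 h2, fun P hP => h3 P ((h1 P).1 hP), h4⟩

theorem lam_mul_left (lam : K →ₗ[ℚ] ℚ) (Z : Matrix (Fin N) (Fin N) K)
    (M : Matrix (Fin N) (Fin N) ℚ) (i j : Fin N) :
    lam ((Z * M.map (fun q : ℚ => (q : K))) i j) = (Z.map lam * M) i j := by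
  simp only [mul_apply, map_sum, Matrix.map_apply]
  refine Finset.sum_congr rfl fun k _ => ?_
  rw [lam_cst]

theorem lam_mul_right (lam : K →ₗ[ℚ] ℚ) (Z : Matrix (Fin N) (Fin N) K)
    (M : Matrix (Fin N) (Fin N) ℚ) (i j : Fin N) :
    lam ((M.map (fun q : ℚ => (q : K)) * Z) i j) = (M * Z.map lam) i j := by
  simp only [mul_apply, map_sum, Matrix.map_apply]
  refine Finset.sum_congr rfl fun k _ => ?_
  rw [mul_comm, lam_cst, mul_comm]

/-- If there is no central part over the rational numbers there is none over extensions. -/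
theorem centre_ext {Q : Matrix (Fin N) (Fin N) ℚ} {A : Fam ℚ N} (h : centre Q A = ⊥) :
    centre Q (ext K A) = ⊥ := by
  rw [eq_bot_iff]
  rintro Z ⟨h1, h2, h3⟩
  have hpol : polar ℚ Q = Q := by
    ext i j
    simp [polar]
  have hlam : ∀ lam : K →ₗ[ℚ] ℚ, Z.map lam = 0 := by
    intro lam
    have h4 : Z.map lam ∈ centre Q A := by
      refine ⟨?_, fun P hP => ?_, ?_⟩
      · have h5 := lam_ext h1 lam
        have h6 : (fun I => lam (cls2 (Zᵀ * polar K Q) I)) =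
            cls2 ((Z.map lam)ᵀ * polar ℚ Q) := by
          funext I
          rw [hpol]
          exact lam_mul_left lam Zᵀ Q (I 0) (I 1)
        rw [h6] at h5
        exact h5
      · have h5 : IsEndo Q (ext K A) (P.map (fun q : ℚ => (q : K))) := by
          refine Submodule.subset_span ⟨_, hP, ?_⟩
          funext I
          simp [cst, cls2, mul_apply, polar]
        have h6 := h2 _ h5
        ext i j
        rw [← lam_mul_left, ← lam_mul_right, h6]
      · ext i j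
        rw [hpol]
        have h5 := congrArg lam (congrFun (congrFun h3 i) j)
        rw [Matrix.add_apply, map_add, Matrix.zero_apply, map_zero] at h5
        have h6 : lam ((Zᵀ * polar K Q) i j) = ((Z.map lam)ᵀ * Q) i j :=
          lam_mul_left lam Zᵀ Q i j
        have h7 : lam ((polar K Q * Z) i j) = (Q * Z.map lam) i j := lam_mul_right lam Z Q i j
        rw [h6, h7] at h5
        exact h5
    rw [h, Submodule.mem_bot] at h4
    exact h4
  rw [Submodule.mem_bot]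
  ext i j
  refine eq_zero_of_lams fun lam => ?_
  exact congrFun (congrFun (hlam lam) i) j

theorem lie_anti {F F' : Fam K N} (h : ∀ m, F m ≤ F' m) : lie F' ≤ lie F :=
  fun _ hX m c hc => hX m c (h m hc)

end

section

variable {N : ℕ} (W : PolHS N)

/-- The Hodge side. -/
theorem PolHS.hodge_ann : ∃ h ∈ hodge W 2,
    annTwo (hodge W) h = lie (hodge W) ⊔ centre W.Q (hodge W) := by
  obtain ⟨P, hP1, hP2, hP3, _⟩ := exists_proj (lie (hodge W)) (fun X hX h => W.nondeg hX h)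
  have hθ : (theta P (polar ℚ W.Q) : (Fin 4 → Fin N) → ℚ) ∈ hodge W 2 :=
    W.mem_hodge (m := 2) fun Y hY => act_theta_eq_zero (lie_skew W.polar_mem hY)
      (hP3 Y fun Y' hY' => lie_bracket hY hY')
  exact ⟨_, hθ, ann_eq (W.polar_unit ℚ) W.polar_mem hP1 hP2 hP3 hθ
    fun Z hZ => W.endo_of_comm hZ⟩

variable {p : ℕ} [hp : Fact p.Prime] {Γ : Type} [Group Γ] [TopologicalSpace Γ]
  [IsTopologicalGroup Γ] [CompactSpace Γ] {ρ : Γ →* Matrix (Fin N) (Fin N) ℚ_[p]}
  {χ : Γ →* ℚ_[p]}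

/-- The Tate side. -/
theorem tate_ann {Q : Matrix (Fin N) (Fin N) ℚ} (hρ : Continuous ρ) (hχ : Continuous χ)
    (hQ : ∀ s, (ρ s)ᵀ * polar ℚ_[p] Q * ρ s = χ s • polar ℚ_[p] Q)
    (hu : IsUnit (polar ℚ_[p] Q)) (hss : Semisimple ρ) : ∃ t ∈ tate ρ χ 2,
    annTwo (tate ρ χ) t = lie (tate ρ χ) ⊔ centre Q (tate ρ χ) := by
  obtain ⟨P, hP1, hP2, hP3, hP4⟩ := exists_proj (lie (tate ρ χ))
    (fun X hX h => nondeg_tate hQ hu hss hX h)
  have hPρ : ∀ s A, P (ρ s * A * ρ s⁻¹) = ρ s * P A * ρ s⁻¹ := by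
    intro s
    refine hP4 (ρ s) (ρ s⁻¹) (rho_inv ρ s) (rho_inv' ρ s) (fun Y hY => lie_tate_conj s hY)
      fun Y hY => ?_
    have h1 := lie_tate_conj s⁻¹ hY
    rwa [inv_inv] at h1
  have hθ := theta_tate hQ hPρ
  refine ⟨_, hθ, ann_eq hu (polar_tate hQ) hP1 hP2 hP3 hθ fun Z hZ => ?_⟩
  obtain ⟨Δ, hΔ, hΔZ⟩ := comm_open hρ hχ hZ
  exact endo_of_open hQ hΔ hΔZ

/-- A family of rational classes with given classes of degree two. -/
theorem PolHS.motivated {h : (Fin (2 * 2) → Fin N) → ℚ} (hh : h ∈ hodge W 2)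
    (hann : annTwo (hodge W) h = lie (hodge W) ⊔ centre W.Q (hodge W))
    {t : (Fin (2 * 2) → Fin N) → ℚ_[p]} (ht : t ∈ tate ρ χ 2)
    (tann : annTwo (tate ρ χ) t = lie (tate ρ χ) ⊔ centre W.Q (tate ρ χ)) {A : Fam ℚ N}
    (hA : ∀ m, A m ≤ hodge W m) (hA' : ∀ m, ext ℚ_[p] A m ≤ tate ρ χ m)
    (hA1 : hodge W 1 ≤ A 1) (hA1' : tate ρ χ 1 ≤ ext ℚ_[p] A 1) (hIV : centre W.Q A = ⊥) :
    ((∀ X ∈ lie A, act X h = 0) ↔ lie A = lie (hodge W)) ∧
      ((∀ X ∈ lie (ext ℚ_[p] A), act X t = 0) ↔ lie (ext ℚ_[p] A) = lie (tate ρ χ)) := by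
  refine ⟨⟨fun hX => ?_, fun heq X hX => ?_⟩, ⟨fun hX => ?_, fun heq X hX => ?_⟩⟩
  · apply le_antisymm _ (lie_anti hA)
    have h1 : centre W.Q (hodge W) = ⊥ := by
      rw [← hIV]
      exact centre_congr (le_antisymm hA1 (hA 1))
    rw [h1, sup_bot_eq] at hann
    rw [← hann]
    exact fun X hX' => ⟨fun c hc => hX' 1 c (hA1 hc), hX X hX'⟩
  · rw [heq] at hX
    exact hX 2 h hh
  · apply le_antisymm _ (lie_anti hA')
    have h1 : centre W.Q (tate ρ χ) = ⊥ := by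
      rw [← centre_ext (K := ℚ_[p]) hIV]
      exact centre_congr (le_antisymm hA1' (hA' 1))
    rw [h1, sup_bot_eq] at tann
    rw [← tann]
    exact fun X hX' => ⟨fun c hc => hX' 1 c (hA1' hc), hX X hX'⟩
  · rw [heq] at hX
    exact hX 2 t ht

/-- The case of Hodge classes. -/
theorem PolHS.abelian {t : (Fin (2 * 2) → Fin N) → ℚ_[p]} (ht : t ∈ tate ρ χ 2)
    (tann : annTwo (tate ρ χ) t = lie (tate ρ χ) ⊔ centre W.Q (tate ρ χ))
    (hD : ∀ m, ext ℚ_[p] (hodge W) m ≤ tate ρ χ m) (hF : tate ρ χ 1 ≤ ext ℚ_[p] (hodge W) 1)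
    (hC : ∀ Z ∈ centre W.Q (tate ρ χ), Z ∈ lie (ext ℚ_[p] (hodge W)) → Z ∈ lie (tate ρ χ)) :
    t ∈ ext ℚ_[p] (hodge W) 2 ↔ ∀ m, tate ρ χ m ≤ ext ℚ_[p] (hodge W) m := by
  refine ⟨fun htH => ?_, fun h => h 2 ht⟩
  have hle : lie (ext ℚ_[p] (hodge W)) ≤ lie (tate ρ χ) := by
    intro X hX
    have h1 : X ∈ annTwo (tate ρ χ) t := ⟨fun c hc => hX 1 c (hF hc), hX 2 t htH⟩
    rw [tann, Submodule.mem_sup] at h1
    obtain ⟨E, hE, Z, hZ, rfl⟩ := h1
    refine Submodule.add_mem _ hE (hC Z hZ ?_)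
    have h2 := Submodule.sub_mem _ hX (lie_anti hD hE)
    rwa [add_sub_cancel_left] at h2
  intro m c hc
  refine mem_ext_of_lam fun lam => W.mem_hodge fun X hX => ?_
  have h1 := hle (cast_mem_lie (K := ℚ_[p]) hX) m c hc
  funext I
  have h2 : act X (fun I => lam (c I)) I = lam (act (X.map (fun q : ℚ => (q : ℚ_[p]))) c I) := by
    simp only [act, map_sum]
    refine Finset.sum_congr rfl fun k _ => Finset.sum_congr rfl fun j _ => ?_
    rw [Matrix.map_apply, mul_comm ((X j (I k) : ℚ) : ℚ_[p]), lam_cst, mul_comm]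
  rw [h2, h1]
  simp

end

end

end Pool.Agent.Helper883_Four
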