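import Mathlib
import Pool.Agent.Helper883_Four.Final

/-!
# Squares of classes of degree two
-/

set_option linter.unusedSectionVars false

namespace Pool.Agent.Helper883_Four

open Matrix Module Pool.Agent.W437.HC

noncomputable section

section

variable {K : Type} [Field K] {N : ℕ}

/-- The tensor square of a class of degree two. -/
def sq (c : (Fin (2 * 1) → Fin N) → K) : (Fin (2 * 2) → Fin N) → K :=
  fun I => c ![I 0, I 1] * c ![I 2, I 3]

theorem evalF_two (c : (Fin 2 → Fin N) → K) (x : Fin 2 → Fin N → K) :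
    evalF c x = ∑ a, ∑ b, c ![a, b] * (x 0 a * x 1 b) := by
  unfold evalF
  rw [← (finTwoArrowEquiv (Fin N)).symm.sum_comp, Fintype.sum_prod_type]
  refine Finset.sum_congr rfl fun a _ => Finset.sum_congr rfl fun b _ => ?_
  rw [Fin.prod_univ_two]
  rfl

theorem evalF_four (c : (Fin 4 → Fin N) → K) (x : Fin 4 → Fin N → K) :
    evalF c x = ∑ a, ∑ b, ∑ d, ∑ e, c ![a, b, d, e] * (x 0 a * x 1 b * x 2 d * x 3 e) := by
  unfold evalF
  have h1 : ∀ F : (Fin 4 → Fin N) → K, ∑ I, F I = ∑ a, ∑ b, ∑ c, ∑ d, F ![a, b, c, d] := by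
    intro F
    rw [← (Fin.consEquiv (fun _ : Fin 4 => Fin N)).sum_comp, Fintype.sum_prod_type]
    refine Finset.sum_congr rfl fun a _ => ?_
    rw [← (Fin.consEquiv (fun _ : Fin 3 => Fin N)).sum_comp, Fintype.sum_prod_type]
    refine Finset.sum_congr rfl fun b _ => ?_
    rw [← (Fin.consEquiv (fun _ : Fin 2 => Fin N)).sum_comp, Fintype.sum_prod_type]
    refine Finset.sum_congr rfl fun c _ => ?_
    rw [← (Fin.consEquiv (fun _ : Fin 1 => Fin N)).sum_comp, Fintype.sum_prod_type]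
    refine Finset.sum_congr rfl fun d _ => ?_
    rw [Fintype.sum_unique]
    congr 1
  rw [h1]
  refine Finset.sum_congr rfl fun a _ => Finset.sum_congr rfl fun b _ =>
    Finset.sum_congr rfl fun d _ => Finset.sum_congr rfl fun e _ => ?_
  rw [Fin.prod_univ_four]
  rfl

/-- The values of the square. -/
theorem evalF_sq (c : (Fin (2 * 1) → Fin N) → K) (x : Fin (2 * 2) → Fin N → K) :
    evalF (sq c) x = evalF c ![x 0, x 1] * evalF c ![x 2, x 3] := by
  have h1 : evalF (sq c) x = ∑ a, ∑ b, ∑ d, ∑ e, c ![a, b] * c ![d, e] *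
      (x 0 a * x 1 b * x 2 d * x 3 e) := evalF_four (sq c) x
  have h2 : evalF c ![x 0, x 1] = ∑ a, ∑ b, c ![a, b] * (x 0 a * x 1 b) :=
    evalF_two c ![x 0, x 1]
  have h3 : evalF c ![x 2, x 3] = ∑ a, ∑ b, c ![a, b] * (x 2 a * x 3 b) :=
    evalF_two c ![x 2, x 3]
  rw [h1, h2, h3, Finset.sum_mul]
  refine Finset.sum_congr rfl fun a _ => ?_
  rw [Finset.sum_mul]
  refine Finset.sum_congr rfl fun b _ => ?_
  rw [Finset.mul_sum]
  refine Finset.sum_congr rfl fun d _ => ?_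
  rw [Finset.mul_sum]
  refine Finset.sum_congr rfl fun e _ => ?_
  ring

theorem act_sq_eval (X : Matrix (Fin N) (Fin N) K) (c : (Fin (2 * 1) → Fin N) → K)
    (x y : Fin (2 * 1) → Fin N → K) :
    evalF (act X (sq c)) (![x 0, x 1, y 0, y 1] : Fin 4 → Fin N → K) =
      evalF (act X c) x * evalF c y + evalF c x * evalF (act X c) y := by
  have hx : ∀ z : Fin 2 → Fin N → K, (![z 0, z 1] : Fin 2 → Fin N → K) = z := by
    intro z
    funext k
    fin_cases k <;> rfl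
  have h0 : evalF (act X (sq c)) (![x 0, x 1, y 0, y 1] : Fin 4 → Fin N → K) =
      ∑ k : Fin 4, evalF (sq c) (Function.update (![x 0, x 1, y 0, y 1] : Fin 4 → Fin N → K) k
        (X *ᵥ ((![x 0, x 1, y 0, y 1] : Fin 4 → Fin N → K) k))) := evalF_act X (sq c) _
  have h1 : ∀ z : Fin (2 * 1) → Fin N → K, evalF (act X c) z =
      evalF c (![X *ᵥ z 0, z 1] : Fin 2 → Fin N → K) +
        evalF c (![z 0, X *ᵥ z 1] : Fin 2 → Fin N → K) := by
    intro z
    have h2 : evalF (act X c) z = ∑ k : Fin 2, evalF c (Function.update z k (X *ᵥ z k)) :=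
      evalF_act X c z
    rw [h2, Fin.sum_univ_two]
    congr 2
    · funext k
      fin_cases k <;> rfl
    · funext k
      fin_cases k <;> rfl
  have hs : ∀ a b d e : Fin N → K, evalF (sq c) (![a, b, d, e] : Fin 4 → Fin N → K) =
      evalF c (![a, b] : Fin 2 → Fin N → K) * evalF c (![d, e] : Fin 2 → Fin N → K) :=
    fun a b d e => evalF_sq c (![a, b, d, e] : Fin 4 → Fin N → K)
  have hu0 : ∀ a b d e z : Fin N → K,
      Function.update (![a, b, d, e] : Fin 4 → Fin N → K) 0 z = ![z, b, d, e] := by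
    intro a b d e z
    funext k
    fin_cases k <;> rfl
  have hu1 : ∀ a b d e z : Fin N → K,
      Function.update (![a, b, d, e] : Fin 4 → Fin N → K) 1 z = ![a, z, d, e] := by
    intro a b d e z
    funext k
    fin_cases k <;> rfl
  have hu2 : ∀ a b d e z : Fin N → K,
      Function.update (![a, b, d, e] : Fin 4 → Fin N → K) 2 z = ![a, b, z, e] := by
    intro a b d e z
    funext k
    fin_cases k <;> rfl
  have hu3 : ∀ a b d e z : Fin N → K,
      Function.update (![a, b, d, e] : Fin 4 → Fin N → K) 3 z = ![a, b, d, z] := by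
    intro a b d e z
    funext k
    fin_cases k <;> rfl
  rw [h0, Fin.sum_univ_four, hu0, hu1, hu2, hu3, hs, hs, hs, hs, h1 x, h1 y]
  have e0 : (![x 0, x 1, y 0, y 1] : Fin 4 → Fin N → K) 0 = x 0 := rfl
  have e1 : (![x 0, x 1, y 0, y 1] : Fin 4 → Fin N → K) 1 = x 1 := rfl
  have e2 : (![x 0, x 1, y 0, y 1] : Fin 4 → Fin N → K) 2 = y 0 := rfl
  have e3 : (![x 0, x 1, y 0, y 1] : Fin 4 → Fin N → K) 3 = y 1 := rfl
  have f1 : evalF c (![x 0, x 1] : Fin 2 → Fin N → K) = evalF c x := by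
    rw [show (![x 0, x 1] : Fin 2 → Fin N → K) = x from hx x]
  have f2 : evalF c (![y 0, y 1] : Fin 2 → Fin N → K) = evalF c y := by
    rw [show (![y 0, y 1] : Fin 2 → Fin N → K) = y from hx y]
  rw [e0, e1, e2, e3, f1, f2]
  ring

/-- A matrix which annihilates the square annihilates the class. -/
theorem kills_of_sq [CharZero K] {X : Matrix (Fin N) (Fin N) K} {c : (Fin (2 * 1) → Fin N) → K}
    (h : act X (sq c) = 0) : act X c = 0 := by
  by_cases hc : ∀ x, evalF c x = 0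
  · have h1 : c = 0 := eq_zero_of_evalF hc
    rw [h1, act_zero_right]
  · push Not at hc
    obtain ⟨x, hx⟩ := hc
    have h1 : ∀ x y : Fin (2 * 1) → Fin N → K,
        evalF (act X c) x * evalF c y + evalF c x * evalF (act X c) y = 0 := by
      intro x y
      rw [← act_sq_eval, h]
      exact evalF_zero (K := K) (κ := Fin 4) (![x 0, x 1, y 0, y 1] : Fin 4 → Fin N → K)
    have h2 : evalF (act X c) x = 0 := by
      have h3 := h1 x x
      have h4 : (2 : K) * (evalF c x * evalF (act X c) x) = 0 := by linear_combination h3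
      have h5 := (mul_eq_zero.1 h4).resolve_left two_ne_zero
      exact (mul_eq_zero.1 h5).resolve_left hx
    apply eq_zero_of_evalF
    intro y
    have h3 := h1 x y
    rw [h2, zero_mul, zero_add] at h3
    exact (mul_eq_zero.1 h3).resolve_left hx

end

section

variable {N : ℕ} (W : PolHS N)

theorem cst_sq {K : Type} [Field K] [CharZero K] (c : (Fin (2 * 1) → Fin N) → ℚ) :
    cst K (sq c) = sq (cst K c) := by
  funext I
  simp [cst, sq]

theorem PolHS.sq_mem {c : (Fin (2 * 1) → Fin N) → ℚ} (hc : c ∈ hodge W 1) :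
    sq c ∈ hodge W 2 := by
  refine W.mem_hodge fun X hX => ?_
  have h1 := hX 1 c hc
  have h2 : ∀ z : Fin (2 * 2) → Fin N → ℚ, evalF (act X (sq c)) z = 0 := by
    intro z
    have h3 := act_sq_eval X c (![z 0, z 1] : Fin 2 → Fin N → ℚ) (![z 2, z 3] : Fin 2 → Fin N → ℚ)
    rw [h1] at h3
    have h4 : ∀ y : Fin (2 * 1) → Fin N → ℚ,
        evalF (0 : (Fin (2 * 1) → Fin N) → ℚ) y = 0 := fun y => evalF_zero y
    rw [h4, h4, zero_mul, mul_zero, add_zero] at h3
    have h5 : (![(![z 0, z 1] : Fin 2 → Fin N → ℚ) 0, (![z 0, z 1] : Fin 2 → Fin N → ℚ) 1,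
        (![z 2, z 3] : Fin 2 → Fin N → ℚ) 0, (![z 2, z 3] : Fin 2 → Fin N → ℚ) 1] :
        Fin 4 → Fin N → ℚ) = z := by
      funext k
      fin_cases k <;> rfl
    exact (congrArg (evalF (act X (sq c))) h5.symm).trans h3
  exact eq_zero_of_evalF h2

variable {p : ℕ} [hp : Fact p.Prime] {Γ : Type} [Group Γ] [TopologicalSpace Γ]
  [IsTopologicalGroup Γ] [CompactSpace Γ] {ρ : Γ →* Matrix (Fin N) (Fin N) ℚ_[p]}
  {χ : Γ →* ℚ_[p]}

/-- The square of a Tate class. -/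
theorem sq_tate {c : (Fin (2 * 1) → Fin N) → ℚ_[p]} (hc : c ∈ tate ρ χ 1) :
    sq c ∈ tate ρ χ 2 := by
  obtain ⟨Δ, hΔ, h⟩ := hc
  refine ⟨Δ, hΔ, fun s hs x => ?_⟩
  rw [evalF_sq, evalF_sq]
  have h1 := h s hs (![x 0, x 1] : Fin 2 → Fin N → ℚ_[p])
  have h2 := h s hs (![x 2, x 3] : Fin 2 → Fin N → ℚ_[p])
  have e1 : (fun k => ρ s *ᵥ (![x 0, x 1] : Fin 2 → Fin N → ℚ_[p]) k) =
      ![ρ s *ᵥ x 0, ρ s *ᵥ x 1] := by
    funext k
    fin_cases k <;> rfl
  have e2 : (fun k => ρ s *ᵥ (![x 2, x 3] : Fin 2 → Fin N → ℚ_[p]) k) =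
      ![ρ s *ᵥ x 2, ρ s *ᵥ x 3] := by
    funext k
    fin_cases k <;> rfl
  have h1' : evalF c (![ρ s *ᵥ x 0, ρ s *ᵥ x 1] : Fin 2 → Fin N → ℚ_[p]) =
      χ s ^ 1 * evalF c (![x 0, x 1] : Fin 2 → Fin N → ℚ_[p]) := by
    rw [← h1]
    exact congrArg (evalF c) e1.symm
  have h2' : evalF c (![ρ s *ᵥ x 2, ρ s *ᵥ x 3] : Fin 2 → Fin N → ℚ_[p]) =
      χ s ^ 1 * evalF c (![x 2, x 3] : Fin 2 → Fin N → ℚ_[p]) := by
    rw [← h2]
    exact congrArg (evalF c) e2.symm
  rw [h1', h2']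
  ring

/-- A class of degree two is a Tate class if its square is one. -/
theorem tate_of_sq (hρ : Continuous ρ) (hχ : Continuous χ)
    {c : (Fin (2 * 1) → Fin N) → ℚ_[p]} (hc : sq c ∈ tate ρ χ 2) : c ∈ tate ρ χ 1 := by
  by_cases h0 : ∀ x, evalF c x = 0
  · rw [eq_zero_of_evalF h0]
    exact Submodule.zero_mem _
  push Not at h0
  obtain ⟨x₀, hx₀⟩ := h0
  obtain ⟨Δ, hΔ, h⟩ := hc
  have hx : ∀ z : Fin 2 → Fin N → ℚ_[p], (![z 0, z 1] : Fin 2 → Fin N → ℚ_[p]) = z := by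
    intro z
    funext k
    fin_cases k <;> rfl
  have hprod : ∀ s ∈ Δ, ∀ x y : Fin (2 * 1) → Fin N → ℚ_[p],
      evalF c (fun k => ρ s *ᵥ x k) * evalF c (fun k => ρ s *ᵥ y k) =
        χ s ^ 2 * (evalF c x * evalF c y) := by
    intro s hs x y
    have h1 := h s hs (![x 0, x 1, y 0, y 1] : Fin 4 → Fin N → ℚ_[p])
    rw [evalF_sq, evalF_sq] at h1
    have e1 : (![x 0, x 1] : Fin 2 → Fin N → ℚ_[p]) = x := hx x
    have e2 : (![y 0, y 1] : Fin 2 → Fin N → ℚ_[p]) = y := hx y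
    have e3 : (![ρ s *ᵥ x 0, ρ s *ᵥ x 1] : Fin 2 → Fin N → ℚ_[p]) = fun k => ρ s *ᵥ x k :=
      hx (fun k => ρ s *ᵥ x k)
    have e4 : (![ρ s *ᵥ y 0, ρ s *ᵥ y 1] : Fin 2 → Fin N → ℚ_[p]) = fun k => ρ s *ᵥ y k :=
      hx (fun k => ρ s *ᵥ y k)
    have h2 : evalF c (![x 0, x 1] : Fin 2 → Fin N → ℚ_[p]) = evalF c x := congrArg (evalF c) e1
    have h3 : evalF c (![y 0, y 1] : Fin 2 → Fin N → ℚ_[p]) = evalF c y := congrArg (evalF c) e2
    have h4 : evalF c (![ρ s *ᵥ x 0, ρ s *ᵥ x 1] : Fin 2 → Fin N → ℚ_[p]) =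
        evalF c (fun k => ρ s *ᵥ x k) := congrArg (evalF c) e3
    have h5 : evalF c (![ρ s *ᵥ y 0, ρ s *ᵥ y 1] : Fin 2 → Fin N → ℚ_[p]) =
        evalF c (fun k => ρ s *ᵥ y k) := congrArg (evalF c) e4
    rw [← h2, ← h3, ← h4, ← h5]
    exact h1
  -- the subgroup
  let U : Subgroup Γ :=
    { carrier := {s | s ∈ Δ ∧ ∀ y, evalF c (fun k => ρ s *ᵥ y k) = χ s * evalF c y}
      one_mem' := by
        refine ⟨Δ.one_mem, fun y => ?_⟩
        rw [map_one, map_one, one_mul]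
        congr 1
        funext k
        rw [one_mulVec]
      mul_mem' := by
        rintro s t ⟨hs, hs'⟩ ⟨ht, ht'⟩
        refine ⟨Δ.mul_mem hs ht, fun y => ?_⟩
        have h1 : (fun k => ρ (s * t) *ᵥ y k) = fun k => ρ s *ᵥ (ρ t *ᵥ y k) := by
          funext k
          rw [map_mul, mulVec_mulVec]
        rw [h1, hs' (fun k => ρ t *ᵥ y k), ht', map_mul, mul_assoc]
      inv_mem' := by
        rintro s ⟨hs, hs'⟩
        refine ⟨Δ.inv_mem hs, fun y => ?_⟩
        have h1 := hs' (fun k => ρ s⁻¹ *ᵥ y k)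
        have h2 : (fun k => ρ s *ᵥ (ρ s⁻¹ *ᵥ y k)) = y := by
          funext k
          rw [mulVec_mulVec, rho_inv', one_mulVec]
        rw [h2] at h1
        rw [h1, ← mul_assoc, ← map_mul, inv_mul_cancel, map_one, one_mul] }
  refine ⟨U, ?_, fun s hs x => by rw [pow_one]; exact hs.2 x⟩
  have hcont : Continuous (fun s : Γ => evalF c (fun k => ρ s *ᵥ x₀ k) + χ s * evalF c x₀) := by
    have h1 : Continuous (fun s : Γ => evalF c (fun k => ρ s *ᵥ x₀ k)) := by
      have h2 : Continuous (fun y : Fin (2 * 1) → Fin N → ℚ_[p] => evalF c y) := (evalC c).cont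
      refine h2.comp (continuous_pi fun k => ?_)
      exact Continuous.matrix_mulVec hρ continuous_const
    exact h1.add (hχ.mul continuous_const)
  have hne : (fun s : Γ => evalF c (fun k => ρ s *ᵥ x₀ k) + χ s * evalF c x₀) 1 ≠ 0 := by
    change evalF c (fun k => ρ 1 *ᵥ x₀ k) + χ 1 * evalF c x₀ ≠ 0
    rw [map_one, map_one, one_mul]
    have h1 : (fun k => (1 : Matrix (Fin N) (Fin N) ℚ_[p]) *ᵥ x₀ k) = x₀ := by
      funext k
      rw [one_mulVec]
    rw [h1, ← two_mul]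
    exact mul_ne_zero two_ne_zero hx₀
  have hopen : {s : Γ | evalF c (fun k => ρ s *ᵥ x₀ k) + χ s * evalF c x₀ ≠ 0} ∈ nhds (1 : Γ) :=
    (isOpen_ne.preimage hcont).mem_nhds hne
  refine Subgroup.isOpen_of_mem_nhds U (g := 1)
    (Filter.mem_of_superset (Filter.inter_mem (hΔ.mem_nhds Δ.one_mem) hopen) ?_)
  rintro s ⟨hs, hs'⟩
  have h1 := hprod s hs x₀ x₀
  have h2 : (evalF c (fun k => ρ s *ᵥ x₀ k) + χ s * evalF c x₀) *
      (evalF c (fun k => ρ s *ᵥ x₀ k) - χ s * evalF c x₀) = 0 := by linear_combination h1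
  have h3 : evalF c (fun k => ρ s *ᵥ x₀ k) = χ s * evalF c x₀ :=
    sub_eq_zero.1 ((mul_eq_zero.1 h2).resolve_left hs')
  have hχs : χ s ≠ 0 := by
    intro h0
    have h4 : χ s * χ s⁻¹ = 1 := by rw [← map_mul, mul_inv_cancel, map_one]
    rw [h0, zero_mul] at h4
    exact zero_ne_one h4
  refine ⟨hs, fun y => ?_⟩
  have h4 := hprod s hs x₀ y
  rw [h3] at h4
  have h5 : (χ s * evalF c x₀) * (evalF c (fun k => ρ s *ᵥ y k) - χ s * evalF c y) = 0 := by
    linear_combination h4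
  exact sub_eq_zero.1 ((mul_eq_zero.1 h5).resolve_left (mul_ne_zero hχs hx₀))

/-- **Degree four decides.** -/
theorem PolHS.degree_four (hρ : Continuous ρ) (hχ : Continuous χ)
    {h : (Fin (2 * 2) → Fin N) → ℚ} (hh : h ∈ hodge W 2)
    (hann : annTwo (hodge W) h = lie (hodge W) ⊔ centre W.Q (hodge W))
    {t : (Fin (2 * 2) → Fin N) → ℚ_[p]} (ht : t ∈ tate ρ χ 2)
    (tann : annTwo (tate ρ χ) t = lie (tate ρ χ) ⊔ centre W.Q (tate ρ χ)) {A : Fam ℚ N}
    (hA : ∀ m, A m ≤ hodge W m) (hA' : ∀ m, ext ℚ_[p] A m ≤ tate ρ χ m)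
    (hA2 : hodge W 2 ≤ A 2) (hA2' : tate ρ χ 2 ≤ ext ℚ_[p] A 2) :
    lie A ≤ lie (hodge W) ⊔ centre W.Q (hodge W) ∧
      lie (ext ℚ_[p] A) ≤ lie (tate ρ χ) ⊔ centre W.Q (tate ρ χ) ∧
      (centre W.Q (hodge W) = ⊥ →
        lie A = lie (hodge W) ∧ lie (ext ℚ_[p] A) = lie (tate ρ χ)) := by
  have h1 : lie A ≤ annTwo (hodge W) h := fun X hX =>
    ⟨fun c hc => kills_of_sq (hX 2 _ (hA2 (W.sq_mem hc))), hX 2 h (hA2 hh)⟩
  have h2 : lie (ext ℚ_[p] A) ≤ annTwo (tate ρ χ) t := fun X hX =>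
    ⟨fun c hc => kills_of_sq (hX 2 _ (hA2' (sq_tate hc))), hX 2 t (hA2' ht)⟩
  rw [hann] at h1
  rw [tann] at h2
  refine ⟨h1, h2, fun hIV => ?_⟩
  -- the classes of degree two
  have hle : ∀ m, ext ℚ_[p] A m ≤ ext ℚ_[p] (hodge W) m := fun m =>
    Submodule.span_mono (Set.image_mono (hA m))
  have h3 : tate ρ χ 1 = ext ℚ_[p] (hodge W) 1 := by
    apply le_antisymm
    · intro c hc
      refine mem_ext_of_lam fun lam => W.mem_hodge fun X hX => ?_
      have h4 := cast_mem_lie (K := ℚ_[p]) hX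
      have h5 : act (X.map (fun q : ℚ => (q : ℚ_[p]))) c = 0 :=
        kills_of_sq (h4 2 _ (hle 2 (hA2' (sq_tate hc))))
      funext I
      have h6 : act X (fun I => lam (c I)) I =
          lam (act (X.map (fun q : ℚ => (q : ℚ_[p]))) c I) := by
        simp only [act, map_sum]
        refine Finset.sum_congr rfl fun k _ => Finset.sum_congr rfl fun j _ => ?_
        rw [Matrix.map_apply, mul_comm ((X j (I k) : ℚ) : ℚ_[p]), lam_cst, mul_comm]
      rw [h6, h5]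
      simp
    · refine Submodule.span_le.2 ?_
      rintro _ ⟨c, hc, rfl⟩
      refine tate_of_sq hρ hχ ?_
      rw [← cst_sq]
      exact hA' 2 (Submodule.subset_span ⟨_, hA2 (W.sq_mem hc), rfl⟩)
  have h4 : centre W.Q (tate ρ χ) = ⊥ := by
    rw [centre_congr h3]
    exact centre_ext hIV
  rw [hIV, sup_bot_eq] at h1
  rw [h4, sup_bot_eq] at h2
  exact ⟨le_antisymm h1 (lie_anti hA), le_antisymm h2 (lie_anti hA')⟩

end

end

end Pool.Agent.Helper883_Four
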