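import Mathlib
import Pool.Agent.Helper883_Four.Sq

/-!
# Dimensions and the final form of the theorem
-/

set_option linter.unusedSectionVars false

namespace Pool.Agent.Helper883_Four

open Matrix Module Pool.Agent.W437.HC

noncomputable section

section

variable {K : Type} [Field K] [CharZero K] {N : ℕ}

/-- The dimension does not change under extension of scalars. -/
theorem finrank_ext (A : Fam ℚ N) (m : ℕ) : finrank K (ext K A m) = finrank ℚ (A m) := by
  classical
  let b := Module.finBasis ℚ (A m)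
  -- the images are linearly independent
  have hli : LinearIndependent K (fun i => cst K (b i : (Fin (2 * m) → Fin N) → ℚ)) := by
    rw [Fintype.linearIndependent_iff]
    intro g hg i
    refine eq_zero_of_lams fun lam => ?_
    have h1 : ∑ j, lam (g j) • (b j : (Fin (2 * m) → Fin N) → ℚ) = 0 := by
      funext I
      have h2 := congrArg lam (congrFun hg I)
      rw [Finset.sum_apply, map_sum, Pi.zero_apply, map_zero] at h2
      rw [Finset.sum_apply, Pi.zero_apply, ← h2]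
      refine Finset.sum_congr rfl fun j _ => ?_
      rw [Pi.smul_apply, Pi.smul_apply, smul_eq_mul, smul_eq_mul, cst_apply, lam_cst]
    have h2 : LinearIndependent ℚ (fun j => (b j : (Fin (2 * m) → Fin N) → ℚ)) :=
      b.linearIndependent.map' (A m).subtype (Submodule.ker_subtype _)
    exact (Fintype.linearIndependent_iff.1 h2) (fun j => lam (g j)) h1 i
  have hspan : ext K A m =
      Submodule.span K (Set.range fun i => cst K (b i : (Fin (2 * m) → Fin N) → ℚ)) := by
    apply le_antisymm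
    · refine Submodule.span_le.2 ?_
      rintro _ ⟨c, hc, rfl⟩
      have h1 := b.sum_repr ⟨c, hc⟩
      have h2 := congrArg (fun x : A m => (x : (Fin (2 * m) → Fin N) → ℚ)) h1
      simp only [AddSubmonoidClass.coe_finsetSum, SetLike.val_smul] at h2
      have h3 : cst K c = ∑ i, ((b.repr ⟨c, hc⟩ i : ℚ) : K) •
          cst K (b i : (Fin (2 * m) → Fin N) → ℚ) := by
        funext I
        have h4 := congrFun h2 I
        rw [Finset.sum_apply] at h4
        rw [Finset.sum_apply, cst_apply, ← h4]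
        push_cast
        refine Finset.sum_congr rfl fun i _ => ?_
        rw [Pi.smul_apply, Pi.smul_apply, smul_eq_mul, smul_eq_mul, cst_apply, Rat.cast_mul]
      rw [SetLike.mem_coe, h3]
      exact Submodule.sum_mem _ fun i _ =>
        Submodule.smul_mem _ _ (Submodule.subset_span ⟨i, rfl⟩)
    · refine Submodule.span_le.2 ?_
      rintro _ ⟨i, rfl⟩
      exact Submodule.subset_span ⟨_, (b i).2, rfl⟩
  rw [hspan, finrank_span_eq_card hli, Fintype.card_fin]

end

section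

variable {N : ℕ} (W : PolHS N) {p : ℕ} [hp : Fact p.Prime] {Γ : Type} [Group Γ]
  [TopologicalSpace Γ] [IsTopologicalGroup Γ] [CompactSpace Γ]
  {ρ : Γ →* Matrix (Fin N) (Fin N) ℚ_[p]} {χ : Γ →* ℚ_[p]}

/-- The dimension criterion. -/
theorem PolHS.dim_iff (hD : ∀ m, ext ℚ_[p] (hodge W) m ≤ tate ρ χ m) :
    finrank ℚ_[p] (tate ρ χ 2) = finrank ℚ (hodge W 2) ↔
      tate ρ χ 2 ≤ ext ℚ_[p] (hodge W) 2 := by
  constructor
  · intro h
    rw [← finrank_ext (K := ℚ_[p]) (hodge W) 2] at h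
    exact (Submodule.eq_of_le_of_finrank_eq (hD 2) h.symm).ge
  · intro h
    rw [← finrank_ext (K := ℚ_[p]) (hodge W) 2, le_antisymm h (hD 2)]

/-- **The main theorem.** -/
theorem PolHS.main (hρ : Continuous ρ) (hχ : Continuous χ)
    (hQ : ∀ s, (ρ s)ᵀ * polar ℚ_[p] W.Q * ρ s = χ s • polar ℚ_[p] W.Q) (hss : Semisimple ρ) :
    ∃ h ∈ hodge W 2, ∃ t ∈ tate ρ χ 2,
      annTwo (hodge W) h = lie (hodge W) ⊔ centre W.Q (hodge W) ∧
      annTwo (tate ρ χ) t = lie (tate ρ χ) ⊔ centre W.Q (tate ρ χ) ∧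
      (∀ A : Fam ℚ N, (∀ m, A m ≤ hodge W m) → (∀ m, ext ℚ_[p] A m ≤ tate ρ χ m) →
        hodge W 2 ≤ A 2 → tate ρ χ 2 ≤ ext ℚ_[p] A 2 →
        lie A ≤ lie (hodge W) ⊔ centre W.Q (hodge W) ∧
        lie (ext ℚ_[p] A) ≤ lie (tate ρ χ) ⊔ centre W.Q (tate ρ χ) ∧
        (centre W.Q (hodge W) = ⊥ →
          lie A = lie (hodge W) ∧ lie (ext ℚ_[p] A) = lie (tate ρ χ))) ∧
      ((∀ m, ext ℚ_[p] (hodge W) m ≤ tate ρ χ m) → tate ρ χ 1 ≤ ext ℚ_[p] (hodge W) 1 →
        (∀ Z ∈ centre W.Q (tate ρ χ), Z ∈ lie (ext ℚ_[p] (hodge W)) → Z ∈ lie (tate ρ χ)) →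
        List.TFAE [∀ m, tate ρ χ m ≤ ext ℚ_[p] (hodge W) m,
          finrank ℚ_[p] (tate ρ χ 2) = finrank ℚ (hodge W 2),
          t ∈ ext ℚ_[p] (hodge W) 2]) := by
  obtain ⟨h, hh, hann⟩ := W.hodge_ann
  obtain ⟨t, ht, tann⟩ := tate_ann hρ hχ hQ (W.polar_unit ℚ_[p]) hss
  refine ⟨h, hh, t, ht, hann, tann, fun A hA hA' hA2 hA2' =>
    W.degree_four hρ hχ hh hann ht tann hA hA' hA2 hA2', fun hD hF hC => ?_⟩
  have h1 := W.abelian ht tann hD hF hC
  have h2 := W.dim_iff hD
  tfae_have 1 → 2 := fun h => h2.2 (h 2)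
  tfae_have 2 → 3 := fun h => (h2.1 h) ht
  tfae_have 3 → 1 := fun h => h1.1 h
  tfae_finish

end

end

end Pool.Agent.Helper883_Four
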