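import Mathlib
import Pool.Agent.Helper883_Four.Dim

/-!
# The conditions used in the statement of the theorem
-/

namespace Pool.Agent.Helper883_Four

open Matrix Module

/-- `ρ` and `χ` are continuous, `ρ` preserves the polarization of `W` up to the character `χ`, and
`ρ` is semisimple. -/
def IsRealization {N : ℕ} (W : PolHS N) {p : ℕ} [Fact p.Prime] {Γ : Type} [Group Γ]
    [TopologicalSpace Γ] (ρ : Γ →* Matrix (Fin N) (Fin N) ℚ_[p]) (χ : Γ →* ℚ_[p]) : Prop :=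
  Continuous ρ ∧ Continuous χ ∧
    (∀ s, (ρ s)ᵀ * polar ℚ_[p] W.Q * ρ s = χ s • polar ℚ_[p] W.Q) ∧ Semisimple ρ

/-- Up to the centre, all classes of the family `F` are determined by the classes of `F` in
`M ^ {⊗ 2} (w)` and the single class `t` in `M ^ {⊗ 4} (2 w)`: a matrix annihilates these if and
only if it is the sum of a matrix which annihilates all classes of `F` and a matrix in the centre. -/
def Decides {K : Type} [Field K] {N : ℕ} (Q : Matrix (Fin N) (Fin N) ℚ) (F : Fam K N)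
    (t : (Fin (2 * 2) → Fin N) → K) : Prop :=
  annTwo F t = lie F ⊔ centre Q F

/-- The family `A` consists of classes which are both Hodge classes and Tate classes. -/
def IsBoth {N : ℕ} (W : PolHS N) {p : ℕ} [Fact p.Prime] {Γ : Type} [Group Γ]
    [TopologicalSpace Γ] (ρ : Γ →* Matrix (Fin N) (Fin N) ℚ_[p]) (χ : Γ →* ℚ_[p])
    (A : Fam ℚ N) : Prop :=
  (∀ m, A m ≤ hodge W m) ∧ ∀ m, ext ℚ_[p] A m ≤ tate ρ χ m

/-- The family `A` contains all Hodge classes, and spans all Tate classes, in `M ^ {⊗ 4} (2 w)`. -/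
def FullInDegreeFour {N : ℕ} (W : PolHS N) {p : ℕ} [Fact p.Prime] {Γ : Type} [Group Γ]
    [TopologicalSpace Γ] (ρ : Γ →* Matrix (Fin N) (Fin N) ℚ_[p]) (χ : Γ →* ℚ_[p])
    (A : Fam ℚ N) : Prop :=
  hodge W 2 ≤ A 2 ∧ tate ρ χ 2 ≤ ext ℚ_[p] A 2

/-- The Hodge classes are Tate classes; the Tate classes in `M ^ {⊗ 2} (w)` are spanned by Hodge
classes; and the centres agree, that is, the elements of the centre for the Tate classes which
annihilate all Hodge classes annihilate all Tate classes. -/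
def LikeAbelian {N : ℕ} (W : PolHS N) {p : ℕ} [Fact p.Prime] {Γ : Type} [Group Γ]
    [TopologicalSpace Γ] (ρ : Γ →* Matrix (Fin N) (Fin N) ℚ_[p]) (χ : Γ →* ℚ_[p]) : Prop :=
  (∀ m, ext ℚ_[p] (hodge W) m ≤ tate ρ χ m) ∧ tate ρ χ 1 ≤ ext ℚ_[p] (hodge W) 1 ∧
    centre W.Q (tate ρ χ) ⊓ lie (ext ℚ_[p] (hodge W)) ≤ lie (tate ρ χ)

/-- The theorem. -/
theorem PolHS.main' {N : ℕ} (W : PolHS N) {p : ℕ} [Fact p.Prime]
    {Γ : Type} [Group Γ] [TopologicalSpace Γ] [IsTopologicalGroup Γ] [CompactSpace Γ]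
    (ρ : Γ →* Matrix (Fin N) (Fin N) ℚ_[p]) (χ : Γ →* ℚ_[p]) (hW : IsRealization W ρ χ) :
    ∃ h ∈ hodge W 2, ∃ t ∈ tate ρ χ 2,
      Decides W.Q (hodge W) h ∧ Decides W.Q (tate ρ χ) t ∧
      (∀ A, IsBoth W ρ χ A → FullInDegreeFour W ρ χ A →
        lie A ≤ lie (hodge W) ⊔ centre W.Q (hodge W) ∧
        lie (ext ℚ_[p] A) ≤ lie (tate ρ χ) ⊔ centre W.Q (tate ρ χ) ∧
        (centre W.Q (hodge W) = ⊥ →
          lie A = lie (hodge W) ∧ lie (ext ℚ_[p] A) = lie (tate ρ χ))) ∧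
      (LikeAbelian W ρ χ →
        List.TFAE [∀ m, tate ρ χ m ≤ ext ℚ_[p] (hodge W) m,
          finrank ℚ_[p] (tate ρ χ 2) = finrank ℚ (hodge W 2),
          t ∈ ext ℚ_[p] (hodge W) 2]) := by
  obtain ⟨h, hh, t, ht, h1, h2, h3, h4⟩ := W.main hW.1 hW.2.1 hW.2.2.1 hW.2.2.2
  exact ⟨h, hh, t, ht, h1, h2, fun A hA hA2 => h3 A hA.1 hA.2 hA2.1 hA2.2,
    fun hL => h4 hL.1 hL.2.1 fun Z hZ hZ' => hL.2.2 ⟨hZ, hZ'⟩⟩

end Pool.Agent.Helper883_Four
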